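import Pool.Agent.Q45.ND.Stm
import Pool.Agent.Q45.OI.K.LC
import Pool.Agent.Q45.OI.P.PB

/-!
# The structure of the Lie algebra, from the lemmas on graphs
-/

set_option autoImplicit false
set_option linter.all false

open Module

namespace Pool.Agent.Q45.ND

open Pool.Agent.Q45.OI (Cg InLie InO InSo soS mem_soS soS_sat exists_prim two_ne)

section set

variable {Ω M : Type} [Fintype Ω] [DecidableEq Ω] [AddCommGroup M] [Module ℤ_[2] M]
  {κ : M →+ (Ω → ZMod 2)} {R : End ℤ_[2] M →+* Matrix Ω Ω (ZMod 2)}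
  {B : M →ₗ[ℤ_[2]] M →ₗ[ℤ_[2]] ℤ_[2]}

/-- The reduction of a skew endomorphism. -/
theorem Setup.alt (h : Setup κ R B) {A : End ℤ_[2] M} (hA : InSo B A) : IsAlt (R A) := by
  have hx : ∀ i, ∃ x, κ x = Pi.single i 1 := fun i => h.surj _
  choose x hx using hx
  have key : ∀ i j, PadicInt.toZMod (B (A (x j)) (x i)) = R A i j := by
    intro i j
    rw [h.dot, h.red, hx, hx]
    rw [Finset.sum_eq_single i]
    · rw [Pi.single_eq_same, mul_one, Matrix.mulVec_single_one]
      rfl
    · intro b _ hb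
      rw [Pi.single_eq_of_ne hb, mul_zero]
    · intro h1
      exact absurd (Finset.mem_univ i) h1
  constructor
  · intro i
    rw [← key]
    have h1 := hA (x i) (x i)
    rw [h.symm (x i) (A (x i))] at h1
    have h2 : (2 : ℤ_[2]) * B (A (x i)) (x i) = 0 := by linear_combination h1
    rw [(mul_eq_zero.1 h2).resolve_left two_ne, map_zero]
  · intro i j
    rw [← key, ← key]
    have h1 := hA (x j) (x i)
    rw [h.symm (x j) (A (x i))] at h1
    have h2 := congrArg PadicInt.toZMod h1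
    rw [map_add, map_zero] at h2
    exact (by decide : ∀ c d : ZMod 2, c + d = 0 → c = d) _ _ h2

variable [Module.Free ℤ_[2] M] [Module.Finite ℤ_[2] M]

/-- Nakayama. -/
theorem Setup.nak (h : Setup κ R B) {S L : Submodule ℤ_[2] (End ℤ_[2] M)} (hL : L ≤ S)
    (hsat : ∀ A, (2 : ℤ_[2]) • A ∈ S → A ∈ S) (hS : ∀ A ∈ S, ∃ A' ∈ L, R A' = R A) : S ≤ L := by
  refine Submodule.le_of_le_smul_of_le_jacobson_bot (I := IsLocalRing.maximalIdeal ℤ_[2])
    (IsNoetherian.noetherian S) ?_ ?_
  · rw [IsLocalRing.jacobson_eq_maximalIdeal _ bot_ne_top]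
  · intro A hA
    obtain ⟨A', hA', h1⟩ := hS A hA
    have h2 : R (A - A') = 0 := by rw [map_sub, h1, sub_self]
    obtain ⟨C, hC⟩ := (h.rker _).1 h2
    have hCS : C ∈ S := hsat C (by rw [← hC]; exact S.sub_mem hA (hL hA'))
    have h3 : A = A' + (2 : ℤ_[2]) • C := by rw [← hC]; abel
    rw [h3]
    refine Submodule.add_mem_sup hA' (Submodule.smul_mem_smul ?_ hCS)
    rw [PadicInt.maximalIdeal_eq_span_p]
    exact Ideal.mem_span_singleton_self _

end set

theorem full_alt (Ω : Type) [Fintype Ω] [DecidableEq Ω] : IsAlt (full Ω) := by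
  constructor
  · intro i
    show (if i = i then (0 : ZMod 2) else 1) = 0
    rw [if_pos rfl]
  · intro i j
    show (if i = j then (0 : ZMod 2) else 1) = if j = i then 0 else 1
    simp only [eq_comm]

theorem full_ev (Ω : Type) [Fintype Ω] [DecidableEq Ω] (hodd : Odd (Fintype.card Ω)) :
    IsEv (full Ω) := by
  intro i
  show ∑ j, (if i = j then (0 : ZMod 2) else 1) = 0
  have h1 : ∀ j, (if i = j then (0 : ZMod 2) else 1) = 1 - if i = j then 1 else 0 := by
    intro j
    by_cases h : i = j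
    · rw [if_pos h, if_pos h, sub_self]
    · rw [if_neg h, if_neg h, sub_zero]
  rw [Finset.sum_congr rfl fun j _ => h1 j, Finset.sum_sub_distrib, Finset.sum_ite_eq,
    if_pos (Finset.mem_univ i), Finset.sum_const, Finset.card_univ, nsmul_eq_mul, mul_one]
  obtain ⟨m, hm⟩ := hodd
  rw [hm]
  push_cast
  have : (2 : ZMod 2) = 0 := rfl
  rw [this]
  ring

theorem full_ne (Ω : Type) [Fintype Ω] [DecidableEq Ω] (h : 2 ≤ Fintype.card Ω) : full Ω ≠ 0 := by
  intro h0
  haveI : Nontrivial Ω := Fintype.one_lt_card_iff_nontrivial.1 (by omega)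
  obtain ⟨i, j, hij⟩ := exists_pair_ne Ω
  have h1 := congrFun (congrFun h0 i) j
  have h2 : (if i = j then (0 : ZMod 2) else 1) = 0 := h1
  rw [if_neg hij] at h2
  exact absurd h2 (by decide)

theorem alt_sub {Ω : Type} [Fintype Ω] {X Y : Matrix Ω Ω (ZMod 2)} (hX : IsAlt X) (hY : IsAlt Y) :
    IsAlt (X - Y) :=
  ⟨fun i => by rw [Matrix.sub_apply, hX.1, hY.1, sub_self],
    fun i j => by rw [Matrix.sub_apply, Matrix.sub_apply, hX.2 i j, hY.2 i j]⟩

theorem ev_sub {Ω : Type} [Fintype Ω] {X Y : Matrix Ω Ω (ZMod 2)} (hX : IsEv X) (hY : IsEv Y) :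
    IsEv (X - Y) := by
  intro i
  have h1 : ∀ j, (X - Y) i j = X i j - Y i j := fun j => rfl
  rw [Finset.sum_congr rfl fun j _ => h1 j, Finset.sum_sub_distrib, hX i, hY i, sub_self]

theorem lam_sub {Ω : Type} [Fintype Ω] [LinearOrder Ω] (X Y : Matrix Ω Ω (ZMod 2)) :
    lam (X - Y) = lam X - lam Y := by
  unfold lam
  rw [← Finset.sum_sub_distrib]
  refine Finset.sum_congr rfl fun i _ => ?_
  rw [← Finset.sum_sub_distrib]
  refine Finset.sum_congr rfl fun j _ => ?_
  by_cases h : i < j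
  · rw [if_pos h, if_pos h, if_pos h]
    rfl
  · rw [if_neg h, if_neg h, if_neg h, sub_self]

/-- **The structure of the saturated Lie algebras.** -/
theorem struct_of (hG : Graph) (hD : Dot) (hLi : Line) (hLa : Lam) (hSi : Sing) : Struct := by
  intro Ω _ iD hodd h7 M _ _ _ _ κ hsurj hker H B hsymm hperf hinv hperm L hsat hconj hso hbr hL0
  -- the linear order
  clear iD
  letI iO : LinearOrder Ω := LinearOrder.lift' (Fintype.equivFin Ω) (Fintype.equivFin Ω).injective
  have hdot := hD Ω hodd (by omega) M κ hsurj hker H B hsymm hperf hinv hperm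
  obtain ⟨R₀, hR1, hR2, hR3, -⟩ := Pool.Agent.Q45.OI.KLC.red M (Ω → ZMod 2) κ hsurj hker
  let R : End ℤ_[2] M →+* Matrix Ω Ω (ZMod 2) :=
    (LinearMap.toMatrixAlgEquiv' (R := ZMod 2) (n := Ω)).toRingEquiv.toRingHom.comp R₀
  have hRd : ∀ A, R A = LinearMap.toMatrixAlgEquiv' (R₀ A) := fun A => rfl
  have hset : Setup κ R B := by
    refine ⟨hsurj, hker, fun A m => ?_, ?_, fun A => ?_, hsymm, hdot⟩
    · rw [hRd, ← hR1]
      exact (LinearMap.toMatrix'_mulVec (R₀ A) (κ m)).symm
    · intro X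
      obtain ⟨A, hA⟩ := hR2 (LinearMap.toMatrixAlgEquiv'.symm X)
      exact ⟨A, by rw [hRd, hA, AlgEquiv.apply_symm_apply]⟩
    · rw [hRd, map_eq_zero_iff _ LinearMap.toMatrixAlgEquiv'.injective, hR3]
  -- the graphs
  let U : Submodule (ZMod 2) (Matrix Ω Ω (ZMod 2)) :=
    AddSubgroup.toZModSubmodule 2 (L.toAddSubgroup.map R.toAddMonoidHom)
  have hU : ∀ X, X ∈ U ↔ ∃ A ∈ L, R A = X := fun X => Iff.rfl
  have hgr := hG Ω hodd h7 U (by
      intro X hX
      obtain ⟨A, hA, rfl⟩ := (hU X).1 hX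
      exact hset.alt (hso A hA)) (by
      intro s X hX
      obtain ⟨A, hA, rfl⟩ := (hU X).1 hX
      obtain ⟨g, hg, hgs⟩ := hperm s⁻¹
      have hs1 : ∀ i, s⁻¹ (s i) = i := fun i => s.symm_apply_apply i
      have hs2 : ∀ i, s (s⁻¹ i) = i := fun i => s.apply_symm_apply i
      refine (hU _).2 ⟨_, hconj g hg A hA, ?_⟩
      have hgi : ∀ i j, R (g : End ℤ_[2] M) i j = if s i = j then 1 else 0 := by
        intro i j
        obtain ⟨x, hx⟩ := hsurj (Pi.single j 1)
        have h1 := hgs x (s i)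
        rw [hset.red, hx, hs1, Matrix.mulVec_single_one] at h1
        rw [show R (g : End ℤ_[2] M) i j = (R (g : End ℤ_[2] M)).col j i from rfl, h1,
          Pi.single_apply]
      have hmul : R (g : End ℤ_[2] M) * R A = (R A).submatrix s s * R (g : End ℤ_[2] M) := by
        ext i j
        rw [Matrix.mul_apply, Matrix.mul_apply]
        rw [Finset.sum_eq_single (s i), Finset.sum_eq_single (s⁻¹ j)]
        · rw [hgi, hgi, if_pos rfl, one_mul, hs2, if_pos rfl, mul_one,
            Matrix.submatrix_apply, hs2]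
        · intro b _ hb
          rw [hgi, if_neg, mul_zero]
          rintro rfl
          exact hb (hs1 b).symm
        · intro h1
          exact absurd (Finset.mem_univ _) h1
        · intro b _ hb
          rw [hgi, if_neg (Ne.symm hb), zero_mul]
        · intro h1
          exact absurd (Finset.mem_univ _) h1
      rw [map_mul, map_mul, hmul, mul_assoc, ← map_mul, Units.mul_inv, map_one, mul_one]) (by
      intro X hX Y hY
      obtain ⟨A, hA, rfl⟩ := (hU X).1 hX
      obtain ⟨A', hA', rfl⟩ := (hU Y).1 hY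
      exact (hU _).2 ⟨_, hbr A hA A' hA', by rw [map_sub, map_mul, map_mul]⟩)
  have hLso : L ≤ soS B := fun A hA => mem_soS.2 (hso A hA)
  rcases hgr with h1 | h1 | ⟨h1, h2⟩
  · left
    intro A hA
    exact hset.nak hLso (fun A => soS_sat A) (fun A hA => (hU _).1 (h1 _ (hset.alt (mem_soS.1 hA))))
      (mem_soS.2 hA)
  · exfalso
    obtain ⟨A, hA, hA0⟩ : ∃ A ∈ L, A ≠ 0 := Submodule.exists_mem_ne_zero_of_ne_bot hL0
    obtain ⟨n, A₀, hA₀, hprim⟩ := exists_prim hA0
    have hA₀L : A₀ ∈ L := by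
      have key : ∀ n : ℕ, ∀ C, (2 : ℤ_[2]) ^ n • C ∈ L → C ∈ L := by
        intro n
        induction n with
        | zero => intro C hC; rwa [pow_zero, one_smul] at hC
        | succ n ih =>
          intro C hC
          rw [pow_succ, mul_smul] at hC
          exact hsat C (ih _ hC)
      exact key n A₀ (by rw [← hA₀]; exact hA)
    have hR0 : R A₀ = full Ω :=
      (h1 _ ((hU _).2 ⟨A₀, hA₀L, rfl⟩)).resolve_left fun h => hprim ((hset.rker _).1 h)
    have hspan : L ≤ Submodule.span ℤ_[2] {A₀} := by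
      refine hset.nak ?_ hsat fun A hA => ?_
      · rw [Submodule.span_le, Set.singleton_subset_iff]
        exact hA₀L
      · rcases h1 _ ((hU _).2 ⟨A, hA, rfl⟩) with h3 | h3
        · exact ⟨0, Submodule.zero_mem _, by rw [h3, map_zero]⟩
        · exact ⟨A₀, Submodule.mem_span_singleton_self A₀, by rw [hR0, h3]⟩
    refine hLi Ω hodd h7 M κ R B hset H hinv hperm A₀ (hso _ hA₀L) hR0 fun g hg => ?_
    obtain ⟨c, hc⟩ := Submodule.mem_span_singleton.1 (hspan (hconj g hg A₀ hA₀L))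
    exact ⟨c, hc.symm⟩
  · right
    obtain ⟨D, hD, hD1⟩ := hLa Ω h7 M κ R B hset L hsat hso hbr fun X hX hX' hX'' =>
      (hU _).1 (h2 X hX hX' hX'')
    have h3 : ∀ X, IsAlt X → IsEv X → X ∈ U := by
      intro X hX hX'
      rcases (by decide : ∀ c : ZMod 2, c = 0 ∨ c = 1) (lam X) with h4 | h4
      · exact h2 X hX hX' h4
      · have h5 : X - R D ∈ U := by
          refine h2 _ (alt_sub hX (hset.alt (hso D hD)))
            (ev_sub hX' (h1 _ ((hU _).2 ⟨D, hD, rfl⟩))) ?_
          rw [lam_sub, h4, hD1, sub_self]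
        have h6 := U.add_mem h5 ((hU _).2 ⟨D, hD, rfl⟩)
        rwa [sub_add_cancel] at h6
    obtain ⟨A₀, hA₀, hR0⟩ := (hU _).1 (h3 (full Ω) (full_alt Ω) (full_ev Ω hodd))
    obtain ⟨v, hv, hLv⟩ := hSi Ω hodd (by omega) M κ R B hset L hsat hso hbr
      (fun A hA => h1 _ ((hU _).2 ⟨A, hA, rfl⟩)) A₀ hA₀ hR0
    refine ⟨v, hv, fun A => ⟨fun hA => ⟨hso A hA, hLv A hA⟩, ?_⟩⟩
    rintro ⟨hA, hAv⟩
    let S : Submodule ℤ_[2] (End ℤ_[2] M) :=
      { carrier := {A | A ∈ soS B ∧ A v = 0}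
        add_mem' := fun {a b} ha hb => ⟨add_mem ha.1 hb.1, by
          rw [LinearMap.add_apply, ha.2, hb.2, add_zero]⟩
        zero_mem' := ⟨zero_mem _, rfl⟩
        smul_mem' := fun c a ha => ⟨Submodule.smul_mem _ _ ha.1, by
          rw [LinearMap.smul_apply, ha.2, smul_zero]⟩ }
    have hS : S ≤ L := by
      refine hset.nak (fun A hA => ⟨hLso hA, hLv A hA⟩) (fun A hA => ⟨soS_sat A hA.1, ?_⟩)
        fun A hA => ?_
      · have h4 : (2 : ℤ_[2]) • A v = 0 := hA.2
        exact (smul_eq_zero.1 h4).resolve_left two_ne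
      · refine (hU _).1 (h3 _ (hset.alt (mem_soS.1 hA.1)) fun i => ?_)
        have h4 := hset.red A v
        rw [hA.2, map_zero] at h4
        have h5 := congrFun h4 i
        rw [Matrix.mulVec, dotProduct] at h5
        rw [Finset.sum_congr rfl fun j _ => (mul_one (R A i j)).symm]
        rw [Finset.sum_congr rfl fun j _ => by rw [hv j]] at h5
        exact h5.symm
    exact hS ⟨mem_soS.2 hA, hAv⟩

end Pool.Agent.Q45.ND
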