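import Pool.Agent.Q45.ND.Final
import Pool.Agent.Q45.ND.Struct
import Pool.Agent.Q149.ND.Graph
import Pool.Agent.Q149.ND.Line
import Pool.Agent.Q149.ND.Lam
import Pool.Agent.Q121.ND.Sing
import Pool.Agent.Q121.ND.Ann
import Pool.Agent.Q121.ND.Perf
import Pool.Agent.Q211.ND.DotJob

/-!
# The open image theorem, all the lemmas together
-/

set_option autoImplicit false
set_option linter.all false

open Module
open scoped Classical

namespace Pool.Agent.Q45.ND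

open Pool.Agent.Q45.OI

theorem dot_true : Dot := Pool.Agent.Q211.ND.DotJob.main

theorem ann_true : Ann := Q121.ND.Ann.main

theorem perf_true : Perf := Q121.ND.Perf.main dot_true

theorem struct_true : Struct :=
  struct_of Pool.Agent.Q149.ND.GR.main dot_true Pool.Agent.Q149.ND.main Pool.Agent.Q149.ND.LM.main
    Q121.ND.Sing.main

theorem blkN_true : BlkN := Pool.Agent.Q237.ND.BLKN.main struct_true dot_true ann_true

/-- **The open image theorem.** -/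
theorem open_image {G Ω M : Type} [Group G] [Fintype Ω] [AddCommGroup M] [Module ℤ_[2] M]
    [Module.Free ℤ_[2] M] [Module.Finite ℤ_[2] M] {ρ : G →* (End ℤ_[2] M)ˣ}
    {κ : M →+ (Ω → ZMod 2)} {act : G →* Equiv.Perm Ω} {B : M →ₗ[ℤ_[2]] M →ₗ[ℤ_[2]] ℤ_[2]}
    (h : Data1 ρ κ act B) :
    ∃ v : M, (v = 0 ∨ ∀ i, κ v i = 1) ∧
      (∀ T, (ρ T : End ℤ_[2] M) v = v ∨ (ρ T : End ℤ_[2] M) v = -v) ∧
      (∀ P : Subgroup G, Chain P → ∀ x : M, (∀ T ∈ P, (ρ T : End ℤ_[2] M) x = x) →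
        ∃ c : ℤ_[2], x = c • v) ∧
      ∀ (N : Type) [AddCommGroup N] [Module ℤ_[2] N] [Module.Free ℤ_[2] N]
        [Module.Finite ℤ_[2] N] (ν : G →* (End ℤ_[2] N)ˣ), (∃ T, act T ^ 3 = 1 ∧ act T ≠ 1 ∧
          ∀ y, ∃ z, (ν T : End ℤ_[2] N) y - y = (2 : ℤ_[2]) • z) →
        ∀ P : Subgroup G, Chain P → ∃ j : ℕ, ∀ α : M ≃ₗ[ℤ_[2]] M,
          (∀ x y, B (α x) (α y) = B x y) → α v = v →
          (∀ m, ∃ m', α m - m = (2 : ℤ_[2]) ^ j • m') →
          ∀ n, ∃ T ∈ P, (∀ m, ∃ m', (ρ T : End ℤ_[2] M) m - α m = (2 : ℤ_[2]) ^ n • m') ∧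
            ∀ y, ∃ z, (ν T : End ℤ_[2] N) y - y = (2 : ℤ_[2]) ^ n • z :=
  final blkN_true perf_true ann_true dot_true h

end Pool.Agent.Q45.ND
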