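import Pool.Agent.Q45.ND.Rank
import Pool.Agent.Q285.ND.Scale
import Pool.Agent.Q285.ND.Form
import Pool.Agent.Q285.ND.Skew

/-!
# The open image theorem for all ranks
-/

set_option autoImplicit false
set_option linter.all false

open Module
open scoped Classical

namespace Pool.Agent.Q45.ND

open Pool.Agent.Q45.OI

theorem scal_true : ScalE := Pool.Agent.Q285.ND.Scale.main

theorem form_true : FormE := Pool.Agent.Q285.ND.Form.main

theorem skew_true : SkewE := Pool.Agent.Q285.ND.Skew.main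

/-- **The open image theorem**, without the hypothesis on the rank. -/
theorem open_true {G Ω M : Type} [Group G] [Fintype Ω]
    [AddCommGroup M] [Module ℤ_[2] M]
    [Module.Free ℤ_[2] M] [Module.Finite ℤ_[2] M] {ρ : G →* (End ℤ_[2] M)ˣ}
    {κ : M →+ (Ω → ZMod 2)} {act : G →* Equiv.Perm Ω} {B : M →ₗ[ℤ_[2]] M →ₗ[ℤ_[2]] ℤ_[2]}
    (h : Data0 ρ κ act B) :
    ∃ v : M, (v = 0 ∨ ∀ i, κ v i = 1) ∧
      (∀ T, (ρ T : End ℤ_[2] M) v = v ∨ (ρ T : End ℤ_[2] M) v = -v) ∧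
      (∀ P : Subgroup G, Chain P → ∀ x : M, (∀ T ∈ P, (ρ T : End ℤ_[2] M) x = x) →
        ∃ c : ℤ_[2], x = c • v) ∧
      ∀ (N : Type) [AddCommGroup N] [Module ℤ_[2] N] [Module.Free ℤ_[2] N]
        [Module.Finite ℤ_[2] N] (ν : G →* End ℤ_[2] N), (∃ T, (∀ y, ∃ z, ν T y - y =
          (2 : ℤ_[2]) • z) ∧ act T ≠ 1) →
        ∀ P : Subgroup G, Chain P → ∃ j : ℕ, ∀ α : M ≃ₗ[ℤ_[2]] M,
          (∀ x y, B (α x) (α y) = B x y) → α v = v →
          (∀ m, ∃ m', α m - m = (2 : ℤ_[2]) ^ j • m') →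
          ∀ n, ∃ T ∈ P, (∀ m, ∃ m', (ρ T : End ℤ_[2] M) m - α m = (2 : ℤ_[2]) ^ n • m') ∧
            ∀ y, ∃ z, ν T y - y = (2 : ℤ_[2]) ^ n • z :=
  open_all scal_true form_true skew_true h

end Pool.Agent.Q45.ND
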