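import Pool.Agent.Q45.ND.Nod
import Pool.Agent.Q45.OI.P.QB

/-!
# The module of the classes for a curve with double points
-/

set_option autoImplicit false
set_option linter.all false

open Polynomial IsDedekindDomain WithZero Module
open scoped Classical nonZeroDivisors

namespace Pool.Agent.Q45.ND

open Pool.Agent.Q45.TW (IsGeom)
open Pool.Agent.Y160.SQ
open Pool.Agent.Y160.SE (IsPw)
open Pool.Agent.TH115.GD (incl rs ak Sep Comp)
open Pool.Agent.Q45.GM
open Pool.Agent.Q45.OI (rel_norm)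

section gen

variable {L : Type} [Field L] {Ev : Subgroup Lˣ} {V : Type} [AddCommGroup V] {cl : Lˣ → V}

/-- The quotient of the group `Ev` by the squares is contained in `V`, through the map `cl`. -/
structure IsI (Ev : Subgroup Lˣ) {V : Type} [AddCommGroup V] (cl : Lˣ → V) : Prop where
  le : sqS L ≤ Ev
  add : ∀ z ∈ Ev, ∀ w ∈ Ev, cl (z * w) = cl z + cl w
  zero : ∀ z ∈ Ev, cl z = 0 ↔ z ∈ sqS L

theorem IsI.congr (h : IsI Ev cl) {z w : Lˣ} (hz : z ∈ Ev) (hzw : clX z = clX w) :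
    w ∈ Ev ∧ cl z = cl w := by
  obtain ⟨y, hy⟩ := clX_eq hzw.symm
  have h1 : y ^ 2 ∈ sqS L := ⟨y, rfl⟩
  refine ⟨by rw [hy]; exact mul_mem hz (h.le h1), ?_⟩
  rw [hy, h.add _ hz _ (h.le h1), (h.zero _ (h.le h1)).2 h1, add_zero]

theorem IsI.inj (h : IsI Ev cl) {z w : Lˣ} (hz : z ∈ Ev) (hw : w ∈ Ev) (hzw : cl z = cl w) :
    clX z = clX w := by
  have h1 : cl (z * w⁻¹) = 0 := by
    have h2 : cl z = cl (z * w⁻¹) + cl w := by
      rw [← h.add _ (mul_mem hz (inv_mem hw)) _ hw, inv_mul_cancel_right]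
    rw [hzw] at h2
    have h3 : (0 : V) + cl w = cl (z * w⁻¹) + cl w := by rw [zero_add]; exact h2
    exact (add_right_cancel h3).symm
  rw [h.zero _ (mul_mem hz (inv_mem hw)), ← clX_zero] at h1
  have h4 : clX (z * w⁻¹) + clX w = clX z := by
    rw [← clX_mul, inv_mul_cancel_right]
  rw [h1, zero_add] at h4
  exact h4.symm

theorem IsI.finite [Finite V] (h : IsI Ev cl) : Finite (Pool.Agent.Q45.OI.wG Ev) := by
  choose r hr1 hr2 using fun x : Pool.Agent.Q45.OI.wG Ev => x.2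
  refine Finite.of_injective (fun x => cl (r x)) fun x y hxy => ?_
  apply Subtype.ext
  rw [← hr2 x, ← hr2 y]
  exact h.inj (hr1 x) (hr1 y) hxy

/-- The additive map to `V`. -/
theorem IsI.exists_kap (h : IsI Ev cl) {M : Type} [AddCommGroup M] (κ : M →+ XL L)
    (hκ : ∀ m, ∃ z ∈ Ev, κ m = clX z) :
    ∃ κ' : M →+ V, (∀ m, κ' m = 0 ↔ κ m = 0) ∧
      ∀ (e : L ≃+* L) (R : V → V → Prop), (∀ z ∈ Ev, R (cl z) (cl (Units.map (e : L →* L) z))) →
        ∀ m m', κ m' = opX e (κ m) → R (κ' m) (κ' m') := by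
  choose r hr1 hr2 using hκ
  refine ⟨AddMonoidHom.mk' (fun m => cl (r m)) (fun m m' => ?_), fun m => ?_,
    fun e R hg m m' hm => ?_⟩
  · rw [← h.add _ (hr1 m) _ (hr1 m')]
    refine (h.congr (hr1 _) ?_).2
    rw [← hr2, clX_mul, ← hr2, ← hr2, map_add]
  · show cl (r m) = 0 ↔ _
    rw [h.zero _ (hr1 m), hr2, clX_zero]
  · show R (cl (r m)) (cl (r m'))
    have h1 : cl (r m') = cl (Units.map (e : L →* L) (r m)) := by
      refine (h.congr (hr1 _) ?_).2
      rw [← hr2, hm, hr2]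
      rfl
    rw [h1]
    exact hg _ (hr1 m)

end gen

section mem

variable {k' K F L : Type} [Field k'] [IsAlgClosed k'] [Field K] [Field F] [Algebra k'[X] F]
  [IsFractionRing k'[X] F] [Algebra K F] {a : k'[X]} [Field L] [Algebra (RU a) L]
  [IsFractionRing (RU a) L] [Algebra F L] [Algebra K L] [IsScalarTower K F L]
  [Algebra L (Sep F)] [IsScalarTower F L (Sep F)] {f : K[X]} {α : Sep F} {θ : L}

/-- The points where the curve is singular. -/
def SgU (fB : k'[X][X]) (θ₀ : RU a) (r : k') : Prop :=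
  fB ∈ ((pt (ru a) r).asIdeal.comap (aeval (R := k'[X]) θ₀).toRingHom) ^ 2

/-- The Kummer generators. -/
theorem kM_memU (ha : 0 < a.natDegree) (hFL : ∀ b : k'[X], algebraMap F L (algebraMap k'[X] F b) =
      algebraMap (RU a) L (algebraMap k'[X] (RU a) b)) (hgd : Good 2 (-1) f)
    {fB : k'[X][X]} (hfB : fB.map (algebraMap k'[X] F) = f.map (algebraMap K F)) (hfm : fB.Monic)
    (h : Fld (f := f) α θ) (θ₀ : RU a) (hθ₀ : algebraMap (RU a) L θ₀ = θ)
    (m : SelT (F := F) 2 k'[X] f 2) :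
    ∃ z : Lˣ, EvN (a := a) (SgU fB θ₀) F z ∧ kM hgd h m = clX z := by
  haveI : Fact (0 < a.natDegree) := ⟨ha⟩
  haveI := ru_free ha
  letI iBL : Algebra k'[X] L := ((algebraMap (RU a) L).comp (algebraMap k'[X] (RU a))).toAlgebra
  haveI : IsScalarTower k'[X] (RU a) L := IsScalarTower.of_algebraMap_eq fun _ => rfl
  haveI : IsScalarTower k'[X] F L := IsScalarTower.of_algebraMap_eq fun p => (hFL p).symm
  obtain ⟨c, rfl⟩ := cls_surj (sel_isLocal 2 k'[X] f) m
  obtain ⟨z, hz, h1⟩ := kz_rel hgd h c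
  have hn := rel_norm h (lvl_coc c).mul (fun σ => (tor_two hgd).2 (lvl_two c σ)) hz
  obtain ⟨t, ht, htz⟩ := hz
  refine ⟨z, ⟨fun r hr => ?_, hn⟩, h1⟩
  rw [par_zero_iff]
  exact parP (p := 2) (m := 1) (A := k'[X]) (B := RU a) (M := L) Nat.prime_two (by norm_num) hyps
    (f1 := f) (fA := fB) hfB hgd hfm h.val h.rt (lvl_coc c)
    (fun σ => (tor_two hgd).2 (lvl_two c σ)) (c.2.loc 1) ht.ne htz (fun σ hσ => ht.act σ hσ) θ₀ hθ₀
    (pt (ru a) r) hr

end mem

end Pool.Agent.Q45.ND
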