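import Pool.Agent.Q45.ND.Line

/-!
# The field of functions of a polynomial curve over the field of functions of the line
-/

set_option autoImplicit false
set_option linter.all false

open Polynomial IsDedekindDomain WithZero
open scoped nonZeroDivisors Classical

namespace Pool.Agent.Q45.ND

open Pool.Agent.Y160.SE (IsPw)

/-- The ring `k'[u]` as an algebra over `k'[t]` through `t = a(u)`. -/
def RU {k' : Type} [Field k'] (a : k'[X]) : Type := k'[X]

section ring

variable {k' : Type} [Field k'] (a : k'[X])

noncomputable instance : CommRing (RU a) := inferInstanceAs (CommRing k'[X])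

instance : IsDomain (RU a) := inferInstanceAs (IsDomain k'[X])

instance : IsDedekindDomain (RU a) := inferInstanceAs (IsDedekindDomain k'[X])

/-- The identity. -/
noncomputable def ru : k'[X] ≃+* RU a := RingEquiv.refl k'[X]

noncomputable instance : Algebra k'[X] (RU a) := ((ru a).toRingHom.comp (compRingHom a)).toAlgebra

theorem ru_alg (p : k'[X]) : algebraMap k'[X] (RU a) p = ru a (p.comp a) := rfl

variable {a}

theorem ru_inj (ha : 0 < a.natDegree) : Function.Injective (algebraMap k'[X] (RU a)) := by
  rw [injective_iff_map_eq_zero]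
  intro p hp
  rw [ru_alg, map_eq_zero_iff _ (ru a).injective, comp_eq_zero_iff] at hp
  rcases hp with h | ⟨-, h⟩
  · exact h
  · rw [h, natDegree_C] at ha
    exact absurd ha (lt_irrefl _)

theorem ru_free (ha : 0 < a.natDegree) : Module.IsTorsionFree k'[X] (RU a) := by
  rw [Module.isTorsionFree_iff_algebraMap_injective]
  exact ru_inj ha

/-- The equation of `u` over `k'[t]`. -/
noncomputable def qU (a : k'[X]) : k'[X][X] := C (C a.leadingCoeff⁻¹) * (a.map C - C X)

theorem qU_monic (ha : 0 < a.natDegree) : (qU a).Monic ∧ (qU a).natDegree = a.natDegree := by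
  have h1 : (a.map (C : k' →+* k'[X])).natDegree = a.natDegree :=
    natDegree_map_eq_of_injective C_injective a
  have h2 : (a.map (C : k' →+* k'[X]) - C X).natDegree = a.natDegree := by
    rw [natDegree_sub_eq_left_of_natDegree_lt (by rw [natDegree_C, h1]; exact ha), h1]
  have h3 : (a.map (C : k' →+* k'[X]) - C X).leadingCoeff = C a.leadingCoeff := by
    rw [leadingCoeff_sub_of_degree_lt, leadingCoeff_map_of_injective C_injective]
    refine lt_of_le_of_lt degree_C_le ?_
    rw [degree_map_eq_of_injective C_injective]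
    exact natDegree_pos_iff_degree_pos.1 ha
  have h4 : a.leadingCoeff ≠ 0 := by
    intro h
    rw [leadingCoeff_eq_zero] at h
    rw [h, natDegree_zero] at ha
    exact absurd ha (lt_irrefl _)
  constructor
  · unfold Monic qU
    rw [leadingCoeff_mul, leadingCoeff_C, h3, ← C_mul, inv_mul_cancel₀ h4, C_1]
  · unfold qU
    rw [natDegree_C_mul (C_ne_zero.2 (inv_ne_zero h4)), h2]

theorem qU_root : aeval (ru a X) (qU a) = 0 := by
  unfold qU
  rw [map_mul, map_sub, aeval_C, aeval_C, ru_alg, ru_alg]
  have h1 : aeval (ru a X) (a.map (C : k' →+* k'[X])) = ru a a := by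
    rw [aeval_def, eval₂_map]
    have h2 : (algebraMap k'[X] (RU a)).comp C = (ru a).toRingHom.comp C := by
      refine RingHom.ext fun x => ?_
      rw [RingHom.comp_apply, ru_alg, C_comp]
      rfl
    rw [h2, eval₂_eq_eval_map, ← Polynomial.map_map]
    have h3 : (ru a X : RU a) = (ru a).toRingHom X := rfl
    rw [h3, eval_map_apply, ← eval₂_eq_eval_map, eval₂_C_X]
    rfl
  rw [h1, X_comp, sub_self, mul_zero]

instance ru_int [Fact (0 < a.natDegree)] : Algebra.IsIntegral k'[X] (RU a) := by
  have h0 : IsIntegral k'[X] (ru a X) := ⟨qU a, (qU_monic Fact.out).1, qU_root⟩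
  refine ⟨fun x => ?_⟩
  obtain ⟨p, rfl⟩ := (ru a).surjective x
  induction p using Polynomial.induction_on' with
  | add p q hp hq => rw [map_add]; exact hp.add hq
  | monomial n c =>
    rw [← C_mul_X_pow_eq_monomial, map_mul, map_pow]
    refine IsIntegral.mul ?_ (h0.pow n)
    have h1 : ru a (C c) = algebraMap k'[X] (RU a) (C c) := by rw [ru_alg, C_comp]
    rw [h1]
    exact isIntegral_algebraMap

end ring

section field

variable {k' : Type} [Field k'] {a : k'[X]} {F L : Type} [Field F] [Algebra k'[X] F]
  [IsFractionRing k'[X] F] [Field L] [Algebra (RU a) L] [IsFractionRing (RU a) L] [Algebra F L]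
  (hFL : ∀ b : k'[X], algebraMap F L (algebraMap k'[X] F b) =
    algebraMap (RU a) L (algebraMap k'[X] (RU a) b))

include hFL in
theorem u_top : IntermediateField.adjoin F {algebraMap (RU a) L (ru a X)} = ⊤ := by
  rw [eq_top_iff]
  rintro x -
  set E := IntermediateField.adjoin F {algebraMap (RU a) L (ru a X)} with hE
  have h1 : ∀ s : RU a, algebraMap (RU a) L s ∈ E := by
    intro s
    obtain ⟨p, rfl⟩ := (ru a).surjective s
    induction p using Polynomial.induction_on' with
    | add p q hp hq => rw [map_add, map_add]; exact add_mem hp hq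
    | monomial n c =>
      rw [← C_mul_X_pow_eq_monomial, map_mul, map_pow, map_mul, map_pow]
      refine mul_mem ?_ (pow_mem (IntermediateField.mem_adjoin_simple_self F _) n)
      have h1 : ru a (C c) = algebraMap k'[X] (RU a) (C c) := by rw [ru_alg, C_comp]
      rw [h1, ← hFL]
      exact E.algebraMap_mem _
  obtain ⟨b, d, -, rfl⟩ := IsFractionRing.div_surjective (A := RU a) x
  exact div_mem (h1 b) (h1 d)

include hFL in
theorem u_root : aeval (algebraMap (RU a) L (ru a X)) ((qU a).map (algebraMap k'[X] F)) = 0 := by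
  rw [aeval_def, eval₂_map]
  have h1 : (algebraMap F L).comp (algebraMap k'[X] F) =
      (algebraMap (RU a) L).comp (algebraMap k'[X] (RU a)) := RingHom.ext hFL
  rw [h1, ← hom_eval₂, ← aeval_def, qU_root, map_zero]

include hFL in
/-- The degree of the field. -/
theorem degrees (ha : 0 < a.natDegree) {P : k'[X][X]} (hPm : P.Monic)
    (hPn : P.natDegree = a.natDegree) (hPi : Irreducible (P.map (algebraMap k'[X] F))) {θ : L}
    (hθ : aeval θ (P.map (algebraMap k'[X] F)) = 0) :
    FiniteDimensional F L ∧ Module.finrank F L = a.natDegree ∧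
      IntermediateField.adjoin F {θ} = ⊤ := by
  set u := algebraMap (RU a) L (ru a X) with hu
  have hqm := qU_monic ha
  have hui : IsIntegral F u := ⟨(qU a).map (algebraMap k'[X] F), hqm.1.map _, u_root hFL⟩
  have htop := u_top (F := F) (L := L) hFL
  haveI hfd : FiniteDimensional F (IntermediateField.adjoin F {u}) :=
    IntermediateField.adjoin.finiteDimensional hui
  haveI hfin : FiniteDimensional F L := by
    rw [htop] at hfd
    exact Module.Finite.equiv (IntermediateField.topEquiv (F := F) (E := L)).toLinearEquiv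
  have h1 : Module.finrank F L ≤ a.natDegree := by
    have h2 := IntermediateField.adjoin.finrank hui
    rw [htop, IntermediateField.finrank_top'] at h2
    rw [h2, ← hqm.2, ← hqm.1.natDegree_map (algebraMap k'[X] F)]
    exact natDegree_le_of_dvd (minpoly.dvd F u (u_root hFL)) (hqm.1.map _).ne_zero
  have hθi : IsIntegral F θ := ⟨_, hPm.map _, hθ⟩
  have h3 : Module.finrank F (IntermediateField.adjoin F {θ}) = a.natDegree := by
    rw [IntermediateField.adjoin.finrank hθi, ← minpoly.eq_of_irreducible_of_monic hPi hθ (hPm.map _),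
      hPm.natDegree_map, hPn]
  have h4 : IntermediateField.adjoin F {θ} = ⊤ := by
    refine IntermediateField.eq_of_le_of_finrank_le le_top ?_
    rw [IntermediateField.finrank_top', h3]
    exact h1
  refine ⟨hfin, ?_, h4⟩
  rw [h4, IntermediateField.finrank_top'] at h3
  exact h3

include hFL in
/-- The norms of the linear polynomials. -/
theorem norm_lin (ha : 0 < a.natDegree) [FiniteDimensional F L]
    (hfr : Module.finrank F L = a.natDegree) (r : k') :
    Algebra.norm F (algebraMap (RU a) L (ru a (C r - X))) =
      algebraMap k'[X] F (C a.leadingCoeff⁻¹ * (C (a.eval r) - X)) := by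
  set u := algebraMap (RU a) L (ru a X) with hu
  have hqm := qU_monic ha
  have hui : IsIntegral F u := ⟨(qU a).map (algebraMap k'[X] F), hqm.1.map _, u_root hFL⟩
  have hmd : (minpoly F u).natDegree = a.natDegree := by
    have h2 := IntermediateField.adjoin.finrank hui
    rw [u_top hFL, IntermediateField.finrank_top'] at h2
    rw [← h2, hfr]
  have hmq : minpoly F u = (qU a).map (algebraMap k'[X] F) := by
    refine (eq_of_monic_of_dvd_of_natDegree_le (minpoly.monic hui) (hqm.1.map _)
      (minpoly.dvd F u (u_root hFL)) ?_).symm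
    rw [hqm.1.natDegree_map, hqm.2, hmd]
  set χ := (Algebra.lmul F L u).charpoly with hχ
  have hχm : χ.Monic := LinearMap.charpoly_monic _
  have hχ0 : aeval u χ = 0 := by
    have h1 := LinearMap.aeval_self_charpoly (Algebra.lmul F L u)
    rw [aeval_algHom_apply] at h1
    have h2 := LinearMap.congr_fun h1 1
    rw [Algebra.coe_lmul_eq_mul, LinearMap.mul_apply', mul_one] at h2
    exact h2
  have hχq : χ = (qU a).map (algebraMap k'[X] F) := by
    rw [← hmq]
    refine (eq_of_monic_of_dvd_of_natDegree_le (minpoly.monic hui) hχm (minpoly.dvd F u hχ0) ?_)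
    rw [hmd, hχ, LinearMap.charpoly_natDegree, hfr]
  have h1 : algebraMap (RU a) L (ru a (C r - X)) =
      algebraMap F L (algebraMap k'[X] F (C r)) - u := by
    have h2 : ru a (C r) = algebraMap k'[X] (RU a) (C r) := by rw [ru_alg, C_comp]
    rw [map_sub, map_sub, h2, ← hFL]
  have h2 : Algebra.lmul F L (algebraMap F L (algebraMap k'[X] F (C r)) - u) =
      algebraMap F (Module.End F L) (algebraMap k'[X] F (C r)) - Algebra.lmul F L u := by
    rw [map_sub, AlgHom.commutes]
  have h3 : Algebra.norm F (algebraMap F L (algebraMap k'[X] F (C r)) - u) =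
      LinearMap.det (Algebra.lmul F L (algebraMap F L (algebraMap k'[X] F (C r)) - u)) := rfl
  rw [h1, h3, h2, ← LinearMap.eval_charpoly, ← hχ, hχq, eval_map_algebraMap, aeval_def]
  unfold qU
  rw [eval₂_mul, eval₂_sub, eval₂_C, eval₂_C, eval₂_map, map_mul, map_sub]
  congr 2
  have h4 : algebraMap k'[X] F (C (a.eval r)) = ((algebraMap k'[X] F).comp C) (a.eval r) := rfl
  rw [h4, ← eval₂_at_apply]
  rfl

end field

end Pool.Agent.Q45.ND
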