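import Pool.Agent.Q45.ND.Gal

/-!
# The data of a double plane whose branch curve is a polynomial curve with double points
-/

set_option autoImplicit false
set_option linter.all false

open Polynomial IsDedekindDomain WithZero Module
open scoped Classical nonZeroDivisors

namespace Pool.Agent.Q45.ND

open Pool.Agent.Q45.TW (IsGeom)
open Pool.Agent.Y160.SQ
open Pool.Agent.Y160.SE (IsPw)
open Pool.Agent.TH115.GD (incl rs ak Sep Comp)
open Pool.Agent.Q45.GM

section data

variable {k k' K F : Type} [Field k] [Field k'] [Algebra k k'] [IsAlgClosed k']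
  [Algebra.IsSeparable k k'] [Field K] [Algebra k[X] K] [IsFractionRing k[X] K] [Field F]
  [Algebra k'[X] F] [IsFractionRing k'[X] F] [Algebra K F] {P₀ : k[X][X]} {a₀ c₀ : k[X]}

theorem up_map (hF : IsGeom k k' K F) : (up k' P₀).map (algebraMap k'[X] F) =
    (P₀.map (algebraMap k[X] K)).map (algebraMap K F) := by
  unfold up
  rw [Polynomial.map_map, Polynomial.map_map]
  congr 1
  exact RingHom.ext fun p => (hF.comp p).symm

theorem up_root (hroot : (P₀.map (compRingHom a₀)).eval c₀ = 0) :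
    aeval (R := k'[X]) (ru (a₀.map (algebraMap k k')) (c₀.map (algebraMap k k'))) (up k' P₀) = 0 := by
  have h1 : (algebraMap k'[X] (RU (a₀.map (algebraMap k k')))).comp
      (mapRingHom (algebraMap k k')) =
      (ru (a₀.map (algebraMap k k'))).toRingHom.comp ((mapRingHom (algebraMap k k')).comp
        (compRingHom a₀)) := by
    refine RingHom.ext fun p => ?_
    show ru _ ((p.map (algebraMap k k')).comp (a₀.map (algebraMap k k'))) =
      ru _ ((p.comp a₀).map (algebraMap k k'))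
    rw [Polynomial.map_comp]
  unfold up
  rw [aeval_def, eval₂_map, h1, ← RingHom.comp_assoc]
  have h2 : ru (a₀.map (algebraMap k k')) (c₀.map (algebraMap k k')) =
      ((ru (a₀.map (algebraMap k k'))).toRingHom.comp (mapRingHom (algebraMap k k'))) c₀ := rfl
  rw [h2, ← eval₂_map, eval₂_at_apply, hroot, map_zero]

/-- The data of the double plane, with a model of the field of functions of the curve. -/
theorem nod_datL {L : Type} [Field L] [Algebra (RU (a₀.map (algebraMap k k'))) L]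
    [IsFractionRing (RU (a₀.map (algebraMap k k'))) L] [Algebra F L]
    (hFL : ∀ b : k'[X], algebraMap F L (algebraMap k'[X] F b) =
      algebraMap (RU (a₀.map (algebraMap k k'))) L
        (algebraMap k'[X] (RU (a₀.map (algebraMap k k'))) b))
    [Finite (OmP k' P₀ a₀ c₀)] (hF : IsGeom k k' K F) (h2 : (2 : k) ≠ 0)
    (hm : P₀.Monic) (hodd : Odd P₀.natDegree) (hdeg : P₀.natDegree = a₀.natDegree)
    (hirr : Irreducible (up k' P₀)) (hder : derivative P₀ ≠ 0)
    (hroot : (P₀.map (compRingHom a₀)).eval c₀ = 0)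
    (hS : ∀ τ : k', (∃ r, Sg (k' := k') P₀ a₀ c₀ r ∧ (a₀.map (algebraMap k k')).eval r = τ) →
      {r | Sg (k' := k') P₀ a₀ c₀ r ∧ (a₀.map (algebraMap k k')).eval r = τ}.ncard = 2) :
    Module.Finite ℤ_[2] (SelT (F := F) 2 k'[X] (P₀.map (algebraMap k[X] K)) 2) ∧
      Module.Free ℤ_[2] (SelT (F := F) 2 k'[X] (P₀.map (algebraMap k[X] K)) 2) ∧
      (∀ τ : k' ≃ₐ[k] k', ∃ T : Sep F ≃ₐ[K] Sep F, ∀ x, T (cs k' F x) = cs k' F (τ x)) ∧
      ∃ κ : SelT (F := F) 2 k'[X] (P₀.map (algebraMap k[X] K)) 2 →+ (OmP k' P₀ a₀ c₀ → ZMod 2),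
        (∀ m, κ m = 0 ↔ ∃ m', m = (2 : ℤ_[2]) • m') ∧
        ∀ (T : Sep F ≃ₐ[K] Sep F) (τ : k' ≃ₐ[k] k'), (∀ x, T (cs k' F x) = cs k' F (τ x)) →
          ∀ m ω, κ (rho k'[X] hF (P₀.map (algebraMap k[X] K)) T m) (actO P₀ a₀ c₀ τ ω) = κ m ω := by
  set f := P₀.map (algebraMap k[X] K) with hf
  set fB := up k' P₀ with hfB'
  have hfB : fB.map (algebraMap k'[X] F) = f.map (algebraMap K F) := up_map hF
  have hfm : fB.Monic := hm.map _
  have hfBn : fB.natDegree = P₀.natDegree := hm.natDegree_map _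
  have han : (a₀.map (algebraMap k k')).natDegree = a₀.natDegree := natDegree_map _
  have ha : 0 < (a₀.map (algebraMap k k')).natDegree := by rw [han, ← hdeg]; exact hodd.pos
  haveI : Fact (0 < (a₀.map (algebraMap k k')).natDegree) := ⟨ha⟩
  haveI := ru_free ha
  letI iBL : Algebra k'[X] L := ((algebraMap (RU (a₀.map (algebraMap k k'))) L).comp (algebraMap k'[X] (RU (a₀.map (algebraMap k k'))))).toAlgebra
  haveI : IsScalarTower k'[X] (RU (a₀.map (algebraMap k k'))) L := IsScalarTower.of_algebraMap_eq fun _ => rfl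
  haveI : IsScalarTower k'[X] F L := IsScalarTower.of_algebraMap_eq fun p => (hFL p).symm
  letI iKL : Algebra K L := ((algebraMap F L).comp (algebraMap K F)).toAlgebra
  haveI : IsScalarTower K F L := IsScalarTower.of_algebraMap_eq fun _ => rfl
  set θ₀ : RU (a₀.map (algebraMap k k')) := ru (a₀.map (algebraMap k k')) (c₀.map (algebraMap k k')) with hθ₀
  set θ : L := algebraMap (RU (a₀.map (algebraMap k k'))) L θ₀ with hθ
  have hroot' : aeval θ (fB.map (algebraMap k'[X] F)) = 0 := by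
    rw [aeval_def, eval₂_map]
    have h1 : (algebraMap F L).comp (algebraMap k'[X] F) =
        (algebraMap (RU (a₀.map (algebraMap k k'))) L).comp (algebraMap k'[X] (RU (a₀.map (algebraMap k k')))) := RingHom.ext hFL
    rw [h1, hθ, ← hom_eval₂, ← aeval_def, up_root hroot, map_zero]
  have hirrF : Irreducible (fB.map (algebraMap k'[X] F)) :=
    (Polynomial.Monic.irreducible_iff_irreducible_map_fraction_map (K := F) hfm).1 hirr
  obtain ⟨hfd, hfr, htop⟩ := degrees (F := F) (L := L) hFL ha hfm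
    (by rw [hfBn, hdeg, han]) hirrF hroot'
  haveI := hfd
  have hKinj : Function.Injective (algebraMap k[X] K) := IsFractionRing.injective k[X] K
  have hKirr : Irreducible f := by
    refine Polynomial.Monic.irreducible_of_irreducible_map (algebraMap K F) f (hm.map _) ?_
    rw [← hfB]
    exact hirrF
  have hsep : f.Separable := by
    rw [separable_iff_derivative_ne_zero hKirr, hf, derivative_map]
    exact fun h => hder (map_injective _ hKinj (by rw [h, Polynomial.map_zero]))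
  have hsepF : (f.map (algebraMap K F)).Separable := hsep.map
  have h2K : (2 : K) ≠ 0 := by
    have h3 : (algebraMap K F) ((algebraMap k[X] K) (C (2 : k))) = (algebraMap K F) 2 := by
      rw [show (C (2 : k)) = (2 : k[X]) from rfl, map_ofNat]
    intro h4
    rw [h4, hF.comp, map_C, map_zero, map_ofNat] at h3
    have h5 : (C (2 : k') : k'[X]) = 0 := hF.inj (by rw [h3, map_zero])
    have h6 : (2 : k') = algebraMap k k' 2 := (map_ofNat _ _).symm
    rw [C_eq_zero, h6, _root_.map_eq_zero] at h5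
    exact h2 h5
  haveI : NeZero (2 : K) := ⟨h2K⟩
  have hne : (-1 : K) ≠ 1 := fun h3 => h2K (by linear_combination -h3)
  have hdegf : f.natDegree = P₀.natDegree := hm.natDegree_map _
  have hgd : Good 2 (-1) f := by
    refine ⟨Nat.prime_two.isPrimePow, ?_, hm.map _, hsep, ?_⟩
    · exact IsPrimitiveRoot.mk_of_lt _ (by norm_num) (by norm_num) (by
        intro l h1 h2
        have h3 : l = 1 := by omega
        rw [h3, pow_one]
        exact hne)
    · rw [hdegf]
      exact Nat.coprime_two_left.2 hodd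
  have hint : IsIntegral F θ := ⟨fB.map (algebraMap k'[X] F), hfm.map _, hroot'⟩
  have hsθ : IsSeparable F θ := by
    have h1 : (fB.map (algebraMap k'[X] F)).Separable := by
      rw [hfB]
      exact hsepF
    exact h1.of_dvd (minpoly.dvd F θ hroot')
  haveI : Algebra.IsSeparable F L := by
    have h1 := (IntermediateField.isSeparable_adjoin_simple_iff_isSeparable F L).2 hsθ
    rw [htop] at h1
    exact Algebra.IsSeparable.of_algHom F _ (IntermediateField.topEquiv (F := F) (E := L)).symm.toAlgHom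
  letI iLS : Algebra L (Sep F) := (IsSepClosed.lift : L →ₐ[F] Sep F).toRingHom.toAlgebra
  haveI : IsScalarTower F L (Sep F) := IsScalarTower.of_algebraMap_eq fun x =>
    ((IsSepClosed.lift : L →ₐ[F] Sep F).commutes x).symm
  have hfld : Fld (f := f) (algebraMap L (Sep F) θ) θ := by
    refine ⟨?_, rfl, htop, by rw [← hfB]; exact hirrF⟩
    unfold Rt
    have h1 : aeval (algebraMap L (Sep F) θ) f = aeval (algebraMap L (Sep F) θ)
        (f.map (algebraMap K F)) := (aeval_map_algebraMap _ _ _).symm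
    rw [h1, ← hfB, aeval_algebraMap_apply, hroot', map_zero]
  -- the group of the functions
  let S : k' → Prop := Sg (k' := k') P₀ a₀ c₀
  have hSg : ∀ r, SgU fB θ₀ r ↔ S r := by
    intro r
    unfold SgU
    rw [hθ₀, comap_pt]
    rfl
  let Ev : Subgroup Lˣ :=
    { carrier := {z | EvN (a := (a₀.map (algebraMap k k'))) S F z}
      mul_mem' := fun {z w} hz hw => ⟨fun r hr => by
          rw [par_mul, hz.ev r hr, hw.ev r hr, add_zero], by
          obtain ⟨y, hy⟩ := hz.nm
          obtain ⟨y', hy'⟩ := hw.nm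
          exact ⟨y * y', by rw [Units.val_mul, map_mul, hy, hy', mul_pow]⟩⟩
      one_mem' := ⟨fun r _ => par_one _ r, 1, by rw [Units.val_one, map_one, one_pow]⟩
      inv_mem' := fun {z} hz => ⟨fun r hr => by
          have h1 := par_mul (ru (a₀.map (algebraMap k k'))) (L := L) r z z⁻¹
          rw [mul_inv_cancel, par_one, hz.ev r hr, zero_add] at h1
          exact h1.symm, by
          obtain ⟨y, hy⟩ := hz.nm
          refine ⟨y⁻¹, ?_⟩
          have h1 : Algebra.norm F (z : L) * Algebra.norm F ((z⁻¹ : Lˣ) : L) = 1 := by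
            rw [← map_mul, ← Units.val_mul, mul_inv_cancel, Units.val_one, map_one]
          rw [hy] at h1
          rw [inv_pow]
          exact eq_inv_of_mul_eq_one_right h1⟩ }
  have hq : IsI Ev (clN (a := (a₀.map (algebraMap k k'))) (L := L) S) := by
    refine ⟨?_, fun z _ w _ => clN_mul z w, fun z hz => EvN.zero hFL ha hfr hS hz⟩
    rintro z ⟨y, rfl⟩
    refine ⟨fun r _ => par_sq _ r y, Algebra.norm F (y : L), ?_⟩
    rw [← map_pow]
    rfl
  have hmem : ∀ m : SelT (F := F) 2 k'[X] f 2, ∃ z ∈ Ev, kM hgd hfld m = clX z := by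
    intro m
    obtain ⟨z, hz, h1⟩ := kM_memU ha hFL hgd hfB hfm hfld θ₀ rfl m
    exact ⟨z, ⟨fun r hr => hz.ev r fun h => hr ((hSg r).1 h), hz.nm⟩, h1⟩
  haveI : Finite (Om (a₀.map (algebraMap k k')) S) := inferInstanceAs (Finite (OmP k' P₀ a₀ c₀))
  obtain ⟨h1, h1'⟩ := fin_free hgd hfld hq.finite (fun m => by
    obtain ⟨z, hz, h1⟩ := hmem m
    exact ⟨z, hz, h1.symm⟩)
  have hcs : ∀ x : k', cs k' F x = algebraMap L (Sep F) (algebraMap F L
      (algebraMap k'[X] F (C x))) := by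
    intro x
    rw [cs_apply, ← IsScalarTower.algebraMap_apply F L (Sep F)]
  -- the automorphisms
  have hKL : ∀ p : k[X], algebraMap K L (algebraMap k[X] K p) =
      algebraMap (RU (a₀.map (algebraMap k k'))) L (ru (a₀.map (algebraMap k k')) ((p.comp a₀).map (algebraMap k k'))) := by
    intro p
    show algebraMap F L (algebraMap K F (algebraMap k[X] K p)) = _
    rw [hF.comp, hFL, ru_alg, Polynomial.map_comp]
  have hE1 : ∀ (τ : k' ≃ₐ[k] k') (p : k[X]), tL (a₀ := a₀) L τ
      (algebraMap (RU (a₀.map (algebraMap k k'))) L (ru (a₀.map (algebraMap k k'))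
        (p.map (algebraMap k k')))) = algebraMap (RU (a₀.map (algebraMap k k'))) L
          (ru (a₀.map (algebraMap k k')) (p.map (algebraMap k k'))) := by
    intro τ p
    rw [tL_apply, tR_apply, map_gal]
  have hEK : ∀ (τ : k' ≃ₐ[k] k') (x : K), tL (a₀ := a₀) L τ (algebraMap K L x) = algebraMap K L x := by
    intro τ x
    obtain ⟨y, w, hw, rfl⟩ := IsFractionRing.div_surjective (A := k[X]) x
    rw [map_div₀, map_div₀, hKL, hKL, hE1, hE1]
  have hEC : ∀ (τ : k' ≃ₐ[k] k') (x : k'), tL (a₀ := a₀) L τ (algebraMap F L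
      (algebraMap k'[X] F (C x))) = algebraMap F L (algebraMap k'[X] F (C (τ x))) := by
    intro τ x
    rw [hFL, hFL, ru_alg, ru_alg, C_comp, C_comp, tL_apply, tR_apply, map_C]
    rfl
  have hEθ : ∀ τ : k' ≃ₐ[k] k', tL (a₀ := a₀) L τ θ = θ := fun τ => hE1 τ c₀
  have hEcl : ∀ (τ : k' ≃ₐ[k] k'), ∀ z ∈ Ev, ∀ ω : OmP k' P₀ a₀ c₀,
      clN (a := (a₀.map (algebraMap k k'))) (L := L) S
        (Units.map ((tL (a₀ := a₀) L τ : L ≃+* L) : L →* L) z) (actO P₀ a₀ c₀ τ ω) =
      clN (a := (a₀.map (algebraMap k k'))) (L := L) S z ω := by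
    intro τ z hz ω
    have hs1 := rr_spec (actO P₀ a₀ c₀ τ ω)
    set s : k' := τ.symm (rr (actO P₀ a₀ c₀ τ ω)) with hs
    have hs2 : τ s = rr (actO P₀ a₀ c₀ τ ω) := τ.apply_symm_apply _
    have hs3 : S s := hs1.1.gal P₀ a₀ c₀ τ.symm
    have hs4 : (a₀.map (algebraMap k k')).eval s = ω.1 := by
      have h3 := eval_gal a₀ τ.symm (rr (actO P₀ a₀ c₀ τ ω))
      rw [hs1.2, actO_val] at h3
      exact h3.trans (τ.symm_apply_apply _)
    show par _ L (rr (actO P₀ a₀ c₀ τ ω)) _ = par _ L (rr ω) z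
    rw [← hs2, par_tL]
    exact EvN.branch hFL ha hfr hS hz hs3 (rr_spec ω).1 (hs4.trans (rr_spec ω).2.symm)
  refine ⟨h1, h1', fun τ => ?_, ?_⟩
  · obtain ⟨T, hT⟩ := lift_e (F := F) (tL (a₀ := a₀) L τ) (hEK τ)
    refine ⟨T, fun x => ?_⟩
    rw [hcs, hT, hEC, ← hcs]
  · obtain ⟨κ, hk1, hk2⟩ := hq.exists_kap (kM (B := k'[X]) hgd hfld) hmem
    refine ⟨κ, fun m => by rw [hk1]; exact kM_zero_iff hgd hfld m, fun T τ hT m ω => ?_⟩
    refine hk2 (tL (a₀ := a₀) L τ) (fun u w => w (actO P₀ a₀ c₀ τ ω) = u ω)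
      (fun z hz => hEcl τ z hz ω) m _ (kM_rho k'[X] hgd hF hfld _ ⟨hEK τ, hEθ τ⟩ T (fun x => ?_) m)
    rw [hT, hEC, ← hcs]

/-- The data of the double plane. -/
theorem nod_dat [Finite (OmP k' P₀ a₀ c₀)] (hF : IsGeom k k' K F) (h2 : (2 : k) ≠ 0)
    (hm : P₀.Monic) (hodd : Odd P₀.natDegree) (hdeg : P₀.natDegree = a₀.natDegree)
    (hirr : Irreducible (up k' P₀)) (hder : derivative P₀ ≠ 0)
    (hroot : (P₀.map (compRingHom a₀)).eval c₀ = 0)
    (hS : ∀ τ : k', (∃ r, Sg (k' := k') P₀ a₀ c₀ r ∧ (a₀.map (algebraMap k k')).eval r = τ) →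
      {r | Sg (k' := k') P₀ a₀ c₀ r ∧ (a₀.map (algebraMap k k')).eval r = τ}.ncard = 2) :
    Module.Finite ℤ_[2] (SelT (F := F) 2 k'[X] (P₀.map (algebraMap k[X] K)) 2) ∧
      Module.Free ℤ_[2] (SelT (F := F) 2 k'[X] (P₀.map (algebraMap k[X] K)) 2) ∧
      (∀ τ : k' ≃ₐ[k] k', ∃ T : Sep F ≃ₐ[K] Sep F, ∀ x, T (cs k' F x) = cs k' F (τ x)) ∧
      ∃ κ : SelT (F := F) 2 k'[X] (P₀.map (algebraMap k[X] K)) 2 →+ (OmP k' P₀ a₀ c₀ → ZMod 2),
        (∀ m, κ m = 0 ↔ ∃ m', m = (2 : ℤ_[2]) • m') ∧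
        ∀ (T : Sep F ≃ₐ[K] Sep F) (τ : k' ≃ₐ[k] k'), (∀ x, T (cs k' F x) = cs k' F (τ x)) →
          ∀ m ω, κ (rho k'[X] hF (P₀.map (algebraMap k[X] K)) T m) (actO P₀ a₀ c₀ τ ω) = κ m ω := by
  have ha : 0 < (a₀.map (algebraMap k k')).natDegree := by
    rw [natDegree_map, ← hdeg]
    exact hodd.pos
  have hinj : Function.Injective ((algebraMap (RU (a₀.map (algebraMap k k')))
      (FractionRing (RU (a₀.map (algebraMap k k'))))).comp
        (algebraMap k'[X] (RU (a₀.map (algebraMap k k'))))) :=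
    (IsFractionRing.injective (RU (a₀.map (algebraMap k k'))) _).comp (ru_inj ha)
  letI iFL : Algebra F (FractionRing (RU (a₀.map (algebraMap k k')))) :=
    (IsFractionRing.lift (K := F) hinj).toAlgebra
  exact nod_datL (L := FractionRing (RU (a₀.map (algebraMap k k')))) (fun b =>
    IsFractionRing.lift_algebraMap hinj b) hF h2 hm hodd hdeg hirr hder hroot hS

end data

end Pool.Agent.Q45.ND
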