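import Pool.Agent.Q45.OI.Stm

/-!
# Statements of further lemma jobs of the project ND: the vectors of sum zero, only statements
-/

set_option autoImplicit false
set_option linter.all false

open Module

namespace Pool.Agent.Q45.ND

open Pool.Agent.Q45.OI (IsLarge skewEnd)

/-- The vectors of sum zero. -/
def EvV (Ω : Type) [Fintype Ω] : Submodule (ZMod 2) (Ω → ZMod 2) where
  carrier := {w | ∑ i, w i = 0}
  add_mem' := by
    intro v w hv hw
    show ∑ i, (v i + w i) = 0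
    rw [Finset.sum_add_distrib, show ∑ i, v i = 0 from hv, show ∑ i, w i = 0 from hw, add_zero]
  zero_mem' := Finset.sum_const_zero
  smul_mem' := by
    intro c v hv
    show ∑ i, c * v i = 0
    rw [← Finset.mul_sum, show ∑ i, v i = 0 from hv, mul_zero]

/-- SCAL. An endomorphism of the vectors of sum zero which commutes with the cycles of length three is a
scalar. -/
def ScalE : Prop :=
  ∀ (Ω : Type) [Fintype Ω] [DecidableEq Ω], Odd (Fintype.card Ω) → 7 ≤ Fintype.card Ω →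
    ∀ A : EvV Ω →ₗ[ZMod 2] EvV Ω,
      (∀ s : Equiv.Perm Ω, s.IsThreeCycle → ∀ v w : EvV Ω, (∀ i, w.1 (s i) = v.1 i) →
        ∀ i, (A w).1 (s i) = (A v).1 i) → A = 0 ∨ A = 1

/-- FORM. An invariant nondegenerate alternating form on the vectors of sum zero is the dot product. -/
def FormE : Prop :=
  ∀ (Ω : Type) [Fintype Ω] [DecidableEq Ω], Odd (Fintype.card Ω) → 7 ≤ Fintype.card Ω →
    ∀ β : EvV Ω →ₗ[ZMod 2] EvV Ω →ₗ[ZMod 2] ZMod 2, (∀ v, β v v = 0) →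
      (∀ v, (∀ w, β v w = 0) → v = 0) →
      (∀ (s : Equiv.Perm Ω) (v w v' w' : EvV Ω), (∀ i, v'.1 (s i) = v.1 i) →
        (∀ i, w'.1 (s i) = w.1 i) → β v' w' = β v w) →
      ∀ v w, β v w = ∑ i, v.1 i * w.1 i

/-- SKEW. The stable spaces of skew endomorphisms of the vectors of sum zero. -/
def SkewE : Prop :=
  ∀ (Ω : Type) [Fintype Ω] [DecidableEq Ω], Odd (Fintype.card Ω) → 7 ≤ Fintype.card Ω →
    ∀ β : EvV Ω →ₗ[ZMod 2] EvV Ω →ₗ[ZMod 2] ZMod 2, (∀ v w, β v w = ∑ i, v.1 i * w.1 i) →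
      ∀ U : Submodule (ZMod 2) (EvV Ω →ₗ[ZMod 2] EvV Ω), U ≤ skewEnd β →
        (∀ (s : Equiv.Perm Ω), ∀ A ∈ U, ∀ A' : EvV Ω →ₗ[ZMod 2] EvV Ω,
          (∀ v v' : EvV Ω, (∀ i, v'.1 (s i) = v.1 i) → ∀ i, (A' v').1 (s i) = (A v).1 i) →
            A' ∈ U) →
        (∀ A ∈ U, A = 0 ∨ A = 1) ∨
          finrank (ZMod 2) (skewEnd β) ≤ finrank (ZMod 2) U + 1

/-- SUBM. The stable subspaces of `Ω → ZMod 2`. -/
def SubE : Prop :=
  ∀ (Ω : Type) [Fintype Ω] [DecidableEq Ω], Odd (Fintype.card Ω) →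
    ∀ W : Submodule (ZMod 2) (Ω → ZMod 2), (∀ s : Equiv.Perm Ω, ∀ w ∈ W, (fun i => w (s i)) ∈ W) →
      (∀ w ∈ W, ∀ i j, w i = w j) ∨ EvV Ω ≤ W

end Pool.Agent.Q45.ND
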