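import Pool.Agent.Q45.ND.Fin
import Pool.Agent.Q45.ND.Stm2

/-!
# The vectors of sum zero
-/

set_option autoImplicit false
set_option linter.all false

open Module

namespace Pool.Agent.Q45.ND

open Pool.Agent.Q45.OI

theorem mem_EvV {Ω : Type} [Fintype Ω] {w : Ω → ZMod 2} : w ∈ EvV Ω ↔ ∑ i, w i = 0 := Iff.rfl

/-- The sum of two unit vectors. -/
def eij {Ω : Type} [DecidableEq Ω] (i j : Ω) : Ω → ZMod 2 := fun l => (if l = i then 1 else 0) + (if l = j then 1 else 0)

theorem eij_mem {Ω : Type} [Fintype Ω] [DecidableEq Ω] (i j : Ω) : eij i j ∈ EvV Ω := by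
  rw [mem_EvV]
  unfold eij
  rw [Finset.sum_add_distrib, Finset.sum_ite_eq', Finset.sum_ite_eq']
  simp only [Finset.mem_univ, if_true]
  decide

/-- The stable subspaces. -/
theorem subE : SubE := by
  intro Ω _ _ hodd W hW
  by_cases h : ∀ w ∈ W, ∀ i j, w i = w j
  · exact Or.inl h
  right
  push Not at h
  obtain ⟨w, hw, i, j, hij⟩ := h
  have h01 : ∀ x : ZMod 2, x = 0 ∨ x = 1 := by decide
  have hss : ∀ c : ZMod 2, c + c = 0 := by decide
  have hne : i ≠ j := by
    rintro rfl
    exact hij rfl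
  -- the difference with a transposition
  have h1 : eij i j ∈ W := by
    have h2 := W.add_mem hw (hW (Equiv.swap i j) w hw)
    have h3 : w + (fun l => w (Equiv.swap i j l)) = eij i j := by
      funext l
      show w l + w (Equiv.swap i j l) = _
      unfold eij
      have h4 : w i + w j = 1 := by
        rcases h01 (w i) with h5 | h5 <;> rcases h01 (w j) with h6 | h6 <;> rw [h5, h6] at hij ⊢
        · exact absurd rfl hij
        · rfl
        · rfl
        · exact absurd rfl hij
      by_cases hi : l = i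
      · subst hi
        rw [Equiv.swap_apply_left, h4, if_pos rfl, if_neg hne, add_zero]
      · by_cases hj : l = j
        · subst hj
          rw [Equiv.swap_apply_right, add_comm, h4, if_pos rfl, if_neg hi, zero_add]
        · rw [Equiv.swap_apply_of_ne_of_ne hi hj, hss, if_neg hi, if_neg hj, add_zero]
    rwa [h3] at h2
  -- all the pairs
  have h2 : ∀ k l : Ω, eij k l ∈ W := by
    intro k l
    by_cases hkl : k = l
    · have h3 : eij k l = 0 := by
        funext m
        unfold eij
        rw [hkl]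
        exact hss _
      rw [h3]
      exact W.zero_mem
    · obtain ⟨s, hs1, hs2⟩ : ∃ s : Equiv.Perm Ω, s k = i ∧ s l = j := by
        refine ⟨Equiv.swap j (Equiv.swap k i l) * Equiv.swap k i, ?_, ?_⟩
        · rw [Equiv.Perm.mul_apply, Equiv.swap_apply_left]
          refine Equiv.swap_apply_of_ne_of_ne hne fun h3 => hkl ?_
          have h4 := congrArg (Equiv.swap k i) h3
          rw [Equiv.swap_apply_right, Equiv.swap_apply_self] at h4
          exact h4
        · rw [Equiv.Perm.mul_apply, Equiv.swap_apply_right]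
      have h3 := hW s _ h1
      have h4 : (fun m => eij i j (s m)) = eij k l := by
        funext m
        unfold eij
        rw [← hs1, ← hs2]
        simp only [s.injective.eq_iff]
      rwa [h4] at h3
  -- the vectors of sum zero
  intro w hw
  rw [mem_EvV] at hw
  have h3 : w = ∑ k, w k • eij i k := by
    funext l
    rw [Finset.sum_apply]
    unfold eij
    simp only [Pi.smul_apply, smul_eq_mul, mul_add]
    rw [Finset.sum_add_distrib, ← Finset.sum_mul, hw, zero_mul, zero_add]
    simp only [mul_ite, mul_one, mul_zero]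
    rw [Finset.sum_ite_eq, if_pos (Finset.mem_univ _)]
  rw [h3]
  exact W.sum_mem fun k _ => W.smul_mem _ (h2 i k)

/-- The permutations of the vectors of sum zero. -/
def pmE (Ω : Type) [Fintype Ω] : Equiv.Perm Ω →* (EvV Ω ≃ₗ[ZMod 2] EvV Ω) where
  toFun s :=
    { toFun := fun v => ⟨fun i => v.1 (s.symm i), by
        rw [mem_EvV]
        exact (Equiv.sum_comp s.symm v.1).trans v.2⟩
      map_add' := fun v w => rfl
      map_smul' := fun c v => rfl
      invFun := fun v => ⟨fun i => v.1 (s i), by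
        rw [mem_EvV]
        exact (Equiv.sum_comp s v.1).trans v.2⟩
      left_inv := fun v => Subtype.ext (funext fun i => by
        show v.1 (s.symm (s i)) = v.1 i
        rw [Equiv.symm_apply_apply])
      right_inv := fun v => Subtype.ext (funext fun i => by
        show v.1 (s (s.symm i)) = v.1 i
        rw [Equiv.apply_symm_apply]) }
  map_one' := LinearEquiv.ext fun v => rfl
  map_mul' s t := LinearEquiv.ext fun v => rfl

theorem pmE_apply {Ω : Type} [Fintype Ω] (s : Equiv.Perm Ω) (v : EvV Ω) (i : Ω) :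
    (pmE Ω s v).1 (s i) = v.1 i := by
  show v.1 (s.symm (s i)) = v.1 i
  rw [Equiv.symm_apply_apply]

theorem pmE_eq {Ω : Type} [Fintype Ω] {s : Equiv.Perm Ω} {v w : EvV Ω}
    (h : ∀ i, w.1 (s i) = v.1 i) : pmE Ω s v = w := by
  refine Subtype.ext (funext fun i => ?_)
  have h1 := pmE_apply s v (s.symm i)
  have h2 := h (s.symm i)
  rw [Equiv.apply_symm_apply] at h1 h2
  rw [h1, h2]

theorem pmE_inj {Ω : Type} [Fintype Ω] (h7 : 3 ≤ Fintype.card Ω) {s : Equiv.Perm Ω}
    (h : pmE Ω s = 1) : s = 1 := by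
  classical
  by_contra hs
  obtain ⟨i, hi⟩ : ∃ i, s i ≠ i := by
    by_contra h1
    push Not at h1
    exact hs (Equiv.ext h1)
  obtain ⟨k, hk⟩ : ∃ k, k ∉ ({i, s i} : Finset Ω) := by
    by_contra h1
    push Not at h1
    have h2 := Finset.card_le_card (fun x _ => h1 x : (Finset.univ : Finset Ω) ⊆ {i, s i})
    have h3 := Finset.card_le_two (a := i) (b := s i)
    rw [Finset.card_univ] at h2
    omega
  simp only [Finset.mem_insert, Finset.mem_singleton, not_or] at hk
  have h1 := pmE_apply s ⟨eij i k, eij_mem i k⟩ i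
  rw [h] at h1
  have h2 : eij i k (s i) = eij i k i := h1
  unfold eij at h2
  rw [if_neg hi, if_neg (fun h3 => hk.2 h3.symm), if_pos rfl, if_neg (fun h3 => hk.1 h3.symm)] at h2
  exact absurd h2 (by decide)

/-- The group of the permutations is large. -/
theorem large_E (hSc : ScalE) (hF : FormE) (hSk : SkewE) {Ω : Type} [Fintype Ω]
    (hodd : Odd (Fintype.card Ω)) (h7 : 7 ≤ Fintype.card Ω) {Γ : Subgroup (EvV Ω ≃ₗ[ZMod 2] EvV Ω)}
    (hΓ : ∀ s, pmE Ω s ∈ Γ) : IsLarge Γ where
  irr U hU := by
    classical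
    rcases subE Ω hodd (U.map (EvV Ω).subtype) (by
      rintro s _ ⟨v, hv, rfl⟩
      exact ⟨pmE Ω s.symm v, hU _ (hΓ _) v hv, funext fun i => rfl⟩) with h1 | h1
    · left
      rw [eq_bot_iff]
      intro v hv
      rw [Submodule.mem_bot]
      have h2 := h1 v.1 ⟨v, hv, rfl⟩
      have h3 := v.2
      rw [mem_EvV] at h3
      refine Subtype.ext (funext fun i => ?_)
      rw [Finset.sum_congr rfl fun j _ => h2 j i, Finset.sum_const, Finset.card_univ, nsmul_eq_mul,
        ZMod.natCast_eq_one_iff_odd.2 hodd, one_mul] at h3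
      exact h3
    · right
      rw [eq_top_iff]
      intro v _
      obtain ⟨w, hw, h2⟩ := h1 v.2
      rwa [← (Subtype.ext h2 : w = v)]
  scal Γ' hΓ' hi A hA := by
    classical
    refine hSc Ω hodd h7 A fun s hs v w hvw i => ?_
    have hsq : pmE Ω (s⁻¹) ^ 2 ∈ Γ' := by
      have h1 : Γ'.relIndex Γ ≠ 0 := fun h0 => by
        rw [h0] at hi
        exact absurd (Nat.eq_zero_of_zero_dvd hi) (by norm_num)
      refine (Subgroup.pow_mem_of_relIndex_ne_zero_of_dvd h1 (hΓ s⁻¹) ?_).1
      intro m hm hm'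
      have h2 := Nat.le_of_dvd (by norm_num) hi
      have h3 : m = 1 ∨ m = 2 := by omega
      rcases h3 with rfl | rfl
      · exact one_dvd _
      · exact dvd_refl _
    have hs3 : s⁻¹ ^ 2 = s := by
      have h1 : s ^ 3 = 1 := by
        rw [← hs.orderOf]
        exact pow_orderOf_eq_one s
      have h2 : s⁻¹ ^ 2 = s⁻¹ ^ 2 * s ^ 3 := by rw [h1, mul_one]
      rw [h2]
      group
    rw [← map_pow, hs3] at hsq
    have h1 := hA _ hsq v
    rw [pmE_eq hvw] at h1
    rw [h1]
    exact pmE_apply s (A v) i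
  skew β halt hnd hinv U hU hst := by
    classical
    refine hSk Ω hodd h7 β (hF Ω hodd h7 β halt hnd ?_) U hU ?_
    · intro s v w v' w' hv hw
      rw [← pmE_eq hv, ← pmE_eq hw]
      exact hinv _ (hΓ s) v w
    · intro s A hA A' hA'
      refine hst _ (hΓ s) A hA A' fun v => ?_
      exact (pmE_eq (hA' v (pmE Ω s v) fun i => pmE_apply s v i)).symm

theorem card_EvV {Ω : Type} [Fintype Ω] (h7 : 7 ≤ Fintype.card Ω) : 8 ≤ Nat.card (EvV Ω) := by
  have h1 : EvV Ω = LinearMap.ker (∑ i : Ω, LinearMap.proj (R := ZMod 2) (φ := fun _ => ZMod 2) i) := by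
    ext w
    rw [mem_EvV, LinearMap.mem_ker, LinearMap.sum_apply]
    rfl
  have h2 := LinearMap.finrank_range_add_finrank_ker
    (∑ i : Ω, LinearMap.proj (R := ZMod 2) (φ := fun _ => ZMod 2) i)
  rw [← h1, finrank_fintype_fun_eq_card] at h2
  have h3 := Submodule.finrank_le (LinearMap.range
    (∑ i : Ω, LinearMap.proj (R := ZMod 2) (φ := fun _ => ZMod 2) i))
  rw [finrank_self] at h3
  rw [Module.natCard_eq_pow_finrank (K := ZMod 2) (V := EvV Ω), Nat.card_zmod]
  calc 8 = 2 ^ 3 := by norm_num
    _ ≤ 2 ^ finrank (ZMod 2) (EvV Ω) := Nat.pow_le_pow_right (by norm_num) (by omega)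

end Pool.Agent.Q45.ND
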