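import Pool.Agent.Q45.ND.All

/-!
# The rank, and elements of order three
-/

set_option autoImplicit false
set_option linter.all false

open Module
open scoped Classical

namespace Pool.Agent.Q45.ND

open Pool.Agent.Q45.OI

section rank

variable {Ω M : Type} [Fintype Ω] [AddCommGroup M] [Module ℤ_[2] M] [Module.Free ℤ_[2] M]
  [Module.Finite ℤ_[2] M] (κ : M →+ (Ω → ZMod 2))
  (hker : ∀ m, κ m = 0 ↔ ∃ m', m = (2 : ℤ_[2]) • m')

include hker in
omit [Fintype Ω] [Module.Free ℤ_[2] M] [Module.Finite ℤ_[2] M] in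
/-- The reduction is linear. -/
theorem kap_smul (a : ℤ_[2]) (m : M) : κ (a • m) = (PadicInt.toZMod a) • κ m := by
  have h01 : ∀ x : ZMod 2, x = 0 ∨ x = 1 := by decide
  have key : ∀ a : ℤ_[2], PadicInt.toZMod a = 0 → κ (a • m) = 0 := by
    intro a h1
    obtain ⟨b, rfl⟩ := (tz_zero_iff a).1 h1
    exact (hker _).2 ⟨b • m, by rw [mul_smul]⟩
  rcases h01 (PadicInt.toZMod a) with h1 | h1
  · rw [h1, zero_smul, key a h1]
  · have h2 := key (a - 1) (by rw [map_sub, map_one, h1, sub_self])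
    rw [sub_smul, one_smul, map_sub, sub_eq_zero] at h2
    rw [h2, h1, one_smul]

include hker in
omit [Fintype Ω] in
theorem kap_indep : LinearIndependent (ZMod 2)
    (fun i : Fin (finrank ℤ_[2] M) => κ (finBasis ℤ_[2] M i)) := by
  rw [Fintype.linearIndependent_iff]
  intro g hg i
  obtain ⟨g', hg'⟩ : ∃ g' : Fin (finrank ℤ_[2] M) → ℤ_[2], ∀ i, PadicInt.toZMod (g' i) = g i := by
    choose g' hg' using fun i => ZMod.ringHom_surjective (PadicInt.toZMod (p := 2)) (g i)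
    exact ⟨g', hg'⟩
  have h1 : κ (∑ i, g' i • finBasis ℤ_[2] M i) = 0 := by
    rw [map_sum, ← hg]
    exact Finset.sum_congr rfl fun i _ => by rw [kap_smul κ hker, hg']
  obtain ⟨m', hm'⟩ := (hker _).1 h1
  have h2 := congrArg (fun m => (finBasis ℤ_[2] M).repr m i) hm'
  simp only [Basis.repr_sum_self, map_smul, Finsupp.smul_apply, smul_eq_mul] at h2
  rw [← hg', h2, tz_two]

include hker in
theorem rank_le : finrank ℤ_[2] M ≤ Fintype.card Ω := by
  have h1 := (kap_indep κ hker).fintype_card_le_finrank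
  rwa [Fintype.card_fin, finrank_fintype_fun_eq_card] at h1

include hker in
theorem surj_of_rank (h : finrank ℤ_[2] M = Fintype.card Ω) : Function.Surjective κ := by
  intro w
  have h1 := (kap_indep κ hker).span_eq_top_of_card_eq_finrank' (by
    rw [Fintype.card_fin, finrank_fintype_fun_eq_card, h])
  have h2 : w ∈ Submodule.span (ZMod 2)
      (Set.range fun i : Fin (finrank ℤ_[2] M) => κ (finBasis ℤ_[2] M i)) := by
    rw [h1]
    trivial
  refine Submodule.span_induction (p := fun w _ => ∃ m, κ m = w) ?_ ⟨0, map_zero κ⟩ ?_ ?_ h2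
  · rintro _ ⟨i, rfl⟩
    exact ⟨_, rfl⟩
  · rintro _ _ _ _ ⟨m, rfl⟩ ⟨m', rfl⟩
    exact ⟨m + m', map_add κ _ _⟩
  · rintro c _ _ ⟨m, rfl⟩
    obtain ⟨c', rfl⟩ := ZMod.ringHom_surjective (PadicInt.toZMod (p := 2)) c
    exact ⟨c' • m, kap_smul κ hker _ _⟩

end rank

section three

variable {Ω : Type} [Fintype Ω]

/-- A normal subgroup different from one of the group of the permutations of an odd set contains an element
of order three. -/
theorem exists_three_of_normal (hodd : Odd (Fintype.card Ω)) {g : Equiv.Perm Ω} (hg : g ≠ 1) :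
    ∃ s : Equiv.Perm Ω, (g * s * g⁻¹ * s⁻¹) ^ 3 = 1 ∧ g * s * g⁻¹ * s⁻¹ ≠ 1 := by
  have hcomm : ∀ x y : Ω, g * Equiv.swap x y * g⁻¹ * (Equiv.swap x y)⁻¹ =
      Equiv.swap (g x) (g y) * Equiv.swap x y := by
    intro x y
    rw [Equiv.swap_inv, Equiv.swap_apply_apply]
  have hthree : ∀ u v w : Ω, u ≠ v → u ≠ w → v ≠ w →
      (Equiv.swap u v * Equiv.swap u w) ^ 3 = 1 ∧ Equiv.swap u v * Equiv.swap u w ≠ 1 := by
    intro u v w h1 h2 h3
    have h4 := (Equiv.Perm.isThreeCycle_swap_mul_swap_same h1 h2 h3).orderOf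
    constructor
    · rw [← h4]
      exact pow_orderOf_eq_one _
    · intro h5
      rw [h5, orderOf_one] at h4
      exact absurd h4 (by norm_num)
  by_cases h2 : g * g = 1
  · -- an involution has a fixed point
    haveI : Fact (Nat.Prime 2) := ⟨Nat.prime_two⟩
    obtain ⟨y, hy⟩ := Equiv.Perm.exists_fixed_point_of_prime (p := 2) (n := 1) (σ := g)
      (by rw [← even_iff_two_dvd, Nat.not_even_iff_odd]; exact hodd) (by rw [pow_one, pow_two]; exact h2)
    obtain ⟨x, hx⟩ : ∃ x, g x ≠ x := by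
      by_contra h
      push Not at h
      exact hg (Equiv.ext h)
    refine ⟨Equiv.swap x y, ?_⟩
    rw [hcomm, hy, Equiv.swap_comm (g x) y, Equiv.swap_comm x y]
    have hxy : y ≠ x := by
      rintro rfl
      exact hx hy
    refine hthree y (g x) x (fun h => ?_) hxy hx
    have h3 : g (g x) = x := Equiv.Perm.ext_iff.1 h2 x
    rw [← h, hy] at h3
    exact hxy h3
  · obtain ⟨x, hx⟩ : ∃ x, g (g x) ≠ x := by
      by_contra h
      push Not at h
      exact h2 (Equiv.ext h)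
    have hx1 : g x ≠ x := fun h => hx (by rw [h, h])
    refine ⟨Equiv.swap x (g x), ?_⟩
    rw [hcomm, Equiv.swap_comm x (g x)]
    exact hthree (g x) (g (g x)) x (fun h => hx1 (g.injective h).symm) hx1 hx

/-- The same for a group which acts through all the permutations. -/
theorem exists_three_of_act {G : Type} [Group G] {act : G →* Equiv.Perm Ω}
    (hodd : Odd (Fintype.card Ω)) (hact : Function.Surjective act) (S : Subgroup G) [S.Normal]
    {T : G} (hT : T ∈ S) (h1 : act T ≠ 1) : ∃ U ∈ S, act U ^ 3 = 1 ∧ act U ≠ 1 := by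
  obtain ⟨s, hs1, hs2⟩ := exists_three_of_normal hodd h1
  obtain ⟨R, rfl⟩ := hact s
  refine ⟨T * R * T⁻¹ * R⁻¹, ?_, ?_, ?_⟩
  · have h2 := ‹S.Normal›.conj_mem T⁻¹ (inv_mem hT) R
    have h3 : T * R * T⁻¹ * R⁻¹ = T * (R * T⁻¹ * R⁻¹) := by group
    rw [h3]
    exact mul_mem hT h2
  · rw [map_mul, map_mul, map_mul, map_inv, map_inv]
    exact hs1
  · rw [map_mul, map_mul, map_mul, map_inv, map_inv]
    exact hs2

end three

/-- The open image theorem, with an element of the kernel on `N / 2` which moves something. -/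
theorem open_image' {G Ω M : Type} [Group G] [Fintype Ω] [AddCommGroup M] [Module ℤ_[2] M]
    [Module.Free ℤ_[2] M] [Module.Finite ℤ_[2] M] {ρ : G →* (End ℤ_[2] M)ˣ}
    {κ : M →+ (Ω → ZMod 2)} {act : G →* Equiv.Perm Ω} {B : M →ₗ[ℤ_[2]] M →ₗ[ℤ_[2]] ℤ_[2]}
    (h : Data1 ρ κ act B) :
    ∃ v : M, (v = 0 ∨ ∀ i, κ v i = 1) ∧
      (∀ T, (ρ T : End ℤ_[2] M) v = v ∨ (ρ T : End ℤ_[2] M) v = -v) ∧
      (∀ P : Subgroup G, Chain P → ∀ x : M, (∀ T ∈ P, (ρ T : End ℤ_[2] M) x = x) →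
        ∃ c : ℤ_[2], x = c • v) ∧
      ∀ (N : Type) [AddCommGroup N] [Module ℤ_[2] N] [Module.Free ℤ_[2] N]
        [Module.Finite ℤ_[2] N] (ν : G →* End ℤ_[2] N), (∃ T, (∀ y, ∃ z, ν T y - y =
          (2 : ℤ_[2]) • z) ∧ act T ≠ 1) →
        ∀ P : Subgroup G, Chain P → ∃ j : ℕ, ∀ α : M ≃ₗ[ℤ_[2]] M,
          (∀ x y, B (α x) (α y) = B x y) → α v = v →
          (∀ m, ∃ m', α m - m = (2 : ℤ_[2]) ^ j • m') →
          ∀ n, ∃ T ∈ P, (∀ m, ∃ m', (ρ T : End ℤ_[2] M) m - α m = (2 : ℤ_[2]) ^ n • m') ∧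
            ∀ y, ∃ z, ν T y - y = (2 : ℤ_[2]) ^ n • z := by
  obtain ⟨v, h1, h2, h3, h4⟩ := open_image h
  refine ⟨v, h1, h2, h3, fun N _ _ _ _ ν hN => h4 N ν.toHomUnits ?_⟩
  obtain ⟨T, hT1, hT2⟩ := hN
  let S : Subgroup G :=
    { carrier := {T | ∀ y, ∃ z, ν T y - y = (2 : ℤ_[2]) • z}
      mul_mem' := by
        intro A A' hA hA' y
        obtain ⟨z, hz⟩ := hA' y
        obtain ⟨w, hw⟩ := hA (ν A' y)
        refine ⟨w + z, ?_⟩
        rw [smul_add, ← hw, ← hz, map_mul, Module.End.mul_apply]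
        abel
      one_mem' := fun y => ⟨0, by rw [map_one, smul_zero]; exact sub_self y⟩
      inv_mem' := by
        intro A hA y
        obtain ⟨z, hz⟩ := hA (ν A⁻¹ y)
        refine ⟨-z, ?_⟩
        have h5 : ν A (ν A⁻¹ y) = y := by
          rw [← Module.End.mul_apply, ← map_mul, mul_inv_cancel, map_one]
          rfl
        rw [h5] at hz
        rw [smul_neg, ← hz]
        abel }
  haveI : S.Normal := ⟨by
    intro A hA R y
    obtain ⟨z, hz⟩ := hA (ν R⁻¹ y)
    refine ⟨ν R z, ?_⟩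
    have h5 : ν R (ν R⁻¹ y) = y := by
      rw [← Module.End.mul_apply, ← map_mul, mul_inv_cancel, map_one]
      rfl
    rw [← map_smul, ← hz, map_sub, h5, map_mul, map_mul, Module.End.mul_apply,
      Module.End.mul_apply]⟩
  obtain ⟨U, hU1, hU2, hU3⟩ := exists_three_of_act h.odd h.perm S hT1 hT2
  exact ⟨U, hU2, hU3, hU1⟩

end Pool.Agent.Q45.ND
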