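import Pool.Agent.Q237.ND.JOINT
import Pool.Agent.Q237.ND.BLKN

/-!
# The open image theorem with a vector which does not depend on the second module
-/

set_option autoImplicit false
set_option linter.all false

open Module
open scoped Classical

namespace Pool.Agent.Q45.ND

open Pool.Agent.Q45.OI Pool.Agent.Q45.OI.KLA
open Pool.Agent.Q237.ND.JOINT (lie_chain stabv lie_stabv)

/-- The data, without the second module. -/
structure Data1 {G Ω M : Type} [Group G] [Fintype Ω] [AddCommGroup M] [Module ℤ_[2] M]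
    (ρ : G →* (End ℤ_[2] M)ˣ) (κ : M →+ (Ω → ZMod 2)) (act : G →* Equiv.Perm Ω)
    (B : M →ₗ[ℤ_[2]] M →ₗ[ℤ_[2]] ℤ_[2]) : Prop where
  odd : Odd (Fintype.card Ω)
  card : 7 ≤ Fintype.card Ω
  surj : Function.Surjective κ
  ker : ∀ m, κ m = 0 ↔ ∃ m', m = (2 : ℤ_[2]) • m'
  eqv : ∀ T m i, κ ((ρ T : End ℤ_[2] M) m) (act T i) = κ m i
  perm : Function.Surjective act
  symm : ∀ x y, B x y = B y x
  perfect : ∀ x, (∀ y, PadicInt.toZMod (B x y) = 0) → κ x = 0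
  inv : ∀ T x y, B ((ρ T : End ℤ_[2] M) x) ((ρ T : End ℤ_[2] M) y) = B x y
  inf : ∃ T, Cg 2 (ρ T : End ℤ_[2] M) 1 ∧ ρ T ≠ 1

section main

variable {G Ω M : Type} [Group G] [Fintype Ω] [AddCommGroup M] [Module ℤ_[2] M]
  [Module.Free ℤ_[2] M] [Module.Finite ℤ_[2] M] {ρ : G →* (End ℤ_[2] M)ˣ}
  {κ : M →+ (Ω → ZMod 2)} {act : G →* Equiv.Perm Ω} {B : M →ₗ[ℤ_[2]] M →ₗ[ℤ_[2]] ℤ_[2]}

omit [Module.Free ℤ_[2] M] [Module.Finite ℤ_[2] M] in
theorem Data1.data (h : Data1 ρ κ act B) {N : Type} [AddCommGroup N] [Module ℤ_[2] N]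
    {ν : G →* (End ℤ_[2] N)ˣ} (hi : ∃ T, act T ^ 3 = 1 ∧ act T ≠ 1 ∧
      ∀ y, ∃ z, (ν T : End ℤ_[2] N) y - y = (2 : ℤ_[2]) • z) : Data ρ ν κ act B :=
  ⟨h.odd, h.card, h.surj, h.ker, h.eqv, h.perm, hi, h.symm, h.perfect, h.inv, h.inf⟩

omit [Module.Free ℤ_[2] M] [Module.Finite ℤ_[2] M] in
/-- An element which acts with order three. -/
theorem Data1.three (h : Data1 ρ κ act B) : ∃ T, act T ^ 3 = 1 ∧ act T ≠ 1 := by
  have h7 := h.card
  obtain ⟨a, b, c, hab, hac, hbc⟩ := Fintype.two_lt_card_iff.1 (by omega : 2 < Fintype.card Ω)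
  have h3 := Equiv.Perm.isThreeCycle_swap_mul_swap_same hab hac hbc
  obtain ⟨T, hT⟩ := h.perm (Equiv.swap a b * Equiv.swap a c)
  have h4 := h3.orderOf
  refine ⟨T, ?_, ?_⟩
  · rw [hT, ← h4]
    exact pow_orderOf_eq_one _
  · rw [hT]
    intro h5
    rw [h5, orderOf_one] at h4
    exact absurd h4 (by norm_num)

theorem Data1.dot (hD : Dot) (h : Data1 ρ κ act B) :
    ∀ x y, PadicInt.toZMod (B x y) = ∑ i, κ x i * κ y i := by
  have h7 := h.card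
  refine hD Ω h.odd (by omega) M κ h.surj h.ker ρ.range B h.symm h.perfect ?_ ?_
  · rintro _ ⟨T, rfl⟩ x y
    exact h.inv T x y
  · intro s
    obtain ⟨T, rfl⟩ := h.perm s
    exact ⟨ρ T, ⟨T, rfl⟩, h.eqv T⟩

/-- The theorem, with a given vector. -/
theorem joint_of {N : Type} [AddCommGroup N] [Module ℤ_[2] N]
    [Module.Free ℤ_[2] N] [Module.Finite ℤ_[2] N] {ν : G →* (End ℤ_[2] N)ˣ} (hPf : Perf)
    (h : Data ρ ν κ act B) {v : M} (hv : v = 0 ∨ ∀ i, κ v i = 1)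
    (hρv : ∀ T, (ρ T : End ℤ_[2] M) v = v ∨ (ρ T : End ℤ_[2] M) v = -v)
    (htop : ∀ a, InSo B a → a v = 0 → InLie (pr ρ ν).range (a.prodMap (0 : End ℤ_[2] N)))
    {P : Subgroup G} (hP : Chain P) : ∃ j : ℕ, ∀ α : M ≃ₗ[ℤ_[2]] M,
        (∀ x y, B (α x) (α y) = B x y) → α v = v →
        (∀ m, ∃ m', α m - m = (2 : ℤ_[2]) ^ j • m') →
        ∀ n, ∃ T ∈ P, (∀ m, ∃ m', (ρ T : End ℤ_[2] M) m - α m = (2 : ℤ_[2]) ^ n • m') ∧
          ∀ y, ∃ z, (ν T : End ℤ_[2] N) y - y = (2 : ℤ_[2]) ^ n • z := by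
  -- the subgroup which fixes `v`
  let P' : Subgroup G :=
    { carrier := {T | T ∈ P ∧ (ρ T : End ℤ_[2] M) v = v}
      mul_mem' := by
        rintro S T ⟨hS, hSv⟩ ⟨hT, hTv⟩
        refine ⟨mul_mem hS hT, ?_⟩
        rw [map_mul, Units.val_mul, End.mul_apply, hTv, hSv]
      one_mem' := ⟨one_mem _, by rw [map_one]; rfl⟩
      inv_mem' := by
        rintro T ⟨hT, hTv⟩
        refine ⟨inv_mem hT, ?_⟩
        rw [map_inv]
        conv_lhs => rw [← hTv]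
        rw [← End.mul_apply, Units.inv_mul]
        rfl }
  have hP' : Chain P' := by
    refine Chain.pow (P := P) 2 (by norm_num) (fun T hT => ⟨pow_mem hT 2, ?_⟩) hP
    rw [map_pow, pow_two, Units.val_mul, End.mul_apply]
    rcases hρv T with h1 | h1
    · rw [h1, h1]
    · rw [h1, map_neg, h1, neg_neg]
  obtain ⟨j, hj⟩ := indep ρ ν P' (stabv B v) (fun T hT => ⟨fun x y => h.inv T x y, hT.2⟩)
    (fun a ha => lie_chain hPf h hv hρv htop hP' a (lie_stabv ha).1 (lie_stabv ha).2)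
  refine ⟨j, fun α hα hαv hα1 n => ?_⟩
  let u : (End ℤ_[2] M)ˣ := (LinearMap.GeneralLinearGroup.generalLinearEquiv ℤ_[2] _).symm α
  have hu : ∀ m, (u : End ℤ_[2] M) m = α m := fun m => rfl
  obtain ⟨T, hT, h5, h6⟩ := hj u ⟨fun x y => by rw [hu, hu]; exact hα x y, by
    rw [hu]; exact hαv⟩ ((cg_iff _ _ _).2 fun x => hα1 x) n
  refine ⟨T, hT.1, fun m => ?_, (cg_iff _ _ _).1 h6⟩
  exact (cg_iff _ _ _).1 h5 m

/-- The fixed vectors. -/
theorem fixed_of {N : Type} [AddCommGroup N] [Module ℤ_[2] N]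
    [Module.Free ℤ_[2] N] [Module.Finite ℤ_[2] N] {ν : G →* (End ℤ_[2] N)ˣ} (hPf : Perf)
    (hA : Ann) (hD : Dot)
    (h : Data ρ ν κ act B) {v : M} (hv : v = 0 ∨ ∀ i, κ v i = 1)
    (hρv : ∀ T, (ρ T : End ℤ_[2] M) v = v ∨ (ρ T : End ℤ_[2] M) v = -v)
    (htop : ∀ a, InSo B a → a v = 0 → InLie (pr ρ ν).range (a.prodMap (0 : End ℤ_[2] N)))
    {P : Subgroup G} (hP : Chain P) (x : M) (hx : ∀ T ∈ P, (ρ T : End ℤ_[2] M) x = x) :
    ∃ c : ℤ_[2], x = c • v := by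
  have h1 : ∀ a, InSo B a → a v = 0 → a x = 0 := by
    intro a ha hav
    have h2 := lie_chain hPf h hv hρv htop hP a ha hav
    refine zero_of_div fun n => ?_
    obtain ⟨i, hi, _, ⟨T, hT, rfl⟩, C, hC⟩ := h2 n
    have h3 := congrArg Prod.fst (LinearMap.congr_fun hC (x, 0))
    rw [pr_apply] at h3
    have h4 : x = x + (2 : ℤ_[2]) ^ i • a x + (2 : ℤ_[2]) ^ (i + n) • (C (x, 0)).1 := by
      rw [← hx T hT]
      conv_rhs => rw [hx T hT]
      exact h3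
    refine ⟨-(C (x, 0)).1, ?_⟩
    apply smul_cancel (n := i)
    rw [smul_neg, smul_neg, smul_smul, ← pow_add]
    have h5 : x + ((2 : ℤ_[2]) ^ i • a x + (2 : ℤ_[2]) ^ (i + n) • (C (x, 0)).1) = x + 0 := by
      rw [← add_assoc, ← h4, add_zero]
    exact eq_neg_of_add_eq_zero_left (add_left_cancel h5)
  have hD1 : Data1 ρ κ act B := ⟨h.odd, h.card, h.surj, h.ker, h.eqv, h.perm, h.symm, h.perfect,
    h.inv, h.inf⟩
  obtain ⟨hA0, hA1⟩ := hA Ω h.odd h.card M κ h.surj h.ker B h.symm (hD1.dot hD)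
  rcases hv with rfl | hv
  · exact ⟨0, by rw [smul_zero]; exact hA0 x fun a ha => h1 a ha (map_zero a)⟩
  · exact hA1 v hv x h1

/-- **The open image theorem.** -/
theorem final (hB : BlkN) (hPf : Perf) (hA : Ann) (hD : Dot) (h : Data1 ρ κ act B) :
    ∃ v : M, (v = 0 ∨ ∀ i, κ v i = 1) ∧
      (∀ T, (ρ T : End ℤ_[2] M) v = v ∨ (ρ T : End ℤ_[2] M) v = -v) ∧
      (∀ P : Subgroup G, Chain P → ∀ x : M, (∀ T ∈ P, (ρ T : End ℤ_[2] M) x = x) →
        ∃ c : ℤ_[2], x = c • v) ∧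
      ∀ (N : Type) [AddCommGroup N] [Module ℤ_[2] N] [Module.Free ℤ_[2] N]
        [Module.Finite ℤ_[2] N] (ν : G →* (End ℤ_[2] N)ˣ), (∃ T, act T ^ 3 = 1 ∧ act T ≠ 1 ∧
          ∀ y, ∃ z, (ν T : End ℤ_[2] N) y - y = (2 : ℤ_[2]) • z) →
        ∀ P : Subgroup G, Chain P → ∃ j : ℕ, ∀ α : M ≃ₗ[ℤ_[2]] M,
          (∀ x y, B (α x) (α y) = B x y) → α v = v →
          (∀ m, ∃ m', α m - m = (2 : ℤ_[2]) ^ j • m') →
          ∀ n, ∃ T ∈ P, (∀ m, ∃ m', (ρ T : End ℤ_[2] M) m - α m = (2 : ℤ_[2]) ^ n • m') ∧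
            ∀ y, ∃ z, (ν T : End ℤ_[2] N) y - y = (2 : ℤ_[2]) ^ n • z := by
  obtain ⟨T₀, hT₀, hT₀'⟩ := h.three
  have h0 : Data ρ (1 : G →* (End ℤ_[2] (Fin 0 → ℤ_[2]))ˣ) κ act B :=
    h.data ⟨T₀, hT₀, hT₀', fun y => ⟨0, Subsingleton.elim _ _⟩⟩
  obtain ⟨v, hv, hρv, htop⟩ := hB G Ω M _ ρ 1 κ act B h0
  have hfix : ∀ P : Subgroup G, Chain P → ∀ x : M, (∀ T ∈ P, (ρ T : End ℤ_[2] M) x = x) →
      ∃ c : ℤ_[2], x = c • v := fun P hP x hx => fixed_of hPf hA hD h0 hv hρv htop hP x hx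
  refine ⟨v, hv, hρv, hfix, fun N _ _ _ _ ν hN P hP => ?_⟩
  have hN' := h.data hN
  obtain ⟨w, hw, hρw, htopw⟩ := hB G Ω M N ρ ν κ act B hN'
  -- the vector `w` is a multiple of `v`
  let Pw : Subgroup G :=
    { carrier := {T | (ρ T : End ℤ_[2] M) w = w}
      mul_mem' := by
        intro S T hS hT
        show (ρ (S * T) : End ℤ_[2] M) w = w
        rw [map_mul, Units.val_mul, End.mul_apply, hT, hS]
      one_mem' := by
        show (ρ 1 : End ℤ_[2] M) w = w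
        rw [map_one]
        rfl
      inv_mem' := by
        intro T hT
        have hT' : (ρ T : End ℤ_[2] M) w = w := hT
        show (ρ T⁻¹ : End ℤ_[2] M) w = w
        rw [map_inv]
        conv_lhs => rw [← hT']
        rw [← End.mul_apply, Units.inv_mul]
        rfl }
  have hPw : Chain Pw := by
    refine Chain.pow (P := ⊤) 2 (by norm_num) (fun T _ => ?_) Chain.top
    show (ρ (T ^ 2) : End ℤ_[2] M) w = w
    rw [map_pow, pow_two, Units.val_mul, End.mul_apply]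
    rcases hρw T with h1 | h1
    · rw [h1, h1]
    · rw [h1, map_neg, h1, neg_neg]
  obtain ⟨c, hc⟩ := hfix Pw hPw w fun T hT => hT
  exact joint_of hPf hN' hv hρv (fun a ha hav => htopw a ha (by rw [hc, map_smul, hav, smul_zero])) hP

end main

end Pool.Agent.Q45.ND
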