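import Pool.Agent.Q45.ND.Core

/-!
# The Galois action on the functions on a curve with double points
-/

set_option autoImplicit false
set_option linter.all false

open Polynomial IsDedekindDomain WithZero Module
open scoped Classical nonZeroDivisors

namespace Pool.Agent.Q45.ND

open Pool.Agent.Y160.SE (IsPw)
open Pool.Agent.Q45.GM (sqS)

section pts

variable {k' : Type} [Field k'] {a c : k'[X]}

/-- The ideal of a point of the curve in the ring of polynomials in two variables. -/
theorem comap_pt (r : k') : ((pt (ru a) r).asIdeal.comap (aeval (R := k'[X]) (ru a c)).toRingHom) =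
    RingHom.ker (evalEvalRingHom (a.eval r) (c.eval r)) := by
  have h1 : (evalRingHom r).comp ((ru a).symm.toRingHom.comp
      (aeval (R := k'[X]) (ru a c)).toRingHom) = evalEvalRingHom (a.eval r) (c.eval r) := by
    refine Polynomial.ringHom_ext (fun p => ?_) ?_
    · show ((ru a).symm (aeval (ru a c) (C p))).eval r = evalEval _ _ (C p)
      rw [aeval_C, ru_alg, RingEquiv.symm_apply_apply, evalEval_C, eval_comp]
    · show ((ru a).symm (aeval (ru a c) X)).eval r = evalEval _ _ X
      rw [aeval_X, RingEquiv.symm_apply_apply, evalEval_X]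
  ext g
  rw [Ideal.mem_comap, RingHom.mem_ker, ← h1]
  exact mem_pt' (ru a) r _

end pts

section act

variable {k k' : Type} [Field k] [Field k'] [Algebra k k'] (P₀ : k[X][X]) (a₀ c₀ : k[X])

/-- The polynomial over `k'`. -/
noncomputable def up (k' : Type) [Field k'] [Algebra k k'] (P₀ : k[X][X]) : k'[X][X] :=
  P₀.map (mapRingHom (algebraMap k k'))

/-- The curve is singular at the point `u = r`. -/
def Sg (r : k') : Prop :=
  up k' P₀ ∈ (RingHom.ker (evalEvalRingHom ((a₀.map (algebraMap k k')).eval r)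
    ((c₀.map (algebraMap k k')).eval r))) ^ 2

theorem eval_gal (q : k[X]) (σ : k' ≃ₐ[k] k') (r : k') :
    (q.map (algebraMap k k')).eval (σ r) = σ ((q.map (algebraMap k k')).eval r) := by
  rw [eval_map_algebraMap, eval_map_algebraMap]
  exact aeval_algHom_apply (σ : k' →ₐ[k] k') r q

theorem Sg.gal {r : k'} (h : Sg P₀ a₀ c₀ r) (σ : k' ≃ₐ[k] k') : Sg P₀ a₀ c₀ (σ r) := by
  unfold Sg at h ⊢
  rw [eval_gal, eval_gal]
  set x := (a₀.map (algebraMap k k')).eval r
  set y := (c₀.map (algebraMap k k')).eval r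
  let Ψ : k'[X][X] →+* k'[X][X] := mapRingHom (mapRingHom ((σ : k' ≃+* k') : k' →+* k'))
  have h1 : Ψ (up k' P₀) = up k' P₀ := by
    show (P₀.map (mapRingHom (algebraMap k k'))).map (mapRingHom ((σ : k' ≃+* k') : k' →+* k')) = _
    rw [Polynomial.map_map, mapRingHom_comp]
    have h2 : ((σ : k' ≃+* k') : k' →+* k').comp (algebraMap k k') = algebraMap k k' :=
      RingHom.ext fun x => σ.commutes x
    rw [h2]
    rfl
  have h2 : RingHom.ker (evalEvalRingHom x y) ≤
      (RingHom.ker (evalEvalRingHom (σ x) (σ y))).comap Ψ := by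
    intro g hg
    rw [RingHom.mem_ker] at hg
    rw [Ideal.mem_comap, RingHom.mem_ker]
    have h3 : (evalEvalRingHom (σ x) (σ y)).comp Ψ =
        ((σ : k' ≃+* k') : k' →+* k').comp (evalEvalRingHom x y) := by
      refine Polynomial.ringHom_ext (fun p => ?_) ?_
      · show evalEval (σ x) (σ y) ((C p).map _) = σ (evalEval x y (C p))
        rw [map_C, evalEval_C, evalEval_C]
        show ((p.map ((σ : k' ≃+* k') : k' →+* k')).eval (σ x)) = σ (p.eval x)
        exact eval_map_apply (p := p) ((σ : k' ≃+* k') : k' →+* k') x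
      · show evalEval (σ x) (σ y) (X.map _) = σ (evalEval x y X)
        rw [map_X, evalEval_X, evalEval_X]
    have h4 : evalEvalRingHom (σ x) (σ y) (Ψ g) = σ (evalEvalRingHom x y g) :=
      RingHom.congr_fun h3 g
    rw [h4, hg, map_zero]
  have h3 := Ideal.pow_right_mono h2 2 h
  have h4 : (RingHom.ker (evalEvalRingHom (σ x) (σ y))).comap Ψ ^ 2 ≤
      ((RingHom.ker (evalEvalRingHom (σ x) (σ y))) ^ 2).comap Ψ := Ideal.le_comap_pow _ _
  have h5 := h4 h3
  rw [Ideal.mem_comap, h1] at h5
  exact h5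

/-- The values of `t` at the singular points. -/
abbrev OmP (k' : Type) [Field k'] [Algebra k k'] (P₀ : k[X][X]) (a₀ c₀ : k[X]) : Type :=
  Om (a₀.map (algebraMap k k')) (Sg (k' := k') P₀ a₀ c₀)

/-- The action on the values. -/
def actO : (k' ≃ₐ[k] k') →* Equiv.Perm (OmP k' P₀ a₀ c₀) where
  toFun σ :=
    { toFun := fun τ => ⟨σ τ.1, by
        obtain ⟨r, hr, h⟩ := τ.2
        exact ⟨σ r, hr.gal P₀ a₀ c₀ σ, by rw [eval_gal, h]⟩⟩
      invFun := fun τ => ⟨σ.symm τ.1, by
        obtain ⟨r, hr, h⟩ := τ.2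
        exact ⟨σ.symm r, hr.gal P₀ a₀ c₀ σ.symm, by rw [eval_gal, h]⟩⟩
      left_inv := fun τ => Subtype.ext (σ.symm_apply_apply _)
      right_inv := fun τ => Subtype.ext (σ.apply_symm_apply _) }
  map_one' := rfl
  map_mul' _ _ := rfl

theorem actO_val (σ : k' ≃ₐ[k] k') (τ : OmP k' P₀ a₀ c₀) : (actO P₀ a₀ c₀ σ τ).1 = σ τ.1 := rfl

end act

section aut

variable {k k' : Type} [Field k] [Field k'] [Algebra k k'] {a₀ : k[X]} {L : Type} [Field L]
  [Algebra (RU (a₀.map (algebraMap k k'))) L] [IsFractionRing (RU (a₀.map (algebraMap k k'))) L]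

/-- The automorphism of the ring. -/
noncomputable def tR (a₀ : k[X]) (σ : k' ≃ₐ[k] k') :
    RU (a₀.map (algebraMap k k')) ≃+* RU (a₀.map (algebraMap k k')) :=
  (ru _).symm.trans ((Polynomial.mapEquiv (σ : k' ≃+* k')).trans (ru _))

theorem tR_apply (σ : k' ≃ₐ[k] k') (p : k'[X]) :
    tR a₀ σ (ru _ p) = ru _ (p.map ((σ : k' ≃+* k') : k' →+* k')) := rfl

theorem map_gal (σ : k' ≃ₐ[k] k') (p : k[X]) :
    (p.map (algebraMap k k')).map ((σ : k' ≃+* k') : k' →+* k') = p.map (algebraMap k k') := by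
  rw [Polynomial.map_map]
  congr 1
  exact RingHom.ext fun x => σ.commutes x

/-- The automorphism of the field. -/
noncomputable def tL (L : Type) [Field L] [Algebra (RU (a₀.map (algebraMap k k'))) L]
    [IsFractionRing (RU (a₀.map (algebraMap k k'))) L] (σ : k' ≃ₐ[k] k') : L ≃+* L :=
  IsFractionRing.ringEquivOfRingEquiv (tR a₀ σ)

theorem tL_apply (σ : k' ≃ₐ[k] k') (x : RU (a₀.map (algebraMap k k'))) :
    tL (a₀ := a₀) L σ (algebraMap _ L x) = algebraMap _ L (tR a₀ σ x) :=
  IsFractionRing.ringEquivOfRingEquiv_algebraMap (tR a₀ σ) x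

/-- The parity of the order of the transforms. -/
theorem par_tL [IsAlgClosed k'] (σ : k' ≃ₐ[k] k') (r : k') (z : Lˣ) :
    par (ru (a₀.map (algebraMap k k'))) L (σ r)
      (Units.map ((tL (a₀ := a₀) L σ : L ≃+* L) : L →* L) z) =
      par (ru (a₀.map (algebraMap k k'))) L r z := by
  have hz' : ∀ (p : k'[X]) (z : Lˣ), (z : L) = algebraMap _ L (ru (a₀.map (algebraMap k k')) p) →
      ((Units.map ((tL (a₀ := a₀) L σ : L ≃+* L) : L →* L) z : Lˣ) : L) =
        algebraMap _ L (ru (a₀.map (algebraMap k k')) (p.map ((σ : k' ≃+* k') : k' →+* k'))) := by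
    intro p z hz
    show tL (a₀ := a₀) L σ (z : L) = _
    rw [hz, tL_apply, tR_apply]
  refine ind (ru (a₀.map (algebraMap k k')))
    (A := fun z => par (ru (a₀.map (algebraMap k k'))) L (σ r)
      (Units.map ((tL (a₀ := a₀) L σ : L ≃+* L) : L →* L) z))
    (B := fun z => par (ru (a₀.map (algebraMap k k'))) L r z)
    (fun z w => ?_) (fun z w => par_mul _ _ _ _) (fun c z hz => ?_) (fun s z hz => ?_) z
  · show par _ L (σ r) (Units.map ((tL (a₀ := a₀) L σ : L ≃+* L) : L →* L) (z * w)) = _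
    rw [map_mul, par_mul]
  · have hc : c ≠ 0 := by
      rintro rfl
      rw [C_0, map_zero, map_zero] at hz
      exact z.ne_zero hz
    show par _ L (σ r) _ = par _ L r z
    rw [par_unit _ hz (by rw [eval_C]; exact hc), par_unit _ (hz' _ z hz)]
    rw [map_C, eval_C]
    exact (map_ne_zero_iff σ σ.injective).2 hc
  · have h2 := hz' _ z hz
    rw [Polynomial.map_sub, map_X, map_C] at h2
    show par _ L (σ r) _ = par _ L r z
    by_cases hs : r = s
    · subst hs
      rw [par_lin _ hz, par_lin (ru (a₀.map (algebraMap k k'))) (r := σ r) h2]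
    · rw [par_unit _ hz (by rw [eval_sub, eval_X, eval_C, sub_ne_zero]; exact hs), par_unit _ h2]
      rw [eval_sub, eval_X, eval_C, sub_ne_zero]
      exact fun h => hs (σ.injective h)

end aut

end Pool.Agent.Q45.ND
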