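import Pool.Agent.Q45.ND.Par
import Pool.Agent.Q45.GM.Even

/-!
# The places of the line over an algebraically closed field, modulo two
-/

set_option autoImplicit false
set_option linter.all false

open Polynomial IsDedekindDomain WithZero
open scoped nonZeroDivisors Classical

namespace Pool.Agent.Q45.ND

open Pool.Agent.Y160.SE (IsPw)

section line

variable {k' D : Type} [Field k'] [CommRing D] [IsDomain D] [IsDedekindDomain D]
  (φ : k'[X] ≃+* D)

/-- The place of the point `r`. -/
noncomputable def pt (r : k') : HeightOneSpectrum D where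
  asIdeal := Ideal.span {φ (X - C r)}
  isPrime := by
    rw [Ideal.span_singleton_prime]
    · exact (MulEquiv.prime_iff φ.toMulEquiv).2 (prime_X_sub_C r)
    · exact (map_ne_zero_iff φ φ.injective).2 (X_sub_C_ne_zero r)
  ne_bot := by
    rw [Ne, Ideal.span_singleton_eq_bot]
    exact (map_ne_zero_iff φ φ.injective).2 (X_sub_C_ne_zero r)

theorem pt_ideal (r : k') : (pt φ r).asIdeal = Ideal.span {φ (X - C r)} := rfl

theorem mem_pt (r : k') (p : k'[X]) : φ p ∈ (pt φ r).asIdeal ↔ p.eval r = 0 := by
  rw [pt_ideal, Ideal.mem_span_singleton, map_dvd_iff, dvd_iff_isRoot]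
  rfl

theorem mem_pt' (r : k') (x : D) : x ∈ (pt φ r).asIdeal ↔ (φ.symm x).eval r = 0 := by
  rw [← mem_pt φ, φ.apply_symm_apply]

theorem exists_pt [IsAlgClosed k'] (v : HeightOneSpectrum D) : ∃ r, v = pt φ r := by
  obtain ⟨x, hx, hx0⟩ := Submodule.exists_mem_ne_zero_of_ne_bot v.ne_bot
  haveI := v.isPrime
  set p := φ.symm x with hp
  have hxp : φ p = x := φ.apply_symm_apply x
  have hp0 : p ≠ 0 := by
    intro h
    rw [h, map_zero] at hxp
    exact hx0 hxp.symm
  have hs : p = C p.leadingCoeff * (p.roots.map fun a => X - C a).prod :=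
    (IsAlgClosed.splits p).eq_prod_roots
  rw [← hxp, hs, map_mul, v.isPrime.mul_mem_iff_mem_or_mem] at hx
  have hu : φ (C p.leadingCoeff) ∉ v.asIdeal := by
    intro h
    refine v.isPrime.ne_top (Ideal.eq_top_of_isUnit_mem _ h ?_)
    exact (isUnit_C.2 (IsUnit.mk0 _ (leadingCoeff_ne_zero.2 hp0))).map φ
  have hx2 := hx.resolve_left hu
  obtain ⟨r, hr⟩ : ∃ r, φ (X - C r) ∈ v.asIdeal := by
    revert hx2
    generalize p.roots = s
    induction s using Multiset.induction_on with
    | empty =>
      intro h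
      rw [Multiset.map_zero, Multiset.prod_zero, map_one] at h
      exact absurd ((Ideal.eq_top_iff_one _).2 h) v.isPrime.ne_top
    | cons r s ih =>
      intro h
      rw [Multiset.map_cons, Multiset.prod_cons, map_mul, v.isPrime.mul_mem_iff_mem_or_mem] at h
      rcases h with h | h
      · exact ⟨r, h⟩
      · exact ih h
  refine ⟨r, HeightOneSpectrum.ext ?_⟩
  have h1 : (pt φ r).asIdeal ≤ v.asIdeal := by
    rw [pt_ideal, Ideal.span_singleton_le_iff_mem]
    exact hr
  exact (((pt φ r).isMaximal).eq_of_le v.isPrime.ne_top h1).symm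

variable (L : Type) [Field L] [Algebra D L] [IsFractionRing D L]

/-- The parity of the order at the point `r`. -/
noncomputable def par (r : k') (z : Lˣ) : ZMod 2 :=
  ((WithZero.log ((pt φ r).valuation L (z : L)) : ℤ) : ZMod 2)

variable {L}

theorem par_mul (r : k') (z w : Lˣ) : par φ L r (z * w) = par φ L r z + par φ L r w := by
  have h1 : ∀ u : Lˣ, (pt φ r).valuation L (u : L) ≠ 0 := fun u =>
    (Valuation.ne_zero_iff _).2 u.ne_zero
  unfold par
  rw [Units.val_mul, map_mul, WithZero.log_mul (h1 z) (h1 w), Int.cast_add]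

theorem par_one (r : k') : par φ L r 1 = 0 := by
  have h1 := par_mul φ (L := L) r 1 1
  rw [mul_one] at h1
  exact left_eq_add.1 h1

theorem par_sq (r : k') (z : Lˣ) : par φ L r (z ^ 2) = 0 := by
  rw [pow_two, par_mul]
  exact (by decide : ∀ c : ZMod 2, c + c = 0) _

theorem par_zero_iff (r : k') (z : Lˣ) :
    par φ L r z = 0 ↔ IsPw 2 ((pt φ r).valuation L (z : L)) := by
  have h1 : (pt φ r).valuation L (z : L) ≠ 0 := (Valuation.ne_zero_iff _).2 z.ne_zero
  unfold par
  rw [ZMod.intCast_zmod_eq_zero_iff_dvd]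
  constructor
  · intro h
    obtain ⟨j, hj⟩ := h
    refine ⟨exp j, ?_⟩
    rw [← WithZero.exp_log h1, hj, ← WithZero.exp_nsmul]
    congr 1
  · rintro ⟨δ, hδ⟩
    have hδ0 : δ ≠ 0 := by
      rintro rfl
      rw [zero_pow two_ne_zero] at hδ
      exact h1 hδ
    rw [hδ, WithZero.log_pow]
    exact ⟨WithZero.log δ, by simp⟩

/-- The parity of the order of a polynomial which does not vanish at the point. -/
theorem par_unit {r : k'} {z : Lˣ} {p : k'[X]} (hz : (z : L) = algebraMap D L (φ p))
    (hp : p.eval r ≠ 0) : par φ L r z = 0 := by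
  have h1 : (pt φ r).valuation L (z : L) = 1 := by
    rw [hz, (pt φ r).valuation_eq_one_iff_notMem, mem_pt]
    exact hp
  unfold par
  rw [h1, WithZero.log_one, Int.cast_zero]

theorem par_lin {r : k'} {z : Lˣ} (hz : (z : L) = algebraMap D L (φ (X - C r))) :
    par φ L r z = 1 := by
  have h1 : (pt φ r).valuation L (z : L) = exp (-1 : ℤ) := by
    rw [hz, (pt φ r).valuation_of_algebraMap]
    exact (pt φ r).intValuation_singleton
      ((map_ne_zero_iff φ φ.injective).2 (X_sub_C_ne_zero r)) (pt_ideal φ r)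
  unfold par
  rw [h1, WithZero.log_exp]
  decide

/-- The elements of even order at all the points are squares. -/
theorem sq_of_par [IsAlgClosed k'] (z : Lˣ) (h : ∀ r, par φ L r z = 0) : ∃ y : Lˣ, z = y ^ 2 := by
  obtain ⟨a, b, hb, hab⟩ := IsFractionRing.div_surjective (A := D) (z : L)
  have hb0 : b ≠ 0 := nonZeroDivisors.ne_zero hb
  have ha0 : a ≠ 0 := by
    rintro rfl
    rw [map_zero, zero_div] at hab
    exact z.ne_zero hab.symm
  have hbL : algebraMap D L b ≠ 0 := fun h =>
    hb0 (IsFractionRing.injective D L (by rw [h, map_zero]))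
  have he : algebraMap D L (a * b) = (z : L) * algebraMap D L b ^ 2 := by
    rw [← hab, map_mul]
    field_simp
  haveI : IsPrincipalIdealRing D := IsPrincipalIdealRing.of_surjective φ.toRingHom φ.surjective
  obtain ⟨J, hJ⟩ := Pool.Agent.Q45.TL.ideal_pw (p := 2) two_ne_zero (mul_ne_zero ha0 hb0) fun v => by
    obtain ⟨r, rfl⟩ := exists_pt φ v
    have h5 : (pt φ r).valuation L (algebraMap D L (a * b)) = (pt φ r).intValuation (a * b) :=
      (pt φ r).valuation_of_algebraMap (K := L) (a * b)
    rw [← h5, he, map_mul, map_pow]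
    exact ((par_zero_iff φ r z).1 (h r)).mul (IsPw.self _)
  obtain ⟨g, hg⟩ := (IsPrincipalIdealRing.principal J).principal
  rw [hg, Ideal.submodule_span_eq, Ideal.span_singleton_pow, Ideal.span_singleton_eq_span_singleton] at hJ
  obtain ⟨u, hu⟩ := hJ
  have hu' : IsUnit (φ.symm ((u⁻¹ : Dˣ) : D)) := (u⁻¹).isUnit.map φ.symm
  obtain ⟨c, hc, hc2⟩ := Polynomial.isUnit_iff.1 hu'
  obtain ⟨d, hd⟩ := IsAlgClosed.exists_pow_nat_eq c (n := 2) (by norm_num)
  have h1 : a * b = φ (C d) ^ 2 * g ^ 2 := by
    have h2 : ((u⁻¹ : Dˣ) : D) = φ (C d) ^ 2 := by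
      rw [← map_pow, ← C_pow, hd, hc2, φ.apply_symm_apply]
    rw [← h2, ← hu, mul_comm (a * b), ← mul_assoc, Units.inv_mul, one_mul]
  have h2 : (z : L) = (algebraMap D L (φ (C d) * g) / algebraMap D L b) ^ 2 := by
    rw [h1, ← mul_pow, map_pow] at he
    rw [div_pow, he, mul_div_assoc, div_self (pow_ne_zero 2 hbL), mul_one]
  have h3 : algebraMap D L (φ (C d) * g) / algebraMap D L b ≠ 0 := by
    intro h4
    rw [h4, zero_pow two_ne_zero] at h2
    exact z.ne_zero h2
  exact ⟨Units.mk0 _ h3, Units.ext h2⟩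

/-- Two additive maps which agree on the constants and on the linear polynomials are equal. -/
theorem ind [IsAlgClosed k'] {A B : Lˣ → ZMod 2} (hA : ∀ z w, A (z * w) = A z + A w)
    (hB : ∀ z w, B (z * w) = B z + B w)
    (hC : ∀ (c : k') (z : Lˣ), (z : L) = algebraMap D L (φ (C c)) → A z = B z)
    (hX : ∀ (r : k') (z : Lˣ), (z : L) = algebraMap D L (φ (X - C r)) → A z = B z) (z : Lˣ) :
    A z = B z := by
  have key : ∀ (p : k'[X]) (z : Lˣ), (z : L) = algebraMap D L (φ p) → A z = B z := by
    intro p z hz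
    have hp0 : p ≠ 0 := by
      rintro rfl
      rw [map_zero, map_zero] at hz
      exact z.ne_zero hz
    have hs : p = C p.leadingCoeff * (p.roots.map fun a => X - C a).prod :=
      (IsAlgClosed.splits p).eq_prod_roots
    have hne : ∀ q : k'[X], q ≠ 0 → algebraMap D L (φ q) ≠ 0 := fun q hq =>
      (map_ne_zero_iff _ (IsFractionRing.injective D L)).2 ((map_ne_zero_iff φ φ.injective).2 hq)
    have hms : ∀ (s : Multiset k') (z : Lˣ), (z : L) = algebraMap D L
        (φ (s.map fun a => X - C a).prod) → A z = B z := by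
      intro s
      induction s using Multiset.induction_on with
      | empty =>
        intro z hz
        rw [Multiset.map_zero, Multiset.prod_zero] at hz
        exact hC 1 z (by rw [hz, C_1])
      | cons r s ih =>
        intro z hz
        rw [Multiset.map_cons, Multiset.prod_cons, map_mul, map_mul] at hz
        have h1 := hne (X - C r) (X_sub_C_ne_zero r)
        have h2 : algebraMap D L (φ (s.map fun a => X - C a).prod) ≠ 0 := by
          intro h3
          rw [h3, mul_zero] at hz
          exact z.ne_zero hz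
        have h3 : z = Units.mk0 _ h1 * Units.mk0 _ h2 := Units.ext hz
        rw [h3, hA, hB, hX r (Units.mk0 _ h1) rfl, ih (Units.mk0 _ h2) rfl]
    have h1 := hne (C p.leadingCoeff) (C_ne_zero.2 (leadingCoeff_ne_zero.2 hp0))
    have h2 : algebraMap D L (φ (p.roots.map fun a => X - C a).prod) ≠ 0 := by
      intro h3
      rw [hs, map_mul, map_mul, h3, mul_zero] at hz
      exact z.ne_zero hz
    have h3 : z = Units.mk0 _ h1 * Units.mk0 _ h2 := Units.ext (by
      rw [hz]
      conv_lhs => rw [hs]
      rw [map_mul, map_mul]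
      rfl)
    rw [h3, hA, hB, hC _ (Units.mk0 _ h1) rfl, hms _ (Units.mk0 _ h2) rfl]
  obtain ⟨a, b, hb, hab⟩ := IsFractionRing.div_surjective (A := D) (z : L)
  have hb0 : b ≠ 0 := nonZeroDivisors.ne_zero hb
  have hbL : algebraMap D L b ≠ 0 := fun h =>
    hb0 (IsFractionRing.injective D L (by rw [h, map_zero]))
  have haL : algebraMap D L a ≠ 0 := by
    intro h
    rw [h, zero_div] at hab
    exact z.ne_zero hab.symm
  have h1 : z * Units.mk0 _ hbL = Units.mk0 _ haL := Units.ext (by
    rw [Units.val_mul, Units.val_mk0, Units.val_mk0, ← hab, div_mul_cancel₀ _ hbL])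
  have h2 := hA z (Units.mk0 _ hbL)
  have h3 := hB z (Units.mk0 _ hbL)
  have h4 := key (φ.symm a) (Units.mk0 _ haL) (by rw [φ.apply_symm_apply]; rfl)
  have h5 := key (φ.symm b) (Units.mk0 _ hbL) (by rw [φ.apply_symm_apply]; rfl)
  rw [h1] at h2 h3
  rw [h4, h3, h5] at h2
  exact (add_right_cancel h2).symm

end line

end Pool.Agent.Q45.ND
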