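import Pool.Agent.Q45.GS.Res
import Pool.Agent.Y317.SQ.LLoc
import Pool.Agent.Y160.SQ.Stmts

/-!
# The local condition at one point of the curve
-/

open Polynomial IsLocalRing WithZero IsDedekindDomain
open scoped NNReal

set_option autoImplicit false

namespace Pool.Agent.Q45.ND

open Pool.Agent.Y154.SE
open Pool.Agent.Y317.SQ.L (w_le w_eq exists_exp exp_pow exp_inj power_of_dvd lt_one_iff)
open Pool.Agent.Q45

section main

variable {L : Type*} [NontriviallyNormedField L] [IsUltrametricDist L] [CompleteSpace L]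
  {O : ValuationSubring L}

theorem w_lt (t : O) (ht0 : (t : L) ≠ 0) (ht1 : ‖(t : L)‖ < 1)
    {M : Type*} [Field M] [Algebra L M] [Algebra.IsAlgebraic L M]
    (w : Valuation M (WithZero (Multiplicative ℤ)))
    (hle : ∀ y : L, ‖y‖ ≤ 1 → w (algebraMap L M y) ≤ 1)
    (hlt : ∀ y : L, ‖y‖ < 1 → w (algebraMap L M y) < 1) (σ : M →ₐ[L] AlgebraicClosure L) (z : M)
    (h : sv (σ z) < 1) : w z < 1 := by
  have ht0' : ‖(t : L)‖₊ ≠ 0 := nnnorm_ne_zero_iff.2 ht0
  obtain ⟨k, hk⟩ := exists_pow_lt_of_lt_one (zero_lt_iff.2 ht0') h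
  have h1 : sv (σ (z ^ k / algebraMap L M t)) ≤ 1 := by
    rw [map_div₀, map_pow, AlgHom.commutes, map_div₀, map_pow, sv_algebraMap]
    exact div_le_one_of_le₀ hk.le zero_le
  have h2 := w_le w hle σ _ h1
  have h3 : algebraMap L M t ≠ 0 := (_root_.map_ne_zero _).2 ht0
  rw [map_div₀, map_pow, div_le_one₀ (zero_lt_iff.2 ((Valuation.ne_zero_iff w).2 h3))] at h2
  have h4 : w z ^ k < 1 := lt_of_le_of_lt h2 (hlt _ ht1)
  by_contra h5
  exact absurd (one_le_pow_of_one_le' (not_lt.1 h5) k) (not_le.2 h4)

theorem loc_main (hO : ∀ y : L, y ∈ O ↔ ‖y‖ ≤ 1) (t : O) (ht : maximalIdeal O = Ideal.span {t})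
    (hd : ∀ y : L, y ≠ 0 → ∃ k : ℤ, ‖y‖₊ = ‖(t : L)‖₊ ^ k)
    {M : Type*} [Field M] [Algebra L M] [Algebra.IsAlgebraic L M]
    (w : Valuation M (WithZero (Multiplicative ℤ)))
    (hle : ∀ y : L, ‖y‖ ≤ 1 → w (algebraMap L M y) ≤ 1)
    (hlt : ∀ y : L, ‖y‖ < 1 → w (algebraMap L M y) < 1)
    (ℓ : ℕ) (hℓ : 0 < ℓ) (f : O[X]) (hf : f.Monic) (x : M)
    (hreg : ∀ a : O[X], a.Monic → Irreducible (a.map (residue O)) →
      w (aeval x (a.map (algebraMap O L))) < 1 →
      f ∉ (Ideal.span {a} ⊔ (maximalIdeal O).map C) ^ 2)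
    (hdeg : ℓ.Coprime f.natDegree) (p c : L[X]) (hp : p.Monic) (hpi : Irreducible p)
    (hpf : p ∣ f.map (algebraMap O L) - c ^ ℓ)
    (hx : aeval x (f.map (algebraMap O L)) = 0) :
    ∃ γ : WithZero (Multiplicative ℤ), w (aeval x p) = γ ^ ℓ := by
  classical
  have hinj : Function.Injective (algebraMap O L) := Subtype.val_injective
  by_cases hz : aeval x p = 0
  · exact ⟨0, by rw [hz, map_zero, zero_pow hℓ.ne']⟩
  set σ : M →ₐ[L] AlgebraicClosure L := IsAlgClosed.lift with hσ
  set θ := σ x with hθ
  have hix : IsIntegral L x := Algebra.IsIntegral.isIntegral x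
  have hiθ : IsIntegral L θ := Algebra.IsIntegral.isIntegral θ
  have hσp : ∀ g : L[X], σ (aeval x g) = aeval θ g := fun g => by
    rw [hθ, aeval_algHom_apply]
  have hfθ : aeval θ (f.map (algebraMap O L)) = 0 := by rw [← hσp, hx, map_zero]
  have hcoef : ∀ (g : O[X]) (i : ℕ), sv (((g.map (algebraMap O L)).map
      (algebraMap L (AlgebraicClosure L))).coeff i) ≤ 1 := by
    intro g i
    rw [coeff_map, coeff_map]
    exact sv_coe_le hO _
  have hsθ : sv θ ≤ 1 := by
    refine val_le_one sv ((f.map (algebraMap O L)).map (algebraMap L (AlgebraicClosure L)))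
      ((hf.map _).map _) (hcoef f) θ ?_
    rw [eval_map_algebraMap, hfθ]
  -- integral lift of the minimal polynomial of an integral element
  have hlift : ∀ η : AlgebraicClosure L, sv η ≤ 1 → ∃ F : O[X], F.Monic ∧
      F.map (algebraMap O L) = minpoly L η := by
    intro η hη
    have h1 := (sv_le_one_iff η).1 hη
    have h2 : minpoly L η ∈ lifts (algebraMap O L) := by
      rw [lifts_iff_coeff_lifts]
      intro n
      exact ⟨⟨_, (hO _).2 (h1 n)⟩, rfl⟩
    obtain ⟨F, h3, -, h4⟩ := lifts_and_natDegree_eq_and_monic h2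
      (minpoly.monic (Algebra.IsIntegral.isIntegral η))
    exact ⟨F, h4, h3⟩
  obtain ⟨F, hFm, hF⟩ := hlift θ hsθ
  obtain ⟨g, hg⟩ : F ∣ f := by
    rw [← map_dvd_map (algebraMap O L) hinj hFm, hF]
    exact minpoly.dvd L θ hfθ
  -- a root of `p`
  obtain ⟨ξ, hξ⟩ := IsAlgClosed.exists_aeval_eq_zero (AlgebraicClosure L) p hpi.degree_pos.ne'
  have hξp : minpoly L ξ = p := (minpoly.eq_of_irreducible_of_monic hpi hξ hp).symm
  set d := (minpoly L θ).natDegree with hd'
  set m := p.natDegree with hm'
  have hd0 : d ≠ 0 := (minpoly.natDegree_pos hiθ).ne'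
  have hm0 : m ≠ 0 := hpi.natDegree_pos.ne'
  have hsym : sv (aeval θ p) ^ d = sv (aeval ξ (minpoly L θ)) ^ m := by
    have := sv_resultant_comm θ ξ
    rwa [hξp] at this
  have hcξ : aeval ξ (f.map (algebraMap O L)) = aeval ξ c ^ ℓ := by
    obtain ⟨q, hq⟩ := hpf
    have := congrArg (aeval ξ) hq
    rw [map_sub, map_mul, hξ, zero_mul, map_pow, sub_eq_zero] at this
    exact this
  have hres : ∀ q : L[X], ‖resultant p q‖₊ = sv (aeval ξ q) ^ m := by
    intro q
    have := sv_resultant ξ q
    rwa [hξp] at this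
  by_cases hξ1 : 1 < sv ξ
  · -- the non-integral case
    have hA1 : sv (aeval ξ (f.map (algebraMap O L))) = sv ξ ^ f.natDegree := by
      have := val_eval_large sv ((f.map (algebraMap O L)).map (algebraMap L (AlgebraicClosure L)))
        ((hf.map _).map _) (hcoef f) ξ hξ1
      rwa [eval_map_algebraMap, natDegree_map, natDegree_map_eq_of_injective hinj] at this
    have hA2 : sv (aeval ξ (minpoly L θ)) = sv ξ ^ d := by
      have := val_eval_large sv ((F.map (algebraMap O L)).map (algebraMap L (AlgebraicClosure L)))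
        ((hFm.map _).map _) (hcoef F) ξ hξ1
      rwa [eval_map_algebraMap, natDegree_map, hF] at this
    have h1 : ‖resultant p X‖₊ ^ f.natDegree = ‖resultant p c‖₊ ^ ℓ := by
      rw [hres, hres, aeval_X, ← pow_mul, mul_comm m, pow_mul, ← hA1, hcξ, map_pow, ← pow_mul,
        ← pow_mul, mul_comm]
    have h2 : sv (aeval θ p) = ‖resultant p X‖₊ := by
      have h3 : sv (aeval θ p) ^ d = ‖resultant p X‖₊ ^ d := by
        rw [hsym, hA2, hres, aeval_X, ← pow_mul, ← pow_mul, mul_comm]
      exact (pow_left_inj₀ zero_le zero_le hd0).1 h3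
    have h4 : w (aeval x p) ^ 1 = w (algebraMap L M (resultant p X)) := by
      refine w_eq w hle σ _ _ 1 hz ?_
      rw [pow_one, hσp, h2]
    rw [pow_one] at h4
    have hX0 : resultant p X ≠ 0 := by
      rw [← nnnorm_ne_zero_iff, hres, aeval_X]
      exact pow_ne_zero _ (zero_lt_one.trans hξ1).ne'
    have hX0' : algebraMap L M (resultant p X) ≠ 0 := (_root_.map_ne_zero _).2 hX0
    have h5 : w (algebraMap L M (resultant p X)) ^ f.natDegree
        = w (algebraMap L M (resultant p c ^ ℓ)) := by
      refine w_eq w hle σ _ _ _ hX0' ?_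
      rw [AlgHom.commutes, sv_algebraMap, h1, nnnorm_pow]
    have hc0 : resultant p c ≠ 0 := by
      intro e
      rw [e, nnnorm_zero, zero_pow hℓ.ne'] at h1
      exact pow_ne_zero _ (nnnorm_ne_zero_iff.2 hX0) h1
    obtain ⟨k1, hk1⟩ := exists_exp ((Valuation.ne_zero_iff w).2 hX0')
    obtain ⟨k2, hk2⟩ := exists_exp ((Valuation.ne_zero_iff w).2 ((_root_.map_ne_zero (algebraMap L M)).2 hc0))
    rw [map_pow, map_pow, hk1, hk2, exp_pow, exp_pow] at h5
    have h6 := exp_inj h5
    rw [h4, hk1]
    refine power_of_dvd ?_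
    have h7 : (ℓ : ℤ) ∣ (f.natDegree : ℤ) * k1 := ⟨k2, h6⟩
    exact (Int.isCoprime_iff_gcd_eq_one.2 (by simpa using hdeg)).dvd_of_dvd_mul_left h7
  · rw [not_lt] at hξ1
    -- the integral case
    obtain ⟨P, hPm, hP⟩ := hlift ξ hξ1
    rw [hξp] at hP
    have hevP : ev θ P = aeval θ p := by rw [ev_apply, hP]
    have hle1 : sv (aeval θ p) ≤ 1 := by
      rw [← hevP]
      exact sv_ev_le hO hsθ P
    rcases hle1.eq_or_lt with h1 | h1
    · refine ⟨1, ?_⟩
      have h4 : w (aeval x p) ^ 1 = w (algebraMap L M 1) := by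
        refine w_eq w hle σ _ _ 1 hz ?_
        rw [pow_one, hσp, h1, nnnorm_one]
      rw [pow_one, map_one, map_one] at h4
      rw [h4, one_pow]
    · obtain ⟨a, ham, hai, ha⟩ := exists_a hO θ hsθ F hFm (by rw [ev_apply, hF, minpoly.aeval])
      have haw : w (aeval x (a.map (algebraMap O L))) < 1 := by
        refine w_lt t (fun e => ?_) ((mem_max_iff hO t).1 (by
          rw [ht]
          exact Ideal.mem_span_singleton_self t)) w hle hlt σ _ ?_
        · have ht0' : t = 0 := Subtype.ext e
          obtain ⟨y, hy⟩ := NormedField.exists_norm_lt_one L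
          have hy1 : (⟨y, (hO y).2 hy.2.le⟩ : O) ∈ maximalIdeal O := (mem_max_iff hO _).2 hy.2
          rw [ht, ht0', Ideal.mem_span_singleton, zero_dvd_iff] at hy1
          have hy2 : y = 0 := congrArg Subtype.val hy1
          rw [hy2, norm_zero] at hy
          exact lt_irrefl _ hy.1
        · rw [hσp, ← ev_apply]
          exact (ha a).2 dvd_rfl
      obtain ⟨a', ham', hai', ha'⟩ := exists_a hO ξ hξ1 P hPm (by rw [ev_apply, hP, hξ])
      have haa : a'.map (residue O) = a.map (residue O) := by
        obtain ⟨n, hn⟩ := red_pow hO ξ P hPm (by rw [hP, hξp]) a' ham' hai' ha'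
        have h2 : a.map (residue O) ∣ P.map (residue O) := (ha P).1 (by rw [hevP]; exact h1)
        rw [hn] at h2
        have h3 := hai.prime.dvd_of_dvd_pow h2
        exact eq_of_irr_dvd (ham.map _) (ham'.map _) hai hai' h3
      have hFa : a.map (residue O) ∣ F.map (residue O) := by
        rw [← ha, ev_apply, hF, minpoly.aeval, map_zero]
        exact zero_lt_one
      have hFmem : F ∈ Ideal.span {a} ⊔ (maximalIdeal O).map C := mem_of_dvd a F hFa
      have hgξ : sv (ev ξ g) = 1 := by
        refine le_antisymm (sv_ev_le hO hξ1 g) ?_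
        by_contra h2
        rw [not_le, ha', haa] at h2
        refine hreg a ham hai haw ?_
        rw [hg, sq]
        exact Ideal.mul_mem_mul hFmem (mem_of_dvd a g h2)
      have hFξ : sv (aeval ξ (minpoly L θ)) = sv (aeval ξ c) ^ ℓ := by
        rw [← map_pow, ← hcξ, hg, Polynomial.map_mul, map_mul, map_mul, hF]
        rw [ev_apply] at hgξ
        rw [hgξ, mul_one]
      have hw1 : w (aeval x p) ^ d = w (algebraMap L M (resultant p c ^ ℓ)) := by
        refine w_eq w hle σ _ _ d hz ?_
        rw [hσp, hsym, hFξ, nnnorm_pow, hres, ← pow_mul, ← pow_mul, mul_comm]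
      obtain ⟨e0, he0⟩ := red_pow hO θ F hFm hF a ham hai ha
      have hdf : d = e0 * (a.map (residue O)).natDegree := by
        rw [hd', ← hF, natDegree_map_eq_of_injective hinj, ← hFm.natDegree_map (residue O), he0,
          (ham.map (residue O)).natDegree_pow]
      have he00 : e0 ≠ 0 := by
        rintro rfl
        rw [zero_mul] at hdf
        exact hd0 hdf
      have hwz : w (aeval x p) ≠ 0 := (Valuation.ne_zero_iff w).2 hz
      obtain ⟨W, hW⟩ := exists_exp hwz
      have hc0 : resultant p c ≠ 0 := by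
        intro e
        rw [e, zero_pow hℓ.ne', map_zero, map_zero] at hw1
        exact pow_ne_zero _ hwz hw1
      obtain ⟨k2, hk2⟩ := exists_exp ((Valuation.ne_zero_iff w).2
        ((_root_.map_ne_zero (algebraMap L M)).2 hc0))
      rw [map_pow, map_pow, hW, hk2, exp_pow, exp_pow] at hw1
      have hw2 := exp_inj hw1
      -- the exponent of the norm of `c`
      have hred : GS.Red a ξ := ⟨hξ1, fun g => by rw [ha', haa]⟩
      have hcξ0 : aeval ξ c ≠ 0 := by
        intro h0
        have h1 := hres c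
        rw [h0, map_zero, zero_pow hm0] at h1
        exact hc0 (nnnorm_eq_zero.1 h1)
      obtain ⟨k, hk⟩ := GS.exp_dvd hO (t : L) hd ham hai m ξ (by rw [hξp]) hred c hcξ0
      have h9 : w (algebraMap L M (resultant p c)) =
          w (algebraMap L M ((t : L) ^ (((a.map (residue O)).natDegree : ℤ) * k))) := by
        have := w_eq w hle σ (algebraMap L M (resultant p c))
          ((t : L) ^ (((a.map (residue O)).natDegree : ℤ) * k)) 1
          ((_root_.map_ne_zero (algebraMap L M)).2 hc0)
          (by rw [pow_one, AlgHom.commutes, sv_algebraMap, hres, hk, nnnorm_zpow])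
        rwa [pow_one] at this
      have ht0 : (t : L) ≠ 0 := by
        intro e
        have ht0' : t = 0 := Subtype.ext e
        obtain ⟨y, hy⟩ := NormedField.exists_norm_lt_one L
        have hy1 : (⟨y, (hO y).2 hy.2.le⟩ : O) ∈ maximalIdeal O := (mem_max_iff hO _).2 hy.2
        rw [ht, ht0', Ideal.mem_span_singleton, zero_dvd_iff] at hy1
        have hy2 : y = 0 := congrArg Subtype.val hy1
        rw [hy2, norm_zero] at hy
        exact lt_irrefl _ hy.1
      obtain ⟨τ, hτ⟩ := exists_exp ((Valuation.ne_zero_iff w).2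
        ((_root_.map_ne_zero (algebraMap L M)).2 ht0))
      have hδ0 : ((a.map (residue O)).natDegree : ℤ) ≠ 0 := by
        exact_mod_cast hai.natDegree_pos.ne'
      rw [map_zpow₀, map_zpow₀, hk2, hτ, ← exp_zsmul] at h9
      have h10 := exp_inj h9
      -- `e0` divides the exponent of `t`
      have hdvd : (e0 : ℤ) ∣ τ := by
        by_cases h2 : e0 = 1
        · rw [h2]; simp
        have hFa2 : (F - a ^ e0) ∈ (maximalIdeal O).map C := by
          rw [Ideal.mem_map_C_iff]
          intro n
          rw [← residue_eq_zero_iff]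
          have h3 : (F - a ^ e0).map (residue O) = 0 := by
            rw [Polynomial.map_sub, Polynomial.map_pow, he0, sub_self]
          have h4 := congrArg (fun q => q.coeff n) h3
          simp only [coeff_map, coeff_zero] at h4
          exact h4
        rw [ht, Ideal.map_span, Set.image_singleton, Ideal.mem_span_singleton] at hFa2
        obtain ⟨h, hh⟩ := hFa2
        have hCt : C t ∈ Ideal.span {a} ⊔ (maximalIdeal O).map C := by
          refine Ideal.mem_sup_right (Ideal.mem_map_of_mem _ ?_)
          rw [ht]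
          exact Ideal.mem_span_singleton_self t
        have hamem : a ∈ Ideal.span {a} ⊔ (maximalIdeal O).map C :=
          Ideal.mem_sup_left (Ideal.mem_span_singleton_self a)
        have hhθ : sv (ev θ h) = 1 := by
          refine le_antisymm (sv_ev_le hO hsθ h) ?_
          by_contra h3
          rw [not_le, ha] at h3
          refine hreg a ham hai haw ?_
          have h4 : F = a ^ 2 * a ^ (e0 - 2) + C t * h := by
            rw [← pow_add, Nat.add_sub_cancel' (by omega), ← hh]
            ring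
          have h5 : F ∈ (Ideal.span {a} ⊔ (maximalIdeal O).map C) ^ 2 := by
            rw [h4]
            refine Ideal.add_mem _ (Ideal.mul_mem_right _ _ (Ideal.pow_mem_pow hamem 2)) ?_
            rw [sq]
            exact Ideal.mul_mem_mul hCt (mem_of_dvd a h h3)
          rw [hg]
          exact Ideal.mul_mem_right _ _ h5
        have h6 : ev θ a ^ e0 = -(algebraMap L (AlgebraicClosure L) (t : L) * ev θ h) := by
          have h7 := congrArg (ev θ) hh
          have h8 : ev θ F = 0 := by rw [ev_apply, hF, minpoly.aeval]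
          have h9 : ev θ (C t) = algebraMap L (AlgebraicClosure L) (t : L) := by
            rw [ev_apply, map_C, aeval_C]
            rfl
          rw [map_sub, map_pow, map_mul, h8, h9] at h7
          linear_combination -h7
        have h7 : sv (ev θ a) ^ e0 = ‖(t : L)‖₊ := by
          rw [← map_pow, h6, Valuation.map_neg, map_mul, hhθ, mul_one, sv_algebraMap]
        have hza : aeval x (a.map (algebraMap O L)) ≠ 0 := by
          intro e
          have h8 : ev θ a = 0 := by rw [ev_apply, ← hσp, e, map_zero]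
          rw [h8, map_zero, zero_pow he00] at h7
          exact ht0 (nnnorm_eq_zero.1 h7.symm)
        have h8 : w (aeval x (a.map (algebraMap O L))) ^ e0 = w (algebraMap L M (t : L)) := by
          refine w_eq w hle σ _ _ e0 hza ?_
          rw [hσp, ← ev_apply, h7]
        obtain ⟨A, hA⟩ := exists_exp ((Valuation.ne_zero_iff w).2 hza)
        rw [hA, hτ, exp_pow] at h8
        exact ⟨A, (exp_inj h8).symm⟩
      obtain ⟨k3, hk3⟩ := hdvd
      rw [hW]
      refine power_of_dvd ?_
      refine ⟨k * k3, ?_⟩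
      have h12 : (e0 : ℤ) ≠ 0 := by exact_mod_cast he00
      rw [hdf, h10, hk3, smul_eq_mul] at hw2
      push_cast at hw2
      apply mul_left_cancel₀ h12
      apply mul_left_cancel₀ hδ0
      linear_combination hw2

end main

theorem loc_valued {L : Type*} [Field L] [Valued L (WithZero (Multiplicative ℤ))] [CompleteSpace L]
    [hdisc : (Valued.v : Valuation L (WithZero (Multiplicative ℤ))).IsRankOneDiscrete]
    (hs : Function.Surjective (Valued.v : Valuation L (WithZero (Multiplicative ℤ))))
    {O : ValuationSubring L} (hO : ∀ y : L, y ∈ O ↔ Valued.v y ≤ 1)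
    {E : Type*} [Field E] (wE : Valuation E (WithZero (Multiplicative ℤ))) (j : L →+* E)
    (hle : ∀ y, Valued.v y ≤ 1 → wE (j y) ≤ 1)
    (hlt : ∀ y, Valued.v y < 1 → wE (j y) < 1)
    (ℓ : ℕ) (hℓ : 0 < ℓ) (f : O[X]) (hf : f.Monic) (x : E)
    (hreg : ∀ a : O[X], a.Monic → Irreducible (a.map (residue O)) →
      wE (((a.map (algebraMap O L)).map j).eval x) < 1 →
      f ∉ (Ideal.span {a} ⊔ (maximalIdeal O).map C) ^ 2)
    (hdeg : ℓ.Coprime f.natDegree) (p c : L[X]) (hp : p.Monic) (hpi : Irreducible p)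
    (hpf : p ∣ f.map (algebraMap O L) - c ^ ℓ)
    (hx : ((f.map (algebraMap O L)).map j).eval x = 0) :
    ∃ γ : WithZero (Multiplicative ℤ), wE ((p.map j).eval x) = γ ^ ℓ := by
  let hr : (Valued.v : Valuation L (WithZero (Multiplicative ℤ))).RankOne :=
    Valuation.IsRankOneDiscrete.rankOne _ (e := 2) one_lt_two
  let _ : NontriviallyNormedField L := Valued.toNontriviallyNormedField (L := L)
    (Γ₀ := WithZero (Multiplicative ℤ))
  have hO' : ∀ y : L, y ∈ O ↔ ‖y‖ ≤ 1 := by
    intro y
    rw [hO]
    exact Valued.toNormedField.norm_le_one_iff.symm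
  obtain ⟨t0, ht0⟩ := hs (exp (-1))
  have ht0' : t0 ∈ O := by
    rw [hO, ht0, ← exp_zero, exp_le_exp]
    norm_num
  have ht00 : t0 ≠ 0 := by
    rintro rfl
    rw [map_zero] at ht0
    exact exp_ne_zero ht0.symm
  set t : O := ⟨t0, ht0'⟩ with htt
  have ht : maximalIdeal O = Ideal.span {t} := by
    ext y
    have h1 : y ∈ maximalIdeal O ↔ Valued.v (y : L) < 1 := by
      rw [mem_max_iff hO']
      exact Valued.toNormedField.norm_lt_one_iff
    rw [h1, lt_one_iff, Ideal.mem_span_singleton, ← ht0]
    constructor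
    · intro h
      have h2 : (y : L) / t0 ∈ O := by
        rw [hO, map_div₀]
        exact div_le_one_of_le₀ h zero_le
      refine ⟨⟨_, h2⟩, ?_⟩
      ext
      exact (mul_div_cancel₀ (y : L) ht00).symm
    · rintro ⟨z, hz⟩
      rw [hz]
      change Valued.v (t0 * (z : L)) ≤ _
      rw [map_mul]
      exact mul_le_of_le_one_right' ((hO _).1 z.2)
  have hd : ∀ y : L, y ≠ 0 → ∃ k : ℤ, ‖y‖₊ = ‖(t : L)‖₊ ^ k := by
    intro y hy
    obtain ⟨k, hk⟩ := exists_exp ((Valuation.ne_zero_iff (Valued.v : Valuation L _)).2 hy)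
    refine ⟨-k, ?_⟩
    have h1 : Valued.v y = Valued.v (t0 ^ (-k)) := by
      rw [map_zpow₀, ht0, hk, ← exp_zsmul]
      congr 1
      simp
    rw [← nnnorm_zpow]
    apply NNReal.coe_injective
    exact le_antisymm (Valued.toNormedField.norm_le_iff.2 h1.le)
      (Valued.toNormedField.norm_le_iff.2 h1.ge)
  let _ : Algebra L E := j.toAlgebra
  have hint : IsIntegral L x := by
    refine ⟨f.map (algebraMap O L), hf.map _, ?_⟩
    rw [eval_map] at hx
    exact hx
  have : Algebra.IsAlgebraic L (IntermediateField.adjoin L {x}) :=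
    IntermediateField.isAlgebraic_adjoin_simple hint
  set M := IntermediateField.adjoin L {x} with hM
  set x' : M := IntermediateField.AdjoinSimple.gen L x with hx'
  have hxx : algebraMap M E x' = x := IntermediateField.AdjoinSimple.algebraMap_gen L x
  have hev : ∀ q : L[X], algebraMap M E (aeval x' q) = (q.map j).eval x := by
    intro q
    rw [← aeval_algebraMap_apply, hxx, eval_map]
    rfl
  have key := loc_main hO' t ht hd (wE.comap (algebraMap M E)) (fun y hy => by
      have : algebraMap M E (algebraMap L M y) = j y := rfl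
      rw [Valuation.comap_apply, this]
      exact hle y (Valued.toNormedField.norm_le_one_iff.1 hy)) (fun y hy => by
      have : algebraMap M E (algebraMap L M y) = j y := rfl
      rw [Valuation.comap_apply, this]
      exact hlt y (Valued.toNormedField.norm_lt_one_iff.1 hy)) ℓ hℓ f hf x' (fun a ha hai haw =>
        hreg a ha hai (by rwa [Valuation.comap_apply, hev] at haw)) hdeg p c hp hpi
    hpf (by
      apply (algebraMap M E).injective
      rw [hev, map_zero]
      exact hx)
  rw [Valuation.comap_apply, hev] at key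
  exact key

/-- The local condition, with regularity at one point. -/
theorem loc (ℓ : ℕ) {A F : Type} [CommRing A] [IsDedekindDomain A] [Field F]
    [Algebra A F] [IsFractionRing A F] (v : HeightOneSpectrum A) {E : Type} [Field E]
    (wE : Valuation E (WithZero (Multiplicative ℤ))) (j : v.adicCompletion F →+* E)
    (hle : ∀ y, Valued.v y ≤ 1 → wE (j y) ≤ 1) (hlt : ∀ y, Valued.v y < 1 → wE (j y) < 1)
    (f : (v.adicCompletionIntegers F)[X]) (fL p c : (v.adicCompletion F)[X]) (θ : E)
    (hℓ : 0 < ℓ) (hfL : f.map (algebraMap _ _) = fL) (hf : f.Monic)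
    (hreg : ∀ a : (v.adicCompletionIntegers F)[X], a.Monic →
      Irreducible (a.map (IsLocalRing.residue (v.adicCompletionIntegers F))) →
      wE (((a.map (algebraMap _ (v.adicCompletion F))).map j).eval θ) < 1 →
      f ∉ (Ideal.span {a} ⊔ (IsLocalRing.maximalIdeal (v.adicCompletionIntegers F)).map C) ^ 2)
    (hdeg : ℓ.Coprime f.natDegree) (hθ : (fL.map j).eval θ = 0) (hp : p.Monic)
    (hpi : Irreducible p) (hpf : p ∣ fL - c ^ ℓ) :
    ∃ γ : WithZero (Multiplicative ℤ), wE ((p.map j).eval θ) = γ ^ ℓ := by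
  subst hfL
  exact loc_valued (HeightOneSpectrum.valuedAdicCompletion_surjective F v) (fun y => Iff.rfl) wE j
    hle hlt ℓ hℓ f hf θ hreg hdeg p c hp hpi hpf hθ

end Pool.Agent.Q45.ND
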