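import Pool.Agent.Q45.ND.Crv

/-!
# The functions on a curve with double points, modulo squares
-/

set_option autoImplicit false
set_option linter.all false

open Polynomial IsDedekindDomain WithZero
open scoped nonZeroDivisors Classical

namespace Pool.Agent.Q45.ND

open Pool.Agent.Y160.SE (IsPw)
open Pool.Agent.Q45.GM (sqS)

section norm

variable {k' : Type} [Field k'] [IsAlgClosed k'] {a : k'[X]} {F L : Type} [Field F]
  [Algebra k'[X] F] [IsFractionRing k'[X] F] [Field L] [Algebra (RU a) L]
  [IsFractionRing (RU a) L] [Algebra F L]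
  (hFL : ∀ b : k'[X], algebraMap F L (algebraMap k'[X] F b) =
    algebraMap (RU a) L (algebraMap k'[X] (RU a) b))

/-- The points over `τ`. -/
noncomputable def fib (a : k'[X]) (τ : k') : Finset k' := (a - C τ).roots.toFinset

theorem mem_fib (ha : 0 < a.natDegree) (τ r : k') : r ∈ fib a τ ↔ a.eval r = τ := by
  unfold fib
  have h1 : a - C τ ≠ 0 := by
    intro h
    rw [sub_eq_zero] at h
    rw [h, natDegree_C] at ha
    exact absurd ha (lt_irrefl _)
  rw [Multiset.mem_toFinset, mem_roots h1, IsRoot.def, eval_sub, eval_C, sub_eq_zero]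

include hFL in
/-- The parity of the order of the norm. -/
theorem par_norm (ha : 0 < a.natDegree) [FiniteDimensional F L]
    (hfr : Module.finrank F L = a.natDegree) (τ : k') (z : Lˣ) :
    ∑ s ∈ fib a τ, par (ru a) L s z =
      par (RingEquiv.refl k'[X]) F τ (Units.map (Algebra.norm F : L →* F) z) := by
  have hlc : a.leadingCoeff ≠ 0 := by
    intro h
    rw [leadingCoeff_eq_zero] at h
    rw [h, natDegree_zero] at ha
    exact absurd ha (lt_irrefl _)
  refine ind (ru a) (A := fun z => ∑ s ∈ fib a τ, par (ru a) L s z)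
    (B := fun z => par (RingEquiv.refl k'[X]) F τ (Units.map (Algebra.norm F : L →* F) z))
    (fun z w => ?_) (fun z w => ?_) (fun c z hz => ?_) (fun r z hz => ?_) z
  · rw [← Finset.sum_add_distrib]
    exact Finset.sum_congr rfl fun s _ => par_mul _ _ _ _
  · show par _ F τ (Units.map (Algebra.norm F : L →* F) (z * w)) = _
    rw [map_mul, par_mul]
  · have hc : c ≠ 0 := by
      rintro rfl
      rw [C_0, map_zero, map_zero] at hz
      exact z.ne_zero hz
    have h1 : ∀ s, par (ru a) L s z = 0 := fun s => par_unit (ru a) hz (by rw [eval_C]; exact hc)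
    have h2 : ((Units.map (Algebra.norm F : L →* F) z : Fˣ) : F) =
        algebraMap k'[X] F (RingEquiv.refl k'[X] (C (c ^ a.natDegree))) := by
      have h3 : ru a (C c) = algebraMap k'[X] (RU a) (C c) := by rw [ru_alg, C_comp]
      show Algebra.norm F (z : L) = _
      rw [hz, h3, ← hFL, Algebra.norm_algebraMap, hfr, C_pow, ← map_pow]
      rfl
    show ∑ s ∈ fib a τ, par (ru a) L s z = _
    rw [Finset.sum_congr rfl fun s _ => h1 s, Finset.sum_const_zero,
      par_unit (RingEquiv.refl k'[X]) h2 (by rw [eval_C]; exact pow_ne_zero _ hc)]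
  · have h0 : ∀ s, par (ru a) L s z = if s = r then 1 else 0 := by
      intro s
      by_cases hs : s = r
      · rw [if_pos hs, hs]
        exact par_lin (ru a) hz
      · rw [if_neg hs]
        refine par_unit (ru a) hz ?_
        rw [eval_sub, eval_X, eval_C, sub_ne_zero]
        exact hs
    have h1 : ((Units.map (Algebra.norm F : L →* F) z : Fˣ) : F) =
        algebraMap k'[X] F (RingEquiv.refl k'[X]
          (C ((-1) ^ (a.natDegree + 1) * a.leadingCoeff⁻¹) * (X - C (a.eval r)))) := by
      have h3 : (z : L) = algebraMap F L (algebraMap k'[X] F (C (-1))) *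
          algebraMap (RU a) L (ru a (C r - X)) := by
        have h4 : ru a (C (-1)) = algebraMap k'[X] (RU a) (C (-1)) := by rw [ru_alg, C_comp]
        rw [hz, hFL, ← h4, ← map_mul, ← map_mul]
        congr 2
        rw [C_neg, C_1]
        ring
      show Algebra.norm F (z : L) = _
      rw [h3, map_mul, Algebra.norm_algebraMap, hfr, norm_lin hFL ha hfr, ← map_pow, ← map_mul]
      congr 1
      show _ = C ((-1) ^ (a.natDegree + 1) * a.leadingCoeff⁻¹) * (X - C (a.eval r))
      rw [C_mul, C_pow, pow_succ, C_neg, C_1]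
      ring
    have hκ : (-1 : k') ^ (a.natDegree + 1) * a.leadingCoeff⁻¹ ≠ 0 :=
      mul_ne_zero (pow_ne_zero _ (neg_ne_zero.2 one_ne_zero)) (inv_ne_zero hlc)
    show ∑ s ∈ fib a τ, par (ru a) L s z = _
    rw [Finset.sum_congr rfl fun s _ => h0 s, Finset.sum_ite_eq']
    have hF : ∀ q : k'[X], q ≠ 0 → algebraMap k'[X] F q ≠ 0 := fun q hq =>
      (map_ne_zero_iff _ (IsFractionRing.injective k'[X] F)).2 hq
    have h2 : Units.map (Algebra.norm F : L →* F) z =
        Units.mk0 _ (hF _ (C_ne_zero.2 hκ)) * Units.mk0 _ (hF _ (X_sub_C_ne_zero (a.eval r))) :=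
      Units.ext (by
        rw [h1, map_mul, map_mul]
        rfl)
    rw [h2, par_mul, par_unit (RingEquiv.refl k'[X]) (z := Units.mk0 _ (hF _ (C_ne_zero.2 hκ)))
      (p := C ((-1) ^ (a.natDegree + 1) * a.leadingCoeff⁻¹)) rfl (by rw [eval_C]; exact hκ),
      zero_add]
    by_cases hτ : a.eval r = τ
    · rw [if_pos ((mem_fib ha _ _).2 hτ)]
      subst hτ
      rw [par_lin (RingEquiv.refl k'[X]) rfl]
    · rw [if_neg fun h => hτ ((mem_fib ha _ _).1 h), par_unit (RingEquiv.refl k'[X]) (p := X - C (a.eval r)) rfl]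
      rw [eval_sub, eval_X, eval_C, sub_ne_zero]
      exact fun h => hτ h.symm

/-- The functions whose order is even at the points which are not singular and whose norm is a square. -/
structure EvN (S : k' → Prop) (F : Type) [Field F] [Algebra F L] (z : Lˣ) : Prop where
  ev : ∀ r, ¬ S r → par (ru a) L r z = 0
  nm : ∃ y : F, Algebra.norm F (z : L) = y ^ 2

variable {S : k' → Prop}

include hFL in
/-- The two branches at a double point. -/
theorem EvN.branch (ha : 0 < a.natDegree) [FiniteDimensional F L]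
    (hfr : Module.finrank F L = a.natDegree)
    (hS : ∀ τ : k', (∃ r, S r ∧ a.eval r = τ) → {r | S r ∧ a.eval r = τ}.ncard = 2) {z : Lˣ}
    (hz : EvN (a := a) S F z) {r s : k'} (hr : S r) (hs : S s) (hrs : a.eval r = a.eval s) :
    par (ru a) L r z = par (ru a) L s z := by
  by_cases h0 : r = s
  · rw [h0]
  obtain ⟨x, y, hxy, hset⟩ := Set.ncard_eq_two.1 (hS (a.eval r) ⟨r, hr, rfl⟩)
  have hset' : {r' | S r' ∧ a.eval r' = a.eval r} = {r, s} := by
    have h1 : r ∈ ({x, y} : Set k') := by rw [← hset]; exact ⟨hr, rfl⟩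
    have h2 : s ∈ ({x, y} : Set k') := by rw [← hset]; exact ⟨hs, hrs.symm⟩
    rw [hset]
    simp only [Set.mem_insert_iff, Set.mem_singleton_iff] at h1 h2
    rcases h1 with rfl | rfl <;> rcases h2 with rfl | rfl
    · exact absurd rfl h0
    · rfl
    · exact Set.pair_comm _ _
    · exact absurd rfl h0
  have hn := par_norm hFL ha hfr (a.eval r) z
  have h1 : par (RingEquiv.refl k'[X]) F (a.eval r) (Units.map (Algebra.norm F : L →* F) z) = 0 := by
    obtain ⟨y, hy⟩ := hz.nm
    have hy0 : y ≠ 0 := by
      rintro rfl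
      rw [zero_pow two_ne_zero] at hy
      exact z.ne_zero (Algebra.norm_eq_zero_iff.1 hy)
    have h2 : Units.map (Algebra.norm F : L →* F) z = (Units.mk0 y hy0) ^ 2 := Units.ext hy
    rw [h2, par_sq]
  rw [h1] at hn
  have h2 : ∑ s' ∈ fib a (a.eval r), par (ru a) L s' z =
      ∑ s' ∈ ({r, s} : Finset k'), par (ru a) L s' z := by
    symm
    refine Finset.sum_subset ?_ ?_
    · intro s' hs'
      rw [mem_fib ha]
      rw [Finset.mem_insert, Finset.mem_singleton] at hs'
      rcases hs' with rfl | rfl
      · rfl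
      · exact hrs.symm
    · intro s' hs' hs''
      refine hz.ev s' fun h3 => hs'' ?_
      have h4 : s' ∈ {r' | S r' ∧ a.eval r' = a.eval r} := ⟨h3, (mem_fib ha _ _).1 hs'⟩
      rw [hset'] at h4
      simpa using h4
  rw [h2, Finset.sum_pair h0] at hn
  have h3 : ∀ c d : ZMod 2, c + d = 0 → c = d := by decide
  exact h3 _ _ hn

/-- The type of the values of `a` at the double points. -/
def Om (a : k'[X]) (S : k' → Prop) : Type := {τ : k' // ∃ r, S r ∧ a.eval r = τ}

/-- A branch at the double point. -/
noncomputable def rr (τ : Om a S) : k' := Classical.choose τ.2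

theorem rr_spec (τ : Om a S) : S (rr τ) ∧ a.eval (rr τ) = τ.1 := Classical.choose_spec τ.2

/-- The class of a function: its orders at the double points. -/
noncomputable def clN (S : k' → Prop) (z : Lˣ) : Om a S → ZMod 2 := fun τ => par (ru a) L (rr τ) z

theorem clN_mul (z w : Lˣ) : clN (a := a) S (z * w) = clN S z + clN S w :=
  funext fun τ => par_mul _ _ _ _

include hFL in
theorem EvN.zero (ha : 0 < a.natDegree) [FiniteDimensional F L]
    (hfr : Module.finrank F L = a.natDegree)
    (hS : ∀ τ : k', (∃ r, S r ∧ a.eval r = τ) → {r | S r ∧ a.eval r = τ}.ncard = 2) {z : Lˣ}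
    (hz : EvN (a := a) S F z) : clN (a := a) S z = 0 ↔ z ∈ sqS L := by
  constructor
  · intro h
    obtain ⟨y, hy⟩ := sq_of_par (ru a) z fun r => by
      by_cases hr : S r
      · let τ : Om a S := ⟨a.eval r, r, hr, rfl⟩
        rw [hz.branch hFL ha hfr hS hr (rr_spec τ).1 (rr_spec τ).2.symm]
        exact congrFun h τ
      · exact hz.ev r hr
    exact ⟨y, hy.symm⟩
  · rintro ⟨y, rfl⟩
    exact funext fun τ => par_sq _ _ _

end norm

end Pool.Agent.Q45.ND
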