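import Pool.Agent.Q45.ND.Loc
import Pool.Agent.Q45.GS.ParF
import Pool.Agent.Q45.OI.P.QA

/-!
# The valuation of the Kummer generator at a regular point of the curve
-/

set_option autoImplicit false
set_option linter.all false

open Polynomial IsDedekindDomain WithZero
open scoped nonZeroDivisors Classical

namespace Pool.Agent.Q45.ND

open Pool.Agent.Y160.SQ
open Pool.Agent.TH115.GD (incl rs ak Sep Comp rs_mul exists_compl_map)
open Pool.Agent.W309.TD (locConst_apply compare)
open Pool.Agent.Y160.SE (IsPw)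
open Pool.Agent.Q45.GP

section ev

variable {O E : Type} [CommRing O] [Field E] (w : Valuation E (WithZero (Multiplicative ℤ)))
  (φ : O →+* E) (x : E)

theorem ev_le (hφ : ∀ c, w (φ c) ≤ 1) (hx : w x ≤ 1) (q : O[X]) : w (q.eval₂ φ x) ≤ 1 := by
  rw [eval₂_eq_sum_range]
  refine Valuation.map_sum_le w fun i _ => ?_
  rw [map_mul, map_pow]
  exact mul_le_one' (hφ _) (pow_le_one₀ zero_le hx)

theorem ev_lt (hx : w x ≤ 1) (q : O[X]) (hq : ∀ i, w (φ (q.coeff i)) < 1) :
    w (q.eval₂ φ x) < 1 := by
  rw [eval₂_eq_sum_range]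
  refine Valuation.map_sum_lt w one_ne_zero fun i _ => ?_
  rw [map_mul, map_pow]
  exact mul_lt_one_of_lt_of_le (hq i) (pow_le_one₀ zero_le hx)

end ev

section par

variable {p m ℓ : ℕ} {A K F M B : Type} [CommRing A] [IsDedekindDomain A] [Field K] [Field F]
  [Algebra A F] [IsFractionRing A F] [Algebra K F]
  [Field M] [Algebra F M] [Algebra K M] [IsScalarTower K F M] [Algebra M (Sep F)]
  [IsScalarTower F M (Sep F)]
  [CommRing B] [IsDedekindDomain B] [Algebra B M] [IsFractionRing B M] [Algebra A B]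
  [Algebra.IsIntegral A B] [Algebra A M] [IsScalarTower A F M]
  [IsScalarTower A B M] [Module.IsTorsionFree A B]

/-- Regularity at one point of the curve. -/
theorem reg_pt {A F M B : Type} [CommRing A] [IsDedekindDomain A] [Field F]
    [Algebra A F] [IsFractionRing A F] [Field M] [CommRing B] [IsDedekindDomain B] [Algebra B M]
    [IsFractionRing B M] [Algebra A B] (v : HeightOneSpectrum A) (𝔓 : HeightOneSpectrum B)
    (j : v.adicCompletion F →+* 𝔓.adicCompletion M)
    (hj1 : ∀ x : A, j (algebraMap F (v.adicCompletion F) (algebraMap A F x)) =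
      algebraMap M (𝔓.adicCompletion M) (algebraMap B M (algebraMap A B x)))
    (hj2 : ∀ y, Valued.v y ≤ 1 → Valued.v (j y) ≤ 1)
    (hj3 : ∀ y, Valued.v y < 1 → Valued.v (j y) < 1) (θ : B) (f : A[X])
    (hf : f ∉ (𝔓.asIdeal.comap (aeval (R := A) θ).toRingHom) ^ 2)
    (a : (v.adicCompletionIntegers F)[X])
    (haw : Valued.v (((a.map (algebraMap _ (v.adicCompletion F))).map j).eval
      (algebraMap M (𝔓.adicCompletion M) (algebraMap B M θ))) < 1) :
    f.map (algebraMap A (v.adicCompletionIntegers F)) ∉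
      (Ideal.span {a} ⊔ (IsLocalRing.maximalIdeal (v.adicCompletionIntegers F)).map C) ^ 2 := by
  intro hmem
  refine hf (Ideal.pow_right_mono ?_ 2 (Pool.Agent.Q45.OI.mem_sq_comap v f a hmem))
  intro g hg
  rw [Ideal.mem_comap, Ideal.mem_span_singleton] at hg
  obtain ⟨q0, hq0⟩ := hg
  obtain ⟨q, hq⟩ := Polynomial.map_surjective _ (IsLocalRing.residue_surjective
    (R := v.adicCompletionIntegers F)) q0
  let w : Valuation (𝔓.adicCompletion M) (WithZero (Multiplicative ℤ)) := Valued.v
  let φ : v.adicCompletionIntegers F →+* 𝔓.adicCompletion M := j.comp (algebraMap _ _)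
  let x : 𝔓.adicCompletion M := algebraMap M (𝔓.adicCompletion M) (algebraMap B M θ)
  have hx : w x ≤ 1 := by
    have h1 : w x = 𝔓.valuation M (algebraMap B M θ) :=
      HeightOneSpectrum.valuedAdicCompletion_eq_valuation' 𝔓 _
    rw [h1]
    exact 𝔓.valuation_le_one θ
  have hφ : ∀ c, w (φ c) ≤ 1 := fun c => hj2 _ c.2
  set m : (v.adicCompletionIntegers F)[X] :=
    g.map (algebraMap A (v.adicCompletionIntegers F)) - a * q with hm
  have hm0 : m.map (IsLocalRing.residue (v.adicCompletionIntegers F)) = 0 := by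
    rw [hm, Polynomial.map_sub, Polynomial.map_mul, hq, ← hq0, Polynomial.map_map,
      coe_mapRingHom, sub_self]
  have hm1 : ∀ i, w (φ (m.coeff i)) < 1 := by
    intro i
    refine hj3 _ ?_
    have h1 : IsLocalRing.residue (v.adicCompletionIntegers F) (m.coeff i) = 0 := by
      rw [← coeff_map, hm0, coeff_zero]
    rw [IsLocalRing.residue_eq_zero_iff, IsLocalRing.mem_maximalIdeal, mem_nonunits_iff,
      HeightOneSpectrum.adicCompletionIntegers.isUnit_iff_valued_eq_one] at h1
    exact lt_of_le_of_ne (m.coeff i).2 h1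
  have ha : w (a.eval₂ φ x) < 1 := by
    rw [Polynomial.map_map, eval_map] at haw
    exact haw
  have hgx : w ((g.map (algebraMap A (v.adicCompletionIntegers F))).eval₂ φ x) < 1 := by
    have h1 : g.map (algebraMap A (v.adicCompletionIntegers F)) = a * q + m := by
      rw [hm]
      ring
    rw [h1, eval₂_add, eval₂_mul]
    refine Valuation.map_add_lt w ?_ (ev_lt w φ x hx m hm1)
    rw [map_mul]
    exact mul_lt_one_of_lt_of_le ha (ev_le w φ x hφ hx q)
  have h2 : (g.map (algebraMap A (v.adicCompletionIntegers F))).eval₂ φ x =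
      algebraMap M (𝔓.adicCompletion M) (algebraMap B M (aeval θ g)) := by
    rw [eval₂_map, aeval_def, hom_eval₂, hom_eval₂]
    congr 1
    exact RingHom.ext fun y => hj1 y
  rw [h2] at hgx
  have h3 : w (algebraMap M (𝔓.adicCompletion M) (algebraMap B M (aeval θ g))) =
      𝔓.valuation M (algebraMap B M (aeval θ g)) :=
    HeightOneSpectrum.valuedAdicCompletion_eq_valuation' 𝔓 _
  rw [h3, 𝔓.valuation_lt_one_iff_mem] at hgx
  exact hgx

/-- The valuation of the generator at a regular point is an `ℓ`-th power. -/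
theorem parP (hp : p.Prime) (hpm : ℓ = p ^ m) (H : Hyps)
    {f1 : K[X]} {fA : A[X]} (hfA : fA.map (algebraMap A F) = f1.map (algebraMap K F))
    {ζ : K} (hg : Good ℓ ζ f1) (hfm : fA.Monic)
    {a : Sep F} {θ z : M} (hθ : algebraMap M (Sep F) θ = a)
    (ha : Rt f1 a)
    {c : (Sep F ≃ₐ[F] Sep F) → Jac ℓ f1 (Sep F)}
    (hc : IsCoc ℓ _ c) (hc2 : ∀ σ, Tor hg (c σ))
    (hloc : ∀ v : HeightOneSpectrum A, LocTriv ℓ f1 (Comp A F v) (Sep (Comp A F v)) c)
    {t : Sep F} (ht : t ≠ 0)
    (hz : t ^ ℓ = algebraMap M (Sep F) z) (hk : ∀ σ : Sep F ≃ₐ[F] Sep F, σ a = a →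
      σ t = chi hg a (c σ) * t) (θ₀ : B) (hθ₀ : algebraMap B M θ₀ = θ) (𝔓 : HeightOneSpectrum B)
    (hS : fA ∉ (𝔓.asIdeal.comap (aeval (R := A) θ₀).toRingHom) ^ 2) :
    IsPw ℓ (𝔓.valuation M z) := by
  let v : HeightOneSpectrum A := 𝔓.under A
  haveI hlo : 𝔓.asIdeal.LiesOver v.asIdeal := ⟨rfl⟩
  have hval : ∀ x : F, v.valuation F x ^ v.asIdeal.ramificationIdx' 𝔓.asIdeal =
      𝔓.valuation M (algebraMap F M x) := fun x =>
    HeightOneSpectrum.valuation_liesOver (A := A) M v 𝔓 x
  have he : v.asIdeal.ramificationIdx' 𝔓.asIdeal ≠ 0 :=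
    Ideal.IsDedekindDomain.ramificationIdx'_ne_zero_of_liesOver 𝔓.asIdeal v.ne_bot
  obtain ⟨j, hj1, hj2, hj3⟩ := exists_compl_map v 𝔓 (algebraMap F M)
    (fun x hx => by rw [← hval]; exact pow_le_one₀ zero_le hx)
    (fun x hx => by rw [← hval]; exact pow_lt_one₀ zero_le hx he)
  let L := Comp A F v
  let E := Comp B M 𝔓
  haveI : IsScalarTower K F E := IsScalarTower.of_algebraMap_eq fun x => by
    show algebraMap M E (algebraMap K M x) = algebraMap M E (algebraMap F M (algebraMap K F x))
    rw [← IsScalarTower.algebraMap_apply K F M]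
  let j' : L →+* E := j
  have hj' : ∀ x : F, j' (algebraMap F L x) = algebraMap F E x := fun x => hj1 x
  have hjK : ∀ x : K, j' (algebraMap K L x) = algebraMap K E x := fun x => by
    rw [IsScalarTower.algebraMap_apply K F L, hj', ← IsScalarTower.algebraMap_apply K F E]
  obtain ⟨g0, G, y0, hg0, hy0, hG, hzG⟩ := locC (K := K) (F := F) (Ω := Sep F) (L := L)
    (Ω' := Sep L) (E := E) (M := M) H hg (Sep E) ha hθ j' hj' hc hc2 (hloc v) ht hz hk
  let wE : Valuation E (WithZero (Multiplicative ℤ)) :=
    (Valued.v : Valuation (𝔓.adicCompletion M) (WithZero (Multiplicative ℤ)))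
  have wz : ∀ x : M, wE (algebraMap M E x) = 𝔓.valuation M x := fun x =>
    HeightOneSpectrum.valuedAdicCompletion_eq_valuation' 𝔓 x
  -- the polynomial over the integers of the completion
  let fO : (v.adicCompletionIntegers F)[X] := fA.map (algebraMap A (v.adicCompletionIntegers F))
  have hfO : fO.map (algebraMap (v.adicCompletionIntegers F) (v.adicCompletion F)) =
      f1.map (algebraMap K L) := by
    have e1 : fO.map (algebraMap (v.adicCompletionIntegers F) (v.adicCompletion F)) =
        (fA.map (algebraMap A F)).map (algebraMap F L) := by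
      show (fA.map (algebraMap A (v.adicCompletionIntegers F))).map
        (algebraMap (v.adicCompletionIntegers F) (v.adicCompletion F)) = _
      rw [Polynomial.map_map, Polynomial.map_map]
      congr 1
    rw [e1, hfA, Polynomial.map_map, ← IsScalarTower.algebraMap_eq]
  have hroot : ((f1.map (algebraMap K L)).map j').eval (algebraMap M E θ) = 0 := by
    have h1 : eval₂ (algebraMap K M) θ f1 = 0 := by
      apply (algebraMap M (Sep F)).injective
      rw [hom_eval₂, hθ, map_zero]
      have h3 : (algebraMap M (Sep F)).comp (algebraMap K M) = algebraMap K (Sep F) :=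
        RingHom.ext fun x => by
          show algebraMap M (Sep F) (algebraMap K M x) = _
          rw [IsScalarTower.algebraMap_apply K F M, ← IsScalarTower.algebraMap_apply F M (Sep F),
            ← IsScalarTower.algebraMap_apply K F (Sep F)]
      rw [h3]
      exact ha
    rw [Polynomial.map_map]
    have h3 : j'.comp (algebraMap K L) = (algebraMap M E).comp (algebraMap K M) :=
      RingHom.ext fun x => hjK x
    rw [h3, eval_map, ← hom_eval₂, h1, map_zero]
  have hdeg : fA.natDegree = f1.natDegree := by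
    have h1 := congrArg natDegree hfA
    rw [hfm.natDegree_map, hg.monic.natDegree_map] at h1
    exact h1
  have hpw : ∀ s : Multiset (ℕ × L[X]), (∀ x ∈ s, x.2.Monic ∧ Irreducible x.2 ∧
      ¬ x.2 ∣ f1.map (algebraMap K L) ∧ x.1 ∣ ℓ ∧
      ∃ c : L[X], x.2 ∣ f1.map (algebraMap K L) - c ^ x.1) →
      IsPw ℓ (wE ((((s.map fun x : ℕ × L[X] => x.2 ^ (ℓ / x.1)).prod).map j').eval (algebraMap M E θ))) := by
    intro s
    induction s using Multiset.induction_on with
    | empty =>
      intro _
      rw [Multiset.map_zero, Multiset.prod_zero, Polynomial.map_one, eval_one, map_one]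
      exact ⟨1, (one_pow _).symm⟩
    | cons x s ih =>
      intro h
      obtain ⟨h1, h3, h4, hd, c, h5⟩ := h x (Multiset.mem_cons_self x s)
      rw [Multiset.map_cons, Multiset.prod_cons, Polynomial.map_mul, eval_mul, map_mul]
      refine IsPw.mul ?_ (ih fun q hq => h q (Multiset.mem_cons_of_mem hq))
      have hd0 : 0 < x.1 := Nat.pos_of_dvd_of_pos hd hg.pos
      obtain ⟨γ, hγ⟩ := loc x.1 v wE j' hj2 hj3 fO (f1.map (algebraMap K L)) x.2 c
        (algebraMap M E θ) hd0 hfO (hfm.map _) (fun a' _ _ haw => reg_pt v 𝔓 j (fun x => by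
          rw [hj1, ← IsScalarTower.algebraMap_apply A F M, ← IsScalarTower.algebraMap_apply A B M])
          hj2 hj3 θ₀ fA hS a' (by
            rw [hθ₀]
            exact haw))
        (by
          have h6 := hg.cop
          have h7 : fO.natDegree = f1.natDegree := by
            show (fA.map (algebraMap A (v.adicCompletionIntegers F))).natDegree = _
            rw [hfm.natDegree_map, hdeg]
          rw [h7]
          exact Nat.Coprime.coprime_dvd_left hd h6) hroot h1 h3 h5
      refine ⟨γ, ?_⟩
      rw [Polynomial.map_pow, eval_pow, map_pow]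
      refine (congrArg (fun δ => δ ^ (ℓ / x.1)) hγ).trans ?_
      show (γ ^ x.1) ^ (ℓ / x.1) = γ ^ ℓ
      rw [← pow_mul, Nat.mul_div_cancel' hd]
  obtain ⟨s, hps, hGe⟩ := hG
  have hGpw : IsPw ℓ (wE ((G.map j').eval (algebraMap M E θ))) := by
    rw [hGe]
    exact hpw s hps
  rw [← wz]
  refine IsPw.of_mul (δ := wE (j' y0)) ?_ ?_
  · rw [Valuation.ne_zero_iff]
    exact (_root_.map_ne_zero j').2 hy0
  · rw [← map_pow, ← map_mul]
    rcases hzG with h | h
    · rw [h, map_mul, map_pow, map_pow]
      exact (IsPw.self _).mul (hGpw.pow _)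
    · rw [h, Valuation.map_neg, map_mul, map_pow, map_pow]
      exact (IsPw.self _).mul (hGpw.pow _)

end par

end Pool.Agent.Q45.ND
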