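import Pool.Agent.Q45.ND.Even
import Pool.Agent.Q45.OI.K.LC
import Pool.Agent.Q45.OI.J.LEMX
import Pool.Agent.Q45.OI.J.ORTH
import Pool.Agent.Q45.OI.P.PG

/-!
# The open image theorem without the hypothesis on the rank
-/

set_option autoImplicit false
set_option linter.all false

open Module
open scoped Classical

namespace Pool.Agent.Q45.ND

open Pool.Agent.Q45.OI

theorem lems : Lems :=
  ⟨KLA.lie1, KLA.lie2, KLA.lie3, KLA.lie4, KLA.lie5, JORTH.main, JLEMX.main, KLC.red⟩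

/-- The data, without the surjectivity. -/
structure Data0 {G Ω M : Type} [Group G] [Fintype Ω] [AddCommGroup M] [Module ℤ_[2] M]
    (ρ : G →* (End ℤ_[2] M)ˣ) (κ : M →+ (Ω → ZMod 2)) (act : G →* Equiv.Perm Ω)
    (B : M →ₗ[ℤ_[2]] M →ₗ[ℤ_[2]] ℤ_[2]) : Prop where
  odd : Odd (Fintype.card Ω)
  card : 7 ≤ Fintype.card Ω
  ker : ∀ m, κ m = 0 ↔ ∃ m', m = (2 : ℤ_[2]) • m'
  eqv : ∀ T m i, κ ((ρ T : End ℤ_[2] M) m) (act T i) = κ m i
  perm : Function.Surjective act
  symm : ∀ x y, B x y = B y x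
  perfect : ∀ x, (∀ y, PadicInt.toZMod (B x y) = 0) → κ x = 0
  inv : ∀ T x y, B ((ρ T : End ℤ_[2] M) x) ((ρ T : End ℤ_[2] M) y) = B x y
  inf : ∃ T, Cg 2 (ρ T : End ℤ_[2] M) 1 ∧ ρ T ≠ 1

section image

variable {G Ω M : Type} [Group G] [Fintype Ω] [AddCommGroup M] [Module ℤ_[2] M]
  {ρ : G →* (End ℤ_[2] M)ˣ} {act : G →* Equiv.Perm Ω}

/-- The image of the reduction. -/
def imW (κ : M →+ (Ω → ZMod 2)) : Submodule (ZMod 2) (Ω → ZMod 2) where
  carrier := {w | ∃ m, κ m = w}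
  add_mem' := by
    rintro _ _ ⟨m, rfl⟩ ⟨m', rfl⟩
    exact ⟨m + m', map_add κ _ _⟩
  zero_mem' := ⟨0, map_zero κ⟩
  smul_mem' := by
    rintro c _ ⟨m, rfl⟩
    have h01 : ∀ x : ZMod 2, x = 0 ∨ x = 1 := by decide
    rcases h01 c with rfl | rfl
    · exact ⟨0, by rw [map_zero, zero_smul]⟩
    · exact ⟨m, by rw [one_smul]⟩

theorem mem_imW {κ : M →+ (Ω → ZMod 2)} {w : Ω → ZMod 2} : w ∈ imW κ ↔ ∃ m, κ m = w := Iff.rfl

/-- The image is stable. -/
theorem imW_stable {κ : M →+ (Ω → ZMod 2)}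
    (heqv : ∀ T m i, κ ((ρ T : End ℤ_[2] M) m) (act T i) = κ m i)
    (hperm : Function.Surjective act) (s : Equiv.Perm Ω) (w : Ω → ZMod 2) (hw : w ∈ imW κ) :
    (fun i => w (s i)) ∈ imW κ := by
  obtain ⟨m, rfl⟩ := hw
  obtain ⟨T, hT⟩ := hperm s⁻¹
  refine ⟨(ρ T : End ℤ_[2] M) m, funext fun i => ?_⟩
  have h1 := heqv T m (s i)
  rw [hT] at h1
  have h2 : s⁻¹ (s i) = i := s.symm_apply_apply i
  rwa [h2] at h1

variable [Module.Free ℤ_[2] M] [Module.Finite ℤ_[2] M]

/-- The image has the dimension of the rank. -/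
theorem imW_span {κ : M →+ (Ω → ZMod 2)}
    (hker : ∀ m, κ m = 0 ↔ ∃ m', m = (2 : ℤ_[2]) • m') :
    imW κ ≤ Submodule.span (ZMod 2)
      (Set.range fun i : Fin (finrank ℤ_[2] M) => κ (finBasis ℤ_[2] M i)) := by
  rintro _ ⟨m, rfl⟩
  rw [← (finBasis ℤ_[2] M).sum_repr m, map_sum]
  refine Submodule.sum_mem _ fun i _ => ?_
  rw [kap_smul κ hker]
  exact Submodule.smul_mem _ _ (Submodule.subset_span ⟨i, rfl⟩)

/-- The rank. -/
theorem rank_cases {κ : M →+ (Ω → ZMod 2)} (hodd : Odd (Fintype.card Ω))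
    (hker : ∀ m, κ m = 0 ↔ ∃ m', m = (2 : ℤ_[2]) • m')
    (heqv : ∀ T m i, κ ((ρ T : End ℤ_[2] M) m) (act T i) = κ m i)
    (hperm : Function.Surjective act) :
    ((∀ m i j, κ m i = κ m j) ∧ finrank ℤ_[2] M ≤ 1) ∨
      (EvV Ω ≤ imW κ ∧ Fintype.card Ω ≤ finrank ℤ_[2] M + 1) := by
  rcases subE Ω hodd (imW κ) (imW_stable heqv hperm) with h | h
  · left
    refine ⟨fun m i j => h _ ⟨m, rfl⟩ i j, ?_⟩
    by_contra hcon
    push Not at hcon
    have hind := kap_indep κ hker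
    have h01 : ∀ x : ZMod 2, x = 0 ∨ x = 1 := by decide
    obtain ⟨i₀⟩ : Nonempty Ω := by
      rw [← Fintype.card_pos_iff]
      exact hodd.pos
    have h1 : ∀ i : Fin (finrank ℤ_[2] M), κ (finBasis ℤ_[2] M i) = fun _ => 1 := by
      intro i
      have h2 : κ (finBasis ℤ_[2] M i) ≠ 0 := hind.ne_zero i
      rcases h01 (κ (finBasis ℤ_[2] M i) i₀) with h3 | h3
      · exfalso
        apply h2
        funext j
        rw [h _ ⟨_, rfl⟩ j i₀]
        exact h3
      · funext j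
        rw [h _ ⟨_, rfl⟩ j i₀]
        exact h3
    have h2 := hind.injective ((h1 ⟨0, by omega⟩).trans (h1 ⟨1, hcon⟩).symm)
    exact absurd (Fin.mk.inj_iff.1 h2) (by norm_num)
  · right
    refine ⟨h, ?_⟩
    have h1 : EvV Ω = LinearMap.ker
        (∑ i : Ω, LinearMap.proj (R := ZMod 2) (φ := fun _ => ZMod 2) i) := by
      ext w
      rw [mem_EvV, LinearMap.mem_ker, LinearMap.sum_apply]
      rfl
    have h2 := LinearMap.finrank_range_add_finrank_ker
      (∑ i : Ω, LinearMap.proj (R := ZMod 2) (φ := fun _ => ZMod 2) i)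
    rw [← h1, finrank_fintype_fun_eq_card] at h2
    have h3 := Submodule.finrank_le (LinearMap.range
      (∑ i : Ω, LinearMap.proj (R := ZMod 2) (φ := fun _ => ZMod 2) i))
    rw [finrank_self] at h3
    have h4 := Submodule.finrank_mono (h.trans (imW_span hker))
    have h5 := finrank_span_le_card (R := ZMod 2)
      (Set.range fun i : Fin (finrank ℤ_[2] M) => κ (finBasis ℤ_[2] M i))
    have h6 : (Set.range fun i : Fin (finrank ℤ_[2] M) => κ (finBasis ℤ_[2] M i)).toFinset.card ≤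
        finrank ℤ_[2] M := by
      rw [Set.toFinset_range]
      exact Finset.card_image_le.trans_eq (Finset.card_fin _)
    omega

end image

section small

variable {G Ω M : Type} [Group G] [Fintype Ω] [AddCommGroup M] [Module ℤ_[2] M]
  [Module.Free ℤ_[2] M] [Module.Finite ℤ_[2] M] {ρ : G →* (End ℤ_[2] M)ˣ}
  {κ : M →+ (Ω → ZMod 2)} {act : G →* Equiv.Perm Ω} {B : M →ₗ[ℤ_[2]] M →ₗ[ℤ_[2]] ℤ_[2]}

/-- The form is nondegenerate. -/
theorem Data0.radical (h : Data0 ρ κ act B) {x : M} (hx : ∀ y, B x y = 0) : x = 0 := by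
  have key : ∀ n : ℕ, ∃ w, x = (2 : ℤ_[2]) ^ n • w := by
    intro n
    induction n with
    | zero => exact ⟨x, by rw [pow_zero, one_smul]⟩
    | succ n ih =>
      obtain ⟨w, hw⟩ := ih
      obtain ⟨w', hw'⟩ := (h.ker w).1 (h.perfect w fun y => by
        have h1 := hx y
        rw [hw, map_smul, LinearMap.smul_apply, smul_eq_mul] at h1
        rw [(mul_eq_zero.1 h1).resolve_left (pow_ne_zero n two_ne), map_zero])
      exact ⟨w', by rw [hw, hw', pow_succ, mul_smul]⟩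
  exact zero_of_div key

/-- The rank is not at most one. -/
theorem Data0.rank_ne (h : Data0 ρ κ act B) : ¬ finrank ℤ_[2] M ≤ 1 := by
  intro hr
  obtain ⟨v, hv⟩ := finrank_le_one_iff.1 hr
  obtain ⟨T, hT1, hT2⟩ := h.inf
  apply hT2
  obtain ⟨c, hc⟩ := hv ((ρ T : End ℤ_[2] M) v)
  by_cases hv0 : v = 0
  · refine Units.ext (LinearMap.ext fun x => ?_)
    obtain ⟨b, hb⟩ := hv x
    rw [← hb, hv0, smul_zero, map_zero, map_zero]
  have hB : B v v ≠ 0 := by
    intro h0
    apply hv0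
    refine h.radical fun y => ?_
    obtain ⟨b, hb⟩ := hv y
    rw [← hb, map_smul, h0, smul_zero]
  have h1 := h.inv T v v
  rw [← hc] at h1
  simp only [map_smul, LinearMap.smul_apply, smul_eq_mul] at h1
  have h2 : (c - 1) * (c + 1) = 0 := by
    have h3 : ((c - 1) * (c + 1)) * B v v = 0 := by linear_combination h1
    exact (mul_eq_zero.1 h3).resolve_right hB
  have h3 : c = 1 := by
    rcases mul_eq_zero.1 h2 with h4 | h4
    · exact sub_eq_zero.1 h4
    · exfalso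
      obtain ⟨m, hm⟩ := (cg_iff _ _ _).1 hT1 v
      obtain ⟨b, hb⟩ := hv m
      have h5 : c = -1 := eq_neg_of_add_eq_zero_left h4
      have hm' : (ρ T : End ℤ_[2] M) v - v = (2 : ℤ_[2]) ^ 2 • m := hm
      rw [← hc, ← hb, h5, smul_smul] at hm'
      have h6 : ((-1 : ℤ_[2]) - 1 - 2 ^ 2 * b) • v = 0 := by
        rw [sub_smul, sub_smul, one_smul, hm', sub_self]
      have h7 : ((-1 : ℤ_[2]) - 1 - 2 ^ 2 * b) = 0 := (smul_eq_zero.1 h6).resolve_right hv0
      have h8 : (2 : ℤ_[2]) * (1 + 2 * b) = 0 := by linear_combination -h7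
      have h9 := (mul_eq_zero.1 h8).resolve_left two_ne
      have h10 := congrArg (PadicInt.toZMod (p := 2)) h9
      rw [map_add, map_one, tz_two, add_zero, map_zero] at h10
      exact one_ne_zero h10
  refine Units.ext (LinearMap.ext fun x => ?_)
  obtain ⟨b, hb⟩ := hv x
  rw [← hb, map_smul, ← hc, h3, one_smul]
  rfl

end small

section even

variable {G Ω M : Type} [Group G] [Fintype Ω] [AddCommGroup M] [Module ℤ_[2] M]
  [Module.Free ℤ_[2] M] [Module.Finite ℤ_[2] M] {ρ : G →* (End ℤ_[2] M)ˣ}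
  {κ : M →+ (Ω → ZMod 2)} {act : G →* Equiv.Perm Ω} {B : M →ₗ[ℤ_[2]] M →ₗ[ℤ_[2]] ℤ_[2]}

/-- The reduction, with values in the vectors of sum zero. -/
def kapE (κ : M →+ (Ω → ZMod 2)) (hE : ∀ m, κ m ∈ EvV Ω) : M →+ EvV Ω where
  toFun m := ⟨κ m, hE m⟩
  map_zero' := Subtype.ext (map_zero κ)
  map_add' m m' := Subtype.ext (map_add κ m m')

/-- The data of the family with one member. -/
theorem Data0.famN (hSc : ScalE) (hF : FormE) (hSk : SkewE) (h : Data0 ρ κ act B)
    (hE : ∀ m, κ m ∈ EvV Ω) {N : Type} [AddCommGroup N] [Module ℤ_[2] N]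
    [Module.Free ℤ_[2] N] [Module.Finite ℤ_[2] N] {ν : G →* (End ℤ_[2] N)ˣ}
    (hi : ∃ T, act T ^ 3 = 1 ∧ act T ≠ 1 ∧
      ∀ y, ∃ z, (ν T : End ℤ_[2] N) y - y = (2 : ℤ_[2]) • z) :
    FamN (ι := Unit) (M := fun _ => M) (V := fun _ => EvV Ω) (fun _ => ρ) ν
      (fun _ => kapE κ hE) (fun _ => (pmE Ω).comp act) (fun _ => B) where
  ker _ m := by
    rw [← h.ker m]
    exact Subtype.ext_iff
  eqv _ T m := by
    refine (pmE_eq fun i => ?_).symm
    exact h.eqv T m i
  large _ := large_E hSc hF hSk h.odd h.card fun s => by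
    obtain ⟨T, rfl⟩ := h.perm s
    exact ⟨T, rfl⟩
  card _ := card_EvV h.card
  ind _ := by
    obtain ⟨T, h1, h2, h3⟩ := hi
    refine ⟨T, ?_, fun h4 => h2 (pmE_inj (by have := h.card; omega) h4), ?_, h3⟩
    · show pmE Ω (act T) ^ 3 = 1
      rw [← map_pow, h1, map_one]
    · intro j hj
      exact absurd rfl hj
  ne _ := by
    intro h0
    apply h.rank_ne
    haveI : Subsingleton M := ⟨fun x y => by
      have h1 : ∀ x : M, x = 0 := fun x => h.radical fun y => by rw [h0]; rfl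
      rw [h1 x, h1 y]⟩
    rw [finrank_zero_of_subsingleton]
    omega
  symm _ := h.symm
  inv _ := h.inv
  inf _ := h.inf

/-- The vectors killed by the skew endomorphisms. -/
theorem Data0.killed (h : Data0 ρ κ act B) {x : M} (hx : ∀ a, InSo B a → a x = 0) : x = 0 := by
  -- a unit value of the form gives generators
  have hgen : ∀ w : M, (∀ a, InSo B a → a w = 0) → κ w = 0 := by
    intro w hw
    by_contra hκ
    obtain ⟨y, hy⟩ : ∃ y, PadicInt.toZMod (B w y) ≠ 0 := by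
      by_contra hcon
      push Not at hcon
      exact hκ (h.perfect w hcon)
    have h1 : ∀ z, B w y • z = B w z • y := by
      intro z
      let a : End ℤ_[2] M := (B.flip y).smulRight z - (B.flip z).smulRight y
      have ha : ∀ m, a m = B m y • z - B m z • y := fun m => rfl
      have h2 := hw a (by
        intro p q
        rw [ha, ha]
        simp only [map_sub, map_smul, LinearMap.sub_apply, LinearMap.smul_apply, smul_eq_mul]
        rw [h.symm p y, h.symm p z, h.symm z q, h.symm y q, h.symm z p, h.symm y p]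
        ring)
      rw [ha, sub_eq_zero] at h2
      exact h2
    have hu : IsUnit (B w y) := by
      by_contra hne
      obtain ⟨b, hb⟩ : ∃ b, B w y = 2 * b := by
        have h3 : B w y ∈ IsLocalRing.maximalIdeal ℤ_[2] := (IsLocalRing.mem_maximalIdeal _).2 hne
        rw [PadicInt.maximalIdeal_eq_span_p, Ideal.mem_span_singleton'] at h3
        obtain ⟨b, hb⟩ := h3
        exact ⟨b, by rw [← hb, mul_comm]; rfl⟩
      exact hy ((tz_zero_iff _).2 ⟨b, hb⟩)
    obtain ⟨u, hu⟩ := hu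
    apply h.rank_ne
    rw [finrank_le_one_iff]
    refine ⟨y, fun z => ⟨((u⁻¹ : ℤ_[2]ˣ) : ℤ_[2]) * B w z, ?_⟩⟩
    rw [mul_smul, ← h1 z, smul_smul, ← hu, Units.inv_mul, one_smul]
  have key : ∀ n : ℕ, ∃ w, x = (2 : ℤ_[2]) ^ n • w := by
    intro n
    induction n with
    | zero => exact ⟨x, by rw [pow_zero, one_smul]⟩
    | succ n ih =>
      obtain ⟨w, hw⟩ := ih
      obtain ⟨w', hw'⟩ := (h.ker w).1 (hgen w fun a ha => by
        have h1 := hx a ha
        rw [hw, map_smul] at h1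
        refine smul_cancel (n := n) ?_
        rw [h1, smul_zero])
      exact ⟨w', by rw [hw, hw', pow_succ, mul_smul]⟩
  exact zero_of_div key

end even

section main

/-- **The open image theorem**, without the hypothesis on the rank. -/
theorem open_all (hSc : ScalE) (hF : FormE) (hSk : SkewE) {G Ω M : Type} [Group G] [Fintype Ω]
    [AddCommGroup M] [Module ℤ_[2] M]
    [Module.Free ℤ_[2] M] [Module.Finite ℤ_[2] M] {ρ : G →* (End ℤ_[2] M)ˣ}
    {κ : M →+ (Ω → ZMod 2)} {act : G →* Equiv.Perm Ω} {B : M →ₗ[ℤ_[2]] M →ₗ[ℤ_[2]] ℤ_[2]}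
    (h : Data0 ρ κ act B) :
    ∃ v : M, (v = 0 ∨ ∀ i, κ v i = 1) ∧
      (∀ T, (ρ T : End ℤ_[2] M) v = v ∨ (ρ T : End ℤ_[2] M) v = -v) ∧
      (∀ P : Subgroup G, Chain P → ∀ x : M, (∀ T ∈ P, (ρ T : End ℤ_[2] M) x = x) →
        ∃ c : ℤ_[2], x = c • v) ∧
      ∀ (N : Type) [AddCommGroup N] [Module ℤ_[2] N] [Module.Free ℤ_[2] N]
        [Module.Finite ℤ_[2] N] (ν : G →* End ℤ_[2] N), (∃ T, (∀ y, ∃ z, ν T y - y =
          (2 : ℤ_[2]) • z) ∧ act T ≠ 1) →
        ∀ P : Subgroup G, Chain P → ∃ j : ℕ, ∀ α : M ≃ₗ[ℤ_[2]] M,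
          (∀ x y, B (α x) (α y) = B x y) → α v = v →
          (∀ m, ∃ m', α m - m = (2 : ℤ_[2]) ^ j • m') →
          ∀ n, ∃ T ∈ P, (∀ m, ∃ m', (ρ T : End ℤ_[2] M) m - α m = (2 : ℤ_[2]) ^ n • m') ∧
            ∀ y, ∃ z, ν T y - y = (2 : ℤ_[2]) ^ n • z := by
  rcases rank_cases h.odd h.ker h.eqv h.perm with ⟨-, h1⟩ | ⟨hEv, -⟩
  · exact absurd h1 h.rank_ne
  by_cases hsurj : Function.Surjective κ
  · exact open_image' ⟨h.odd, h.card, hsurj, h.ker, h.eqv, h.perm, h.symm, h.perfect, h.inv, h.inf⟩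
  -- the image consists of the vectors of sum zero
  have hE : ∀ m, κ m ∈ EvV Ω := by
    intro m
    by_contra hm
    apply hsurj
    have h01 : ∀ x : ZMod 2, x = 0 ∨ x = 1 := by decide
    have hm1 : ∑ i, κ m i = 1 := (h01 _).resolve_left fun h2 => hm (mem_EvV.2 h2)
    intro w
    rcases h01 (∑ i, w i) with hw | hw
    · exact hEv (mem_EvV.2 hw)
    · obtain ⟨m', hm'⟩ := hEv (x := w - κ m) (by
        rw [mem_EvV]
        simp only [Pi.sub_apply]
        rw [Finset.sum_sub_distrib, hw, hm1, sub_self])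
      exact ⟨m' + m, by rw [map_add, hm', sub_add_cancel]⟩
  -- the trivial second module
  have hfix : ∀ P : Subgroup G, Chain P → ∀ x : M, (∀ T ∈ P, (ρ T : End ℤ_[2] M) x = x) →
      x = 0 := by
    intro P hP x hx
    obtain ⟨T₀, hT₀, hT₀'⟩ : ∃ T, act T ^ 3 = 1 ∧ act T ≠ 1 := by
      have h7 := h.card
      obtain ⟨a, b, c, hab, hac, hbc⟩ :=
        Fintype.two_lt_card_iff.1 (by omega : 2 < Fintype.card Ω)
      have h3 := Equiv.Perm.isThreeCycle_swap_mul_swap_same hab hac hbc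
      obtain ⟨T, hT⟩ := h.perm (Equiv.swap a b * Equiv.swap a c)
      have h4 := h3.orderOf
      refine ⟨T, ?_, ?_⟩
      · rw [hT, ← h4]
        exact pow_orderOf_eq_one _
      · rw [hT]
        intro h5
        rw [h5, orderOf_one] at h4
        exact absurd h4 (by norm_num)
    have h0 := h.famN hSc hF hSk hE (N := Fin 0 → ℤ_[2]) (ν := 1)
      ⟨T₀, hT₀, hT₀', fun y => ⟨0, Subsingleton.elim _ _⟩⟩
    refine h.killed fun a ha => ?_
    have h2 := h0.lie lems hP () a ha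
    refine zero_of_div fun n => ?_
    obtain ⟨i, hi, _, ⟨T, hT, rfl⟩, C, hC⟩ := h2 n
    have h3 := congrArg Prod.fst (LinearMap.congr_fun hC ((fun _ => x), 0))
    rw [pr_apply] at h3
    have h4 := congrFun h3 ()
    have h5 : (ρ T : End ℤ_[2] M) x = x + (2 : ℤ_[2]) ^ i • a x +
        (2 : ℤ_[2]) ^ (i + n) • (C ((fun _ => x), 0)).1 () := by
      have h6 : (tot (fun _ : Unit => ρ) T : End ℤ_[2] (∀ _ : Unit, M)) (fun _ => x) () =
          (ρ T : End ℤ_[2] M) x := by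
        rw [tot_val]
        exact diag_apply _ _ _
      rw [← h6]
      refine h4.trans ?_
      simp only [LinearMap.add_apply, LinearMap.smul_apply, Prod.fst_add, Prod.smul_fst,
        Pi.add_apply, Pi.smul_apply, ik_apply, End.one_apply]
      congr 2
      simp [inc2, prj2]
    rw [hx T hT] at h5
    refine ⟨-(C ((fun _ => x), 0)).1 (), ?_⟩
    apply smul_cancel (n := i)
    rw [smul_neg, smul_neg, smul_smul, ← pow_add]
    have h6 : x + ((2 : ℤ_[2]) ^ i • a x + (2 : ℤ_[2]) ^ (i + n) • (C ((fun _ => x), 0)).1 ()) =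
        x + 0 := by
      rw [← add_assoc, ← h5, add_zero]
    exact eq_neg_of_add_eq_zero_left (add_left_cancel h6)
  refine ⟨0, Or.inl rfl, fun T => Or.inl (map_zero _), fun P hP x hx => ⟨0, by
    rw [smul_zero]; exact hfix P hP x hx⟩, fun N _ _ _ _ ν hN P hP => ?_⟩
  -- an element of order three
  obtain ⟨T, hT1, hT2⟩ := hN
  let S : Subgroup G :=
    { carrier := {T | ∀ y, ∃ z, ν T y - y = (2 : ℤ_[2]) • z}
      mul_mem' := by
        intro A A' hA hA' y
        obtain ⟨z, hz⟩ := hA' y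
        obtain ⟨w, hw⟩ := hA (ν A' y)
        refine ⟨w + z, ?_⟩
        rw [smul_add, ← hw, ← hz, map_mul, Module.End.mul_apply]
        abel
      one_mem' := fun y => ⟨0, by rw [map_one, smul_zero]; exact sub_self y⟩
      inv_mem' := by
        intro A hA y
        obtain ⟨z, hz⟩ := hA (ν A⁻¹ y)
        refine ⟨-z, ?_⟩
        have h5 : ν A (ν A⁻¹ y) = y := by
          rw [← Module.End.mul_apply, ← map_mul, mul_inv_cancel, map_one]
          rfl
        rw [h5] at hz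
        rw [smul_neg, ← hz]
        abel }
  haveI : S.Normal := ⟨by
    intro A hA R y
    obtain ⟨z, hz⟩ := hA (ν R⁻¹ y)
    refine ⟨ν R z, ?_⟩
    have h5 : ν R (ν R⁻¹ y) = y := by
      rw [← Module.End.mul_apply, ← map_mul, mul_inv_cancel, map_one]
      rfl
    rw [← map_smul, ← hz, map_sub, h5, map_mul, map_mul, Module.End.mul_apply,
      Module.End.mul_apply]⟩
  obtain ⟨U, hU1, hU2, hU3⟩ := exists_three_of_act h.odd h.perm S hT1 hT2
  have h0 := h.famN hSc hF hSk hE (ν := ν.toHomUnits) ⟨U, hU2, hU3, hU1⟩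
  obtain ⟨j, hj⟩ := h0.joint lems hP
  refine ⟨j, fun α hα _ hα1 n => ?_⟩
  obtain ⟨T, hT, h5, h6⟩ := hj (fun _ => α) (fun _ => hα) (fun _ => hα1) n
  exact ⟨T, hT, h5 (), h6⟩

end main

end Pool.Agent.Q45.ND
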