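import Pool.Agent.Q45.OI.P.PF

/-!
# Statements of the lemma jobs of the project ND (double planes with nodal branch curves), only statements
-/

set_option autoImplicit false
set_option linter.all false

open Module

namespace Pool.Agent.Q45.ND

open Pool.Agent.Q45.OI (Cg InLie InO InSo Chain)

section graph

variable {Ω : Type} [Fintype Ω]

/-- The symmetric matrices with zero diagonal (graphs with the set of vertices `Ω`). -/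
def IsAlt (X : Matrix Ω Ω (ZMod 2)) : Prop := (∀ i, X i i = 0) ∧ ∀ i j, X i j = X j i

/-- The matrices whose rows have the sum `0` (for graphs: all the degrees are even). -/
def IsEv (X : Matrix Ω Ω (ZMod 2)) : Prop := ∀ i, ∑ j, X i j = 0

/-- The number of edges modulo two. -/
def lam [LinearOrder Ω] (X : Matrix Ω Ω (ZMod 2)) : ZMod 2 := ∑ i, ∑ j, if i < j then X i j else 0

/-- The complete graph. -/
def full (Ω : Type) [DecidableEq Ω] : Matrix Ω Ω (ZMod 2) := Matrix.of fun i j => if i = j then 0 else 1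

end graph

/-- GRAPH. The spaces of graphs which are stable under permutations and commutators. -/
def Graph : Prop :=
  ∀ (Ω : Type) [Fintype Ω] [LinearOrder Ω], Odd (Fintype.card Ω) → 7 ≤ Fintype.card Ω →
    ∀ U : Submodule (ZMod 2) (Matrix Ω Ω (ZMod 2)), (∀ X ∈ U, IsAlt X) →
      (∀ s : Equiv.Perm Ω, ∀ X ∈ U, X.submatrix s s ∈ U) →
      (∀ X ∈ U, ∀ Y ∈ U, X * Y - Y * X ∈ U) →
      (∀ X, IsAlt X → X ∈ U) ∨ (∀ X ∈ U, X = 0 ∨ X = full Ω) ∨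
        ((∀ X ∈ U, IsEv X) ∧ ∀ X, IsAlt X → IsEv X → lam X = 0 → X ∈ U)

/-- The reduction modulo two, and a form whose reduction is the dot product. -/
structure Setup {Ω M : Type} [Fintype Ω] [DecidableEq Ω] [AddCommGroup M] [Module ℤ_[2] M]
    (κ : M →+ (Ω → ZMod 2)) (R : End ℤ_[2] M →+* Matrix Ω Ω (ZMod 2))
    (B : M →ₗ[ℤ_[2]] M →ₗ[ℤ_[2]] ℤ_[2]) : Prop where
  surj : Function.Surjective κ
  ker : ∀ m, κ m = 0 ↔ ∃ m', m = (2 : ℤ_[2]) • m'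
  red : ∀ A m, κ (A m) = (R A).mulVec (κ m)
  rsurj : Function.Surjective R
  rker : ∀ A, R A = 0 ↔ ∃ C, A = (2 : ℤ_[2]) • C
  symm : ∀ x y, B x y = B y x
  dot : ∀ x y, PadicInt.toZMod (B x y) = ∑ i, κ x i * κ y i

/-- DOT. An invariant perfect form reduces to the dot product. -/
def Dot : Prop :=
  ∀ (Ω : Type) [Fintype Ω] [DecidableEq Ω], Odd (Fintype.card Ω) → 3 ≤ Fintype.card Ω →
    ∀ (M : Type) [AddCommGroup M] [Module ℤ_[2] M] (κ : M →+ (Ω → ZMod 2)),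
      Function.Surjective κ → (∀ m, κ m = 0 ↔ ∃ m', m = (2 : ℤ_[2]) • m') →
      ∀ (H : Subgroup (End ℤ_[2] M)ˣ) (B : M →ₗ[ℤ_[2]] M →ₗ[ℤ_[2]] ℤ_[2]),
        (∀ x y, B x y = B y x) → (∀ x, (∀ y, PadicInt.toZMod (B x y) = 0) → κ x = 0) →
        (∀ g ∈ H, InO B (g : End ℤ_[2] M)) →
        (∀ s : Equiv.Perm Ω, ∃ g ∈ H, ∀ m i, κ ((g : End ℤ_[2] M) m) (s i) = κ m i) →
        ∀ x y, PadicInt.toZMod (B x y) = ∑ i, κ x i * κ y i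

/-- LINE. There is no stable line of skew endomorphisms which reduce to the complete graph. -/
def Line : Prop :=
  ∀ (Ω : Type) [Fintype Ω] [DecidableEq Ω], Odd (Fintype.card Ω) → 7 ≤ Fintype.card Ω →
    ∀ (M : Type) [AddCommGroup M] [Module ℤ_[2] M] [Module.Free ℤ_[2] M] [Module.Finite ℤ_[2] M]
      (κ : M →+ (Ω → ZMod 2)) (R : End ℤ_[2] M →+* Matrix Ω Ω (ZMod 2))
      (B : M →ₗ[ℤ_[2]] M →ₗ[ℤ_[2]] ℤ_[2]), Setup κ R B →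
      ∀ H : Subgroup (End ℤ_[2] M)ˣ, (∀ g ∈ H, InO B (g : End ℤ_[2] M)) →
        (∀ s : Equiv.Perm Ω, ∃ g ∈ H, ∀ m i, κ ((g : End ℤ_[2] M) m) (s i) = κ m i) →
        ∀ A : End ℤ_[2] M, InSo B A → R A = full Ω → ¬ ∀ g ∈ H, ∃ c : ℤ_[2],
          (g : End ℤ_[2] M) * A * ((g⁻¹ : (End ℤ_[2] M)ˣ) : End ℤ_[2] M) = c • A

/-- LAM. A saturated Lie algebra which contains lifts of all the even graphs with an even number of
edges contains the lift of a graph with an odd number of edges. -/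
def Lam : Prop :=
  ∀ (Ω : Type) [Fintype Ω] [LinearOrder Ω], 7 ≤ Fintype.card Ω →
    ∀ (M : Type) [AddCommGroup M] [Module ℤ_[2] M] [Module.Free ℤ_[2] M] [Module.Finite ℤ_[2] M]
      (κ : M →+ (Ω → ZMod 2)) (R : End ℤ_[2] M →+* Matrix Ω Ω (ZMod 2))
      (B : M →ₗ[ℤ_[2]] M →ₗ[ℤ_[2]] ℤ_[2]), Setup κ R B →
      ∀ L : Submodule ℤ_[2] (End ℤ_[2] M), (∀ A, (2 : ℤ_[2]) • A ∈ L → A ∈ L) →
        (∀ A ∈ L, InSo B A) → (∀ A ∈ L, ∀ A' ∈ L, A * A' - A' * A ∈ L) →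
        (∀ X, IsAlt X → IsEv X → lam X = 0 → ∃ A ∈ L, R A = X) → ∃ A ∈ L, lam (R A) = 1

/-- SING. A saturated Lie algebra of lifts of even graphs which contains a lift of the complete graph
kills a vector. -/
def Sing : Prop :=
  ∀ (Ω : Type) [Fintype Ω] [DecidableEq Ω], Odd (Fintype.card Ω) → 3 ≤ Fintype.card Ω →
    ∀ (M : Type) [AddCommGroup M] [Module ℤ_[2] M] [Module.Free ℤ_[2] M] [Module.Finite ℤ_[2] M]
      (κ : M →+ (Ω → ZMod 2)) (R : End ℤ_[2] M →+* Matrix Ω Ω (ZMod 2))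
      (B : M →ₗ[ℤ_[2]] M →ₗ[ℤ_[2]] ℤ_[2]), Setup κ R B →
      ∀ L : Submodule ℤ_[2] (End ℤ_[2] M), (∀ A, (2 : ℤ_[2]) • A ∈ L → A ∈ L) →
        (∀ A ∈ L, InSo B A) → (∀ A ∈ L, ∀ A' ∈ L, A * A' - A' * A ∈ L) →
        (∀ A ∈ L, IsEv (R A)) → ∀ A₀ ∈ L, R A₀ = full Ω →
        ∃ v, (∀ i, κ v i = 1) ∧ ∀ A ∈ L, A v = 0

/-- STRUCT. The saturated Lie algebras of skew endomorphisms which are stable under a group with
image the symmetric group. -/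
def Struct : Prop :=
  ∀ (Ω : Type) [Fintype Ω] [DecidableEq Ω], Odd (Fintype.card Ω) → 7 ≤ Fintype.card Ω →
    ∀ (M : Type) [AddCommGroup M] [Module ℤ_[2] M] [Module.Free ℤ_[2] M] [Module.Finite ℤ_[2] M]
      (κ : M →+ (Ω → ZMod 2)), Function.Surjective κ →
      (∀ m, κ m = 0 ↔ ∃ m', m = (2 : ℤ_[2]) • m') →
      ∀ (H : Subgroup (End ℤ_[2] M)ˣ) (B : M →ₗ[ℤ_[2]] M →ₗ[ℤ_[2]] ℤ_[2]),
        (∀ x y, B x y = B y x) → (∀ x, (∀ y, PadicInt.toZMod (B x y) = 0) → κ x = 0) →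
        (∀ g ∈ H, InO B (g : End ℤ_[2] M)) →
        (∀ s : Equiv.Perm Ω, ∃ g ∈ H, ∀ m i, κ ((g : End ℤ_[2] M) m) (s i) = κ m i) →
        ∀ L : Submodule ℤ_[2] (End ℤ_[2] M), (∀ A, (2 : ℤ_[2]) • A ∈ L → A ∈ L) →
          (∀ g ∈ H, ∀ A ∈ L,
            (g : End ℤ_[2] M) * A * ((g⁻¹ : (End ℤ_[2] M)ˣ) : End ℤ_[2] M) ∈ L) →
          (∀ A ∈ L, InSo B A) → (∀ A ∈ L, ∀ A' ∈ L, A * A' - A' * A ∈ L) → L ≠ ⊥ →
          (∀ A, InSo B A → A ∈ L) ∨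
            ∃ v, (∀ i, κ v i = 1) ∧ ∀ A, A ∈ L ↔ InSo B A ∧ A v = 0

/-- The data for the joint open image. -/
structure Data {G Ω M N : Type} [Group G] [Fintype Ω] [AddCommGroup M] [Module ℤ_[2] M]
    [AddCommGroup N] [Module ℤ_[2] N] (ρ : G →* (End ℤ_[2] M)ˣ) (ν : G →* (End ℤ_[2] N)ˣ)
    (κ : M →+ (Ω → ZMod 2)) (act : G →* Equiv.Perm Ω) (B : M →ₗ[ℤ_[2]] M →ₗ[ℤ_[2]] ℤ_[2]) :
    Prop where
  odd : Odd (Fintype.card Ω)
  card : 7 ≤ Fintype.card Ω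
  surj : Function.Surjective κ
  ker : ∀ m, κ m = 0 ↔ ∃ m', m = (2 : ℤ_[2]) • m'
  eqv : ∀ T m i, κ ((ρ T : End ℤ_[2] M) m) (act T i) = κ m i
  perm : Function.Surjective act
  ind : ∃ T, act T ^ 3 = 1 ∧ act T ≠ 1 ∧ ∀ y, ∃ z, (ν T : End ℤ_[2] N) y - y = (2 : ℤ_[2]) • z
  symm : ∀ x y, B x y = B y x
  perfect : ∀ x, (∀ y, PadicInt.toZMod (B x y) = 0) → κ x = 0
  inv : ∀ T x y, B ((ρ T : End ℤ_[2] M) x) ((ρ T : End ℤ_[2] M) y) = B x y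
  inf : ∃ T, Cg 2 (ρ T : End ℤ_[2] M) 1 ∧ ρ T ≠ 1

/-- ANN. The vectors killed by the skew endomorphisms which kill `v`. -/
def Ann : Prop :=
  ∀ (Ω : Type) [Fintype Ω] [DecidableEq Ω], Odd (Fintype.card Ω) → 7 ≤ Fintype.card Ω →
    ∀ (M : Type) [AddCommGroup M] [Module ℤ_[2] M] [Module.Free ℤ_[2] M] [Module.Finite ℤ_[2] M]
      (κ : M →+ (Ω → ZMod 2)), Function.Surjective κ →
      (∀ m, κ m = 0 ↔ ∃ m', m = (2 : ℤ_[2]) • m') →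
      ∀ B : M →ₗ[ℤ_[2]] M →ₗ[ℤ_[2]] ℤ_[2], (∀ x y, B x y = B y x) →
        (∀ x y, PadicInt.toZMod (B x y) = ∑ i, κ x i * κ y i) →
        (∀ w : M, (∀ a, InSo B a → a w = 0) → w = 0) ∧
        ∀ v : M, (∀ i, κ v i = 1) → ∀ w : M, (∀ a, InSo B a → a v = 0 → a w = 0) →
          ∃ c : ℤ_[2], w = c • v

/-- PERF. The skew endomorphisms which kill `v` are, up to powers of two, sums of commutators. -/
def Perf : Prop :=
  ∀ (Ω : Type) [Fintype Ω] [DecidableEq Ω], Odd (Fintype.card Ω) → 7 ≤ Fintype.card Ω →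
    ∀ (M : Type) [AddCommGroup M] [Module ℤ_[2] M] [Module.Free ℤ_[2] M] [Module.Finite ℤ_[2] M]
      (κ : M →+ (Ω → ZMod 2)), Function.Surjective κ →
      (∀ m, κ m = 0 ↔ ∃ m', m = (2 : ℤ_[2]) • m') →
      ∀ (H : Subgroup (End ℤ_[2] M)ˣ) (B : M →ₗ[ℤ_[2]] M →ₗ[ℤ_[2]] ℤ_[2]),
        (∀ x y, B x y = B y x) → (∀ x, (∀ y, PadicInt.toZMod (B x y) = 0) → κ x = 0) →
        (∀ g ∈ H, InO B (g : End ℤ_[2] M)) →
        (∀ s : Equiv.Perm Ω, ∃ g ∈ H, ∀ m i, κ ((g : End ℤ_[2] M) m) (s i) = κ m i) →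
        ∀ v : M, (v = 0 ∨ ∀ i, κ v i = 1) →
          (∀ g ∈ H, (g : End ℤ_[2] M) v = v ∨ (g : End ℤ_[2] M) v = -v) →
          ∀ a : End ℤ_[2] M, InSo B a → a v = 0 → ∃ s : ℕ, (2 : ℤ_[2]) ^ s • a ∈
            Submodule.span ℤ_[2] {c : End ℤ_[2] M | ∃ x y : End ℤ_[2] M, InSo B x ∧ x v = 0 ∧
              InSo B y ∧ y v = 0 ∧ c = x * y - y * x}

/-- BLKN. The Lie algebra of the image in the automorphisms of `M × N` contains the skew endomorphisms of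
`M` which kill `v`. -/
def BlkN : Prop :=
  ∀ (G Ω M N : Type) [Group G] [Fintype Ω] [AddCommGroup M] [Module ℤ_[2] M]
    [Module.Free ℤ_[2] M] [Module.Finite ℤ_[2] M] [AddCommGroup N] [Module ℤ_[2] N]
    [Module.Free ℤ_[2] N] [Module.Finite ℤ_[2] N] (ρ : G →* (End ℤ_[2] M)ˣ)
    (ν : G →* (End ℤ_[2] N)ˣ) (κ : M →+ (Ω → ZMod 2)) (act : G →* Equiv.Perm Ω)
    (B : M →ₗ[ℤ_[2]] M →ₗ[ℤ_[2]] ℤ_[2]), Data ρ ν κ act B →
    ∃ v : M, (v = 0 ∨ ∀ i, κ v i = 1) ∧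
      (∀ T, (ρ T : End ℤ_[2] M) v = v ∨ (ρ T : End ℤ_[2] M) v = -v) ∧
      ∀ a, InSo B a → a v = 0 →
        InLie (Pool.Agent.Q45.OI.pr ρ ν).range (a.prodMap (0 : End ℤ_[2] N))

/-- JOINT. The open image theorem, independently of the module `N`, for the subgroups reached by a
chain. -/
def Joint : Prop :=
  ∀ (G Ω M N : Type) [Group G] [Fintype Ω] [AddCommGroup M] [Module ℤ_[2] M]
    [Module.Free ℤ_[2] M] [Module.Finite ℤ_[2] M] [AddCommGroup N] [Module ℤ_[2] N]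
    [Module.Free ℤ_[2] N] [Module.Finite ℤ_[2] N] (ρ : G →* (End ℤ_[2] M)ˣ)
    (ν : G →* (End ℤ_[2] N)ˣ) (κ : M →+ (Ω → ZMod 2)) (act : G →* Equiv.Perm Ω)
    (B : M →ₗ[ℤ_[2]] M →ₗ[ℤ_[2]] ℤ_[2]), Data ρ ν κ act B →
    ∃ v : M, (v = 0 ∨ ∀ i, κ v i = 1) ∧
      (∀ T, (ρ T : End ℤ_[2] M) v = v ∨ (ρ T : End ℤ_[2] M) v = -v) ∧
      ∀ P : Subgroup G, Chain P → ∃ j : ℕ, ∀ α : M ≃ₗ[ℤ_[2]] M,
        (∀ x y, B (α x) (α y) = B x y) → α v = v →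
        (∀ m, ∃ m', α m - m = (2 : ℤ_[2]) ^ j • m') →
        ∀ n, ∃ T ∈ P, (∀ m, ∃ m', (ρ T : End ℤ_[2] M) m - α m = (2 : ℤ_[2]) ^ n • m') ∧
          ∀ y, ∃ z, (ν T : End ℤ_[2] N) y - y = (2 : ℤ_[2]) ^ n • z

end Pool.Agent.Q45.ND
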